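import Mathlib
import Pool.Agent.Helper9.KSMDefs

/-!
Definitions for the unitary case of the structural theorem on Kuga-Satake motives (imaginary
quadratic multiplication), in the coordinates of `Pool.Agent.Helper9.KSMDefs`.

`J` is a generator of the field `E = K(√-a)` of endomorphisms of the Hodge structure `V = Kⁿ`,
skew for the form `b(x, y) = ∑ dᵢ xᵢ yᵢ`; the Mumford-Tate Lie algebra of `V` is the unitary Lie
algebra `u(V)` of all skew matrices commuting with `J`.
-/

open scoped Matrix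

namespace Pool.Agent.Helper36.UKS

open Pool.Agent.Helper9.KSM

/-- `J² = -a`, `-a` is not a square in `K`, and `J` is skew for `b`. -/
structure IsMult {K : Type} [Field K] {n : ℕ} (d : Fin n → K) (a : K) (J : Mat n K) : Prop where
  sq : J * J = -(a • (1 : Mat n K))
  skew : IsSkew d J
  nonsq : ¬ IsSquare (-a)

/-- `g` is a Lie algebra of matrices, `ρ` a representation of `g` by skew matrices whose image
contains all skew matrices commuting with `J`, and the kernel of `ρ` on `g` has a complementary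
ideal. -/
structure IsUnitRep {K : Type} [Field K] {n m : ℕ} (d : Fin n → K) (J : Mat n K)
    (g : Submodule K (Mat m K)) (ρ : Mat m K →ₗ[K] Mat n K) : Prop where
  lie : LieClosed g
  hom : IsLieHom g ρ
  skew : ∀ y ∈ g, IsSkew d (ρ y)
  onto : ∀ Y, IsSkew d Y → Y * J = J * Y → ∃ y ∈ g, ρ y = Y
  compl : KerCompl g ρ

/-- `J` is an endomorphism of the Hodge structure `V`: it commutes with the action of `P`. -/
def IsHodgeEnd {K L : Type} [Field K] [Field L] [Algebra K L] {n m r : ℕ} (J : Mat n K)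
    (ρ : Mat m K →ₗ[K] Mat n K) (l : Fin r → L) (x : Fin r → Mat m K) : Prop :=
  J.map (algebraMap K L) * comb l (fun i => ρ (x i))
    = comb l (fun i => ρ (x i)) * J.map (algebraMap K L)

/-- the form `b` -/
def form {K : Type} [Field K] {n : ℕ} (d x y : Fin n → K) : K := ∑ i, d i * x i * y i

/-- `κ(x, y) = ∑ xᵢ yⱼ κᵢⱼ` -/
def bi {K : Type} [Field K] {n p : ℕ} (κ : Fin n → Fin n → Mat p K) (x y : Fin n → K) : Mat p K :=
  ∑ i, ∑ j, (x i * y j) • κ i j

/-- `κ(x, y)` is the image of `x y + a⁻¹ (J x) (J y)` under a unital representation of the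
centraliser of `J` in the even Clifford algebra of `b` (`v w + w v = b(v, w)`). -/
structure IsUnitCliff {K : Type} [Field K] {n p : ℕ} (d : Fin n → K) (a : K) (J : Mat n K)
    (κ : Fin n → Fin n → Mat p K) : Prop where
  symm : ∀ x y, bi κ x y + bi κ y x = (2 * form d x y) • (1 : Mat p K)
  herm : ∀ x y, bi κ (J *ᵥ x) (J *ᵥ y) = a • bi κ x y
  rel : ∀ x y z t,
    (bi κ x y * bi κ z t - a⁻¹ • (bi κ (J *ᵥ x) y * bi κ (J *ᵥ z) t))
      + (bi κ z y * bi κ x t - a⁻¹ • (bi κ (J *ᵥ z) y * bi κ (J *ᵥ x) t))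
    = (2 : K) • (form d z y • bi κ x t - (a⁻¹ * form d (J *ᵥ z) y) • bi κ (J *ᵥ x) t)
      + (2 : K) • (form d x y • bi κ z t - (a⁻¹ * form d (J *ᵥ x) y) • bi κ (J *ᵥ z) t)

/-- `φ : V → H ⊗ H = Mat_m(K)` is linear and equivariant under `g` up to the character `χ`. -/
structure IsEquiv {K : Type} [Field K] {n m : ℕ} (g : Submodule K (Mat m K))
    (ρ : Mat m K →ₗ[K] Mat n K) (χ : Mat m K →ₗ[K] K) (φ : Fin n → Mat m K) : Prop where
  char : ∀ y ∈ g, ∀ z ∈ g, χ (y * z - z * y) = 0
  equi : ∀ y ∈ g, ∀ i, ∑ k, ρ y k i • φ k = y * φ i + φ i * y.transpose - χ y • φ i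

/-- `ι : K^p → H` is the inclusion of a subspace `H'` (`ι'` is a left inverse), stable under `g`
and carrying a representation `κ` of the centraliser of `J` in the even Clifford algebra, which is
compatible with `g`, gives the Hodge structure by `P = c(e f)`; elements of `g` which vanish on
`H'` act on `V` by multiples of `J`, and `H' ⊗ H'` contains the images of all equivariant maps
`V → H ⊗ H`. -/
structure IsUnitKS {K L : Type} [Field K] [Field L] [Algebra K L] {n m r p : ℕ} (d : Fin n → K)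
    (a : K) (J : Mat n K) (g : Submodule K (Mat m K)) (ρ : Mat m K →ₗ[K] Mat n K) (l : Fin r → L)
    (x : Fin r → Mat m K) (ι : Matrix (Fin m) (Fin p) K) (ι' : Matrix (Fin p) (Fin m) K)
    (κ : Fin n → Fin n → Mat p K) : Prop where
  pos : 0 < p
  inj : ι' * ι = 1
  cliff : IsUnitCliff d a J κ
  inv : ∀ y ∈ g, ∃ y' : Mat p K, y * ι = ι * y' ∧
    ∀ i j, y' * κ i j - κ i j * y' = ∑ k, (ρ y k i • κ k j + ρ y k j • κ i k)
  hodge : ∀ e f, IsHyp (fun i => algebraMap K L (d i)) e f →
    comb l (fun i => ρ (x i)) = rot (fun i => algebraMap K L (d i)) e f →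
    (2 : L) • (comb l x * ι.map (algebraMap K L))
      = ι.map (algebraMap K L) * ∑ i, ∑ j, (e i * f j) • (κ i j).map (algebraMap K L)
  faith : ∀ y ∈ g, y * ι = 0 → ∃ c : K, ρ y = c • J
  tensor : ∀ (χ : Mat m K →ₗ[K] K) (φ : Fin n → Mat m K), IsEquiv g ρ χ φ →
    ∀ i, ∃ ψ : Mat p K, φ i = ι * ψ * ι.transpose

end Pool.Agent.Helper36.UKS
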