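import Mathlib
import Pool.Agent.Helper36.UKS.Defs
import Pool.Agent.Helper9.KSMProof

/-!
The working context of the unitary case, and the bilinear maps over the large field.
-/

open scoped Matrix

namespace Pool.Agent.Helper36.UKS

open Pool.Agent.Helper9.KSM

variable {K L : Type} [Field K] [CharZero K] [Field L] [Algebra K L] {n m r : ℕ}

/-- the projection `x ↦ (x + s⁻¹ J x) / 2` onto the `s`-eigenspace `W` of `J` -/
noncomputable def pl (J : Mat n K) (s : L) : (Fin n → L) →ₗ[L] (Fin n → L) :=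
  (2 : L)⁻¹ • (LinearMap.id + s⁻¹ • (J.map (algebraMap K L)).mulVecLin)

/-- the projection `x ↦ (x - s⁻¹ J x) / 2` onto the `-s`-eigenspace `W'` of `J` -/
noncomputable def mi (J : Mat n K) (s : L) : (Fin n → L) →ₗ[L] (Fin n → L) :=
  (2 : L)⁻¹ • (LinearMap.id - s⁻¹ • (J.map (algebraMap K L)).mulVecLin)

/-- the pairing `b(x⁺, y⁻)` -/
noncomputable def bb (d : Fin n → K) (J : Mat n K) (s : L) :
    (Fin n → L) →ₗ[L] (Fin n → L) →ₗ[L] L :=
  (bil (fun i => algebraMap K L (d i))).compl₁₂ (pl J s) (mi J s)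

/-- `S(x, y) = T(x⁺, y⁻) / 2`, the lift of the rotation `x⁺ ∧ y⁻` -/
noncomputable def SS (J : Mat n K) (T : Fin n → Fin n → Mat m K) (s : L) :
    (Fin n → L) →ₗ[L] (Fin n → L) →ₗ[L] Mat m L :=
  (2 : L)⁻¹ • (sA L T).compl₁₂ (pl J s) (mi J s)

/-- `Z = P - T(e, f) / 2` -/
noncomputable def ZZ (T : Fin n → Fin n → Mat m K) (l : Fin r → L) (x : Fin r → Mat m K)
    (e f : Fin n → L) : Mat m L :=
  comb l x - (2 : L)⁻¹ • sA L T e f

/-- `β(x, y) = S(x, y) + b(x⁺, y⁻) Z` -/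
noncomputable def be (d : Fin n → K) (J : Mat n K) (T : Fin n → Fin n → Mat m K) (s : L)
    (Z : Mat m L) (x y : Fin n → L) : Mat m L :=
  SS J T s x y + bb d J s x y • Z

/-- The working context. `T i j` is the lift to the ideal `s ≅ u(V)` of `g` of the unitary
rotation `eᵢ ∧ eⱼ + a⁻¹ J eᵢ ∧ J eⱼ`. -/
structure UCtx (d : Fin n → K) (a : K) (J : Mat n K) (g : Submodule K (Mat m K))
    (ρ : Mat m K →ₗ[K] Mat n K) (T : Fin n → Fin n → Mat m K) (l : Fin r → L)
    (x : Fin r → Mat m K) (s : L) (e f : Fin n → L) : Prop where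
  hd : ∀ i, d i ≠ 0
  mult : IsMult d a J
  s2 : s * s = - algebraMap K L a
  lie : LieClosed g
  hom : IsLieHom g ρ
  skew : ∀ y ∈ g, IsSkew d (ρ y)
  alg : ∀ y ∈ g, ρ y * J = J * ρ y
  memT : ∀ i j, T i j ∈ g
  rhoT : ∀ i j, ρ (T i j)
    = rot d (bv K i) (bv K j) + a⁻¹ • rot d (J *ᵥ bv K i) (J *ᵥ bv K j)
  anti : ∀ i j, T j i = - T i j
  jj : ∀ i j, ∑ k, ∑ l, (J k i * J l j) • T k l = a • T i j
  equi : ∀ y ∈ g, ∀ i j, y * T i j - T i j * y = ∑ k, (ρ y k i • T k j + ρ y k j • T i k)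
  split : ∀ y ∈ g, ∃ c : Fin n → Fin n → K, ∀ i j,
    (y - ∑ k, ∑ l, c k l • T k l) * T i j = T i j * (y - ∑ k, ∑ l, c k l • T k l)
  memx : ∀ i, x i ∈ g
  idem : comb l x * comb l x = comb l x
  hyp : IsHyp (fun i => algebraMap K L (d i)) e f
  type : comb l (fun i => ρ (x i)) = rot (fun i => algebraMap K L (d i)) e f
  Je : J.map (algebraMap K L) *ᵥ e = s • e
  Jf : J.map (algebraMap K L) *ᵥ f = -(s • f)

/-- The data split off by the projector `E`: on the image of `E` the operator `s⁻¹ (2 Z - 1)` is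
the `K`-rational matrix `D`, and on the image of `1 - E` the unitary lifts act through the
central matrix `τ`. -/
structure ECtx (d : Fin n → K) (a : K) (J : Mat n K) (g : Submodule K (Mat m K))
    (T : Fin n → Fin n → Mat m K) (s : L) (Z : Mat m L) (E D τ : Mat m K) : Prop where
  idem : E * E = E
  comm : ∀ y ∈ g, y * E = E * y
  ne : E ≠ 0
  commD : ∀ y ∈ g, y * D = D * y
  DE : D * E = D
  ED : E * D = D
  ratl : s⁻¹ • (((2 : L) • Z - 1) * E.map (algebraMap K L)) = D.map (algebraMap K L)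
  commτ : ∀ y ∈ g, y * τ = τ * y
  Eτ : E * τ = 0
  τE : τ * E = 0
  low : ∀ i j, T i j * (1 - E) = (-(2 * a⁻¹ * bil d (J *ᵥ bv K i) (bv K j))) • τ

end Pool.Agent.Helper36.UKS
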