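import Mathlib
import Pool.Agent.Helper36.UKS.Ctx

/-!
Module B: `u(V)` is a maximal subalgebra of `so(V)`, and `J` commutes with `ρ(g)`.
-/

open scoped Matrix

namespace Pool.Agent.Helper36.UKS

open Pool.Agent.Helper9.KSM

section Aux

variable {A : Type} [Field A] {n : ℕ} {d : Fin n → A}

theorem algB_bil_skew {Y : Mat n A} (hY : IsSkew d Y) (x y : Fin n → A) :
    bil d (Y *ᵥ x) y + bil d x (Y *ᵥ y) = 0 := by
  simp only [bil_apply, Matrix.mulVec, dotProduct, Finset.mul_sum, Finset.sum_mul]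
  have h2 : ∑ i, ∑ j, d i * x i * (Y i j * y j) = ∑ i, ∑ j, d j * x j * (Y j i * y i) :=
    Finset.sum_comm
  rw [h2, ← Finset.sum_add_distrib]
  refine Finset.sum_eq_zero fun i _ => ?_
  rw [← Finset.sum_add_distrib]
  refine Finset.sum_eq_zero fun j _ => ?_
  linear_combination (x j * y i) * hY i j

theorem algB_bil_symm (x y : Fin n → A) : bil d x y = bil d y x := by
  simp only [bil_apply]
  exact Finset.sum_congr rfl fun i _ => by ring

theorem algB_rot_smul_left (c : A) (x y : Fin n → A) : rot d (c • x) y = c • rot d x y := by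
  have h := congrArg (fun F : (Fin n → A) →ₗ[A] Mat n A => F y) ((rotL d).map_smul c x)
  exact h

theorem algB_rot_smul_right (c : A) (x y : Fin n → A) : rot d x (c • y) = c • rot d x y :=
  (rotL d x).map_smul c y

theorem algB_rot_neg_left (x y : Fin n → A) : rot d (-x) y = - rot d x y := by
  have := algB_rot_smul_left (d := d) (-1) x y
  simpa using this

theorem algB_rot_neg_right (x y : Fin n → A) : rot d x (-y) = - rot d x y := by
  have := algB_rot_smul_right (d := d) (-1) x y
  simpa using this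

theorem algB_rot_add_left (x x' y : Fin n → A) : rot d (x + x') y = rot d x y + rot d x' y := by
  have h := congrArg (fun F : (Fin n → A) →ₗ[A] Mat n A => F y) ((rotL d).map_add x x')
  exact h

theorem algB_rot_sub_left (x x' y : Fin n → A) : rot d (x - x') y = rot d x y - rot d x' y := by
  have h := congrArg (fun F : (Fin n → A) →ₗ[A] Mat n A => F y) ((rotL d).map_sub x x')
  exact h

end Aux

section Rational

variable {K : Type} [Field K] [CharZero K] {n : ℕ} {d : Fin n → K} {a : K} {J : Mat n K}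

/-- skew matrices are combinations of rotations -/
theorem algB_skew_eq (hd : ∀ i, d i ≠ 0) {Y : Mat n K} (hY : IsSkew d Y) :
    Y = ∑ i, ∑ j, (Y i j / (2 * d j)) • rot d (bv K i) (bv K j) := by
  ext k l
  simp only [Matrix.sum_apply, Matrix.smul_apply, smul_eq_mul, rot, Matrix.of_apply, bv,
    Pi.single_apply]
  have h1 : ∀ i j, Y i j / (2 * d j) * (((if k = i then 1 else 0) * (if l = j then 1 else 0)
      - (if k = j then 1 else 0) * (if l = i then 1 else 0)) * d l)
      = (if k = i then (if l = j then Y i j / (2 * d j) * d l else 0) else 0)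
        - (if k = j then (if l = i then Y i j / (2 * d j) * d l else 0) else 0) := by
    intro i j
    split_ifs <;> ring
  simp only [h1, Finset.sum_sub_distrib]
  simp only [Finset.sum_ite_eq, Finset.mem_univ, if_true]
  have h2 : ∑ i, (if k = i then ∑ j, (if l = j then Y i j / (2 * d j) * d l else 0) else 0)
      = Y k l / (2 * d l) * d l := by simp
  have h3 : (∑ i, ∑ j, (if k = i then (if l = j then Y i j / (2 * d j) * d l else 0) else 0))
      = Y k l / (2 * d l) * d l := by
    rw [← h2]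
    refine Finset.sum_congr rfl fun i _ => ?_
    by_cases hk : k = i <;> simp [hk]
  rw [h3]
  have h := hY k l
  have hdl := hd l
  have hdk := hd k
  have h20 : (2 : K) ≠ 0 := two_ne_zero
  field_simp
  linear_combination h

omit [CharZero K] in
theorem algB_skew_smul {Y : Mat n K} (c : K) (hY : IsSkew d Y) : IsSkew d (c • Y) := by
  intro i j
  simp only [Matrix.smul_apply, smul_eq_mul]
  linear_combination c * hY i j

omit [CharZero K] in
theorem algB_skew_add {Y Y' : Mat n K} (hY : IsSkew d Y) (hY' : IsSkew d Y') :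
    IsSkew d (Y + Y') := by
  intro i j
  simp only [Matrix.add_apply]
  linear_combination hY i j + hY' i j

omit [CharZero K] in
theorem algB_skew_conj {Y : Mat n K} (hJ : IsSkew d J) (hY : IsSkew d Y) :
    IsSkew d (J * Y * J) := by
  intro i j
  simp only [Matrix.mul_apply, Finset.mul_sum, Finset.sum_mul]
  have h1 : ∑ k, ∑ l, d j * (J j l * Y l k * J k i) = ∑ k, ∑ l, d j * (J j k * Y k l * J l i) :=
    Finset.sum_comm
  rw [h1, ← Finset.sum_add_distrib]
  refine Finset.sum_eq_zero fun k _ => ?_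
  rw [← Finset.sum_add_distrib]
  refine Finset.sum_eq_zero fun l _ => ?_
  have e1 := hJ i l
  have e2 := hY l k
  have e3 := hJ k j
  linear_combination (Y l k * J k j) * e1 - (J l i * J k j) * e2 + (J l i * Y k l) * e3

omit [CharZero K] in
theorem algB_a_ne (hJ : IsMult d a J) : a ≠ 0 := by
  intro h
  apply hJ.nonsq
  rw [h, neg_zero]
  exact ⟨0, by simp⟩

omit [CharZero K] in
theorem algB_JJ (hJ : IsMult d a J) (x : Fin n → K) : J *ᵥ (J *ᵥ x) = -(a • x) := by
  rw [Matrix.mulVec_mulVec, hJ.sq, Matrix.neg_mulVec, Matrix.smul_mulVec, Matrix.one_mulVec]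

/-- Module B1: the unitary Lie algebra is maximal in the orthogonal Lie algebra. -/
theorem maximal {K : Type} [Field K] [CharZero K] {n : ℕ} {d : Fin n → K} (hd : ∀ i, d i ≠ 0)
    {a : K} {J : Mat n K} (hJ : IsMult d a J) (h : Submodule K (Mat n K))
    (hlie : ∀ Y ∈ h, ∀ Y' ∈ h, Y * Y' - Y' * Y ∈ h) (hskew : ∀ Y ∈ h, IsSkew d Y)
    (hu : ∀ Y, IsSkew d Y → Y * J = J * Y → Y ∈ h) {Y : Mat n K} (hY : Y ∈ h)
    (hYJ : Y * J ≠ J * Y) (Y' : Mat n K) (hY' : IsSkew d Y') : Y' ∈ h := by
  have ha := algB_a_ne hJ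
  have h2 : (2 : K) ≠ 0 := two_ne_zero
  have hJJ := algB_JJ hJ
  have hsk := hJ.skew
  have hJh : J ∈ h := hu J hsk rfl
  -- the rotations `X` and `Q`
  set Q : (Fin n → K) → (Fin n → K) → Mat n K :=
    fun x y => rot d x y - a⁻¹ • rot d (J *ᵥ x) (J *ᵥ y) with hQ
  set X : (Fin n → K) → (Fin n → K) → Mat n K :=
    fun x y => rot d x y + a⁻¹ • rot d (J *ᵥ x) (J *ᵥ y) with hX
  have hXh : ∀ x y, X x y ∈ h := by
    intro x y
    apply hu
    · exact algB_skew_add (rot_skew d x y) (algB_skew_smul _ (rot_skew d _ _))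
    · have e1 := rot_comm hsk x y
      have e2 := rot_comm hsk (J *ᵥ x) (J *ᵥ y)
      rw [hJJ, hJJ, algB_rot_neg_left, algB_rot_neg_right, algB_rot_smul_left,
        algB_rot_smul_right] at e2
      have e3 : J * X x y - X x y * J = 0 := by
        have : J * X x y - X x y * J = (J * rot d x y - rot d x y * J)
            + a⁻¹ • (J * rot d (J *ᵥ x) (J *ᵥ y) - rot d (J *ᵥ x) (J *ᵥ y) * J) := by
          simp only [hX, mul_add, add_mul, mul_smul_comm, smul_mul_assoc, smul_sub]
          abel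
        rw [this, e1, e2, smul_add, smul_neg, smul_neg, smul_smul, smul_smul,
          inv_mul_cancel₀ ha, one_smul, one_smul]
        abel
      exact (sub_eq_zero.mp e3).symm
  -- the element `M` anticommuting with `J`
  set M : Mat n K := Y + a⁻¹ • (J * Y * J) with hM
  have hYs := hskew Y hY
  have hMh : M ∈ h := by
    have h1 : Y + (-a⁻¹) • (J * Y * J) ∈ h := by
      apply hu
      · exact algB_skew_add hYs (algB_skew_smul _ (algB_skew_conj hsk hYs))
      · have e1 : J * Y * J * J = -(a • (J * Y)) := by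
          rw [mul_assoc (J * Y), hJ.sq]
          simp
        have e2 : J * (J * Y * J) = -(a • (Y * J)) := by
          rw [← mul_assoc, ← mul_assoc, hJ.sq]
          simp
        rw [add_mul, mul_add, smul_mul_assoc, mul_smul_comm, e1, e2, smul_neg, smul_neg,
          smul_smul, smul_smul]
        have : -a⁻¹ * a = -1 := by field_simp
        rw [this]
        simp [add_comm]
    have h3 : M = (2 : K) • Y - (Y + (-a⁻¹) • (J * Y * J)) := by
      rw [hM, two_smul, neg_smul]
      abel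
    rw [h3]
    exact h.sub_mem (h.smul_mem _ hY) h1
  have hMs := hskew M hMh
  have hMJ : M * J = -(J * M) := by
    have e1 : J * Y * J * J = -(a • (J * Y)) := by
      rw [mul_assoc (J * Y), hJ.sq]
      simp
    have e2 : J * (J * Y * J) = -(a • (Y * J)) := by
      rw [← mul_assoc, ← mul_assoc, hJ.sq]
      simp
    rw [hM, add_mul, mul_add, smul_mul_assoc, mul_smul_comm, e1, e2, smul_neg, smul_neg,
      smul_smul, smul_smul, inv_mul_cancel₀ ha]
    simp
  have hMJv : ∀ x, M *ᵥ (J *ᵥ x) = -(J *ᵥ (M *ᵥ x)) := by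
    intro x
    rw [Matrix.mulVec_mulVec, hMJ, Matrix.neg_mulVec, Matrix.mulVec_mulVec]
  have hM0 : M ≠ 0 := by
    intro h0
    apply hYJ
    have e2 : J * (J * Y * J) = -(a • (Y * J)) := by
      rw [← mul_assoc, ← mul_assoc, hJ.sq]
      simp
    have e3 : J * M = 0 := by rw [h0, mul_zero]
    rw [hM, mul_add, mul_smul_comm, e2, smul_neg, smul_smul, inv_mul_cancel₀ ha, one_smul,
      ← sub_eq_add_neg, sub_eq_zero] at e3
    exact e3.symm
  have hQJ : ∀ x y, Q x (J *ᵥ y) = Q (J *ᵥ x) y := by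
    intro x y
    simp only [hQ]
    rw [hJJ, hJJ, algB_rot_neg_left, algB_rot_neg_right, algB_rot_smul_left,
        algB_rot_smul_right, smul_neg, smul_neg, smul_smul, smul_smul, inv_mul_cancel₀ ha,
        one_smul, one_smul]
    abel
  have hQsl : ∀ (c : K) x y, Q (c • x) y = c • Q x y := by
    intro c x y
    simp only [hQ]
    rw [Matrix.mulVec_smul, algB_rot_smul_left, algB_rot_smul_left, smul_sub, smul_comm c]
  have hQal : ∀ x x' y, Q (x + x') y = Q x y + Q x' y := by
    intro x x' y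
    simp only [hQ]
    rw [Matrix.mulVec_add, algB_rot_add_left, algB_rot_add_left, smul_add]
    abel
  have hJQ : ∀ x y, J * Q x y - Q x y * J = (2 : K) • Q (J *ᵥ x) y := by
    intro x y
    have e1 := rot_comm hsk x y
    have e2 := rot_comm hsk (J *ᵥ x) (J *ᵥ y)
    rw [hJJ, hJJ, algB_rot_neg_left, algB_rot_neg_right, algB_rot_smul_left,
      algB_rot_smul_right] at e2
    have e3 : J * Q x y - Q x y * J = (J * rot d x y - rot d x y * J)
        - a⁻¹ • (J * rot d (J *ᵥ x) (J *ᵥ y) - rot d (J *ᵥ x) (J *ᵥ y) * J) := by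
      simp only [hQ, mul_sub, sub_mul, mul_smul_comm, smul_mul_assoc, smul_sub]
      abel
    rw [e3, e1, e2]
    simp only [hQ]
    rw [hJJ, algB_rot_neg_left, algB_rot_smul_left, smul_add, smul_neg, smul_neg, smul_smul,
      smul_smul, inv_mul_cancel₀ ha, one_smul, one_smul, two_smul]
    abel
  -- commutator of `M` with `X`
  have hW : ∀ x y, Q (M *ᵥ x) y + Q x (M *ᵥ y) ∈ h := by
    intro x y
    have e0 := hlie M hMh _ (hXh x y)
    have e1 := rot_comm hMs x y
    have e2 := rot_comm hMs (J *ᵥ x) (J *ᵥ y)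
    rw [hMJv, hMJv, algB_rot_neg_left, algB_rot_neg_right] at e2
    have e3 : M * X x y - X x y * M = (M * rot d x y - rot d x y * M)
        + a⁻¹ • (M * rot d (J *ᵥ x) (J *ᵥ y) - rot d (J *ᵥ x) (J *ᵥ y) * M) := by
      simp only [hX, mul_add, add_mul, mul_smul_comm, smul_mul_assoc, smul_sub]
      abel
    rw [e3, e1, e2] at e0
    have e4 : Q (M *ᵥ x) y + Q x (M *ᵥ y)
        = rot d (M *ᵥ x) y + rot d x (M *ᵥ y)
          + a⁻¹ • (-rot d (J *ᵥ (M *ᵥ x)) (J *ᵥ y) + -rot d (J *ᵥ x) (J *ᵥ (M *ᵥ y))) := by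
      simp only [hQ, smul_add, smul_neg]
      abel
    rw [e4]
    exact e0
  have hQM : ∀ x y, Q (M *ᵥ x) y ∈ h := by
    intro x y
    have e1 : Q (J *ᵥ (M *ᵥ x)) y + Q (J *ᵥ x) (M *ᵥ y) ∈ h := by
      have e0 := hlie J hJh _ (hW x y)
      have e3 : J * (Q (M *ᵥ x) y + Q x (M *ᵥ y)) - (Q (M *ᵥ x) y + Q x (M *ᵥ y)) * J
          = (2 : K) • (Q (J *ᵥ (M *ᵥ x)) y + Q (J *ᵥ x) (M *ᵥ y)) := by
        rw [smul_add, ← hJQ, ← hJQ]
        noncomm_ring
      rw [e3] at e0
      have := h.smul_mem ((2 : K)⁻¹) e0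
      rwa [smul_smul, inv_mul_cancel₀ h2, one_smul] at this
    have e2 : Q (J *ᵥ (M *ᵥ x)) y - Q (J *ᵥ x) (M *ᵥ y) ∈ h := by
      have e0 := hW x (J *ᵥ y)
      rw [hMJv, hQJ] at e0
      have e5 : Q x (-(J *ᵥ (M *ᵥ y))) = - Q (J *ᵥ x) (M *ᵥ y) := by
        rw [← hQJ]
        simp only [hQ]
        rw [Matrix.mulVec_neg, algB_rot_neg_right, algB_rot_neg_right, smul_neg]
        abel
      rw [e5, ← sub_eq_add_neg] at e0
      exact e0
    have e3 : Q (J *ᵥ (M *ᵥ x)) y ∈ h := by
      have := h.smul_mem ((2 : K)⁻¹) (h.add_mem e1 e2)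
      have e4 : (Q (J *ᵥ (M *ᵥ x)) y + Q (J *ᵥ x) (M *ᵥ y))
          + (Q (J *ᵥ (M *ᵥ x)) y - Q (J *ᵥ x) (M *ᵥ y)) = (2 : K) • Q (J *ᵥ (M *ᵥ x)) y := by
        rw [two_smul]; abel
      rwa [e4, smul_smul, inv_mul_cancel₀ h2, one_smul] at this
    have e4 := hlie J hJh _ e3
    rw [hJQ, hJJ] at e4
    have e5 : (2 : K) • Q (-(a • (M *ᵥ x))) y = (-(2 * a)) • Q (M *ᵥ x) y := by
      rw [← neg_smul, hQsl, smul_smul]
      congr 1
      ring
    rw [e5] at e4
    have := h.smul_mem ((-(2 * a))⁻¹) e4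
    rwa [smul_smul, inv_mul_cancel₀ (neg_ne_zero.mpr (mul_ne_zero h2 ha)), one_smul] at this
  -- a nonzero vector `z`
  obtain ⟨x0, hx0⟩ : ∃ x0, M *ᵥ x0 ≠ 0 := by
    by_contra hcon
    push Not at hcon
    apply hM0
    apply Matrix.ext_of_mulVec_single
    intro i
    rw [hcon]
    simp only [Matrix.zero_mulVec]
  set z : Fin n → K := M *ᵥ x0 with hz
  have hzQ : ∀ y, Q z y ∈ h := fun y => hQM x0 y
  -- stability under `X`
  have hstab : ∀ v t w, (∀ y, Q w y ∈ h) → ∀ y, Q (X v t *ᵥ w) y ∈ h := by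
    intro v t w hw y
    have hXs : IsSkew d (X v t) := hskew _ (hXh v t)
    have hXJ : J * X v t = X v t * J := by
      have e1 := rot_comm hsk v t
      have e2 := rot_comm hsk (J *ᵥ v) (J *ᵥ t)
      rw [hJJ, hJJ, algB_rot_neg_left, algB_rot_neg_right, algB_rot_smul_left,
        algB_rot_smul_right] at e2
      have e3 : J * X v t - X v t * J = 0 := by
        have : J * X v t - X v t * J = (J * rot d v t - rot d v t * J)
            + a⁻¹ • (J * rot d (J *ᵥ v) (J *ᵥ t) - rot d (J *ᵥ v) (J *ᵥ t) * J) := by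
          simp only [hX, mul_add, add_mul, mul_smul_comm, smul_mul_assoc, smul_sub]
          abel
        rw [this, e1, e2, smul_add, smul_neg, smul_neg, smul_smul, smul_smul,
          inv_mul_cancel₀ ha, one_smul, one_smul]
        abel
      exact sub_eq_zero.mp e3
    have hXJv : ∀ x, X v t *ᵥ (J *ᵥ x) = J *ᵥ (X v t *ᵥ x) := by
      intro x
      rw [Matrix.mulVec_mulVec, ← hXJ, Matrix.mulVec_mulVec]
    have e0 := hlie _ (hXh v t) _ (hw y)
    have e1 := rot_comm hXs w y
    have e2 := rot_comm hXs (J *ᵥ w) (J *ᵥ y)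
    rw [hXJv, hXJv] at e2
    have e3 : X v t * Q w y - Q w y * X v t = (X v t * rot d w y - rot d w y * X v t)
        - a⁻¹ • (X v t * rot d (J *ᵥ w) (J *ᵥ y) - rot d (J *ᵥ w) (J *ᵥ y) * X v t) := by
      simp only [hQ, mul_sub, sub_mul, mul_smul_comm, smul_mul_assoc, smul_sub]
      abel
    rw [e3, e1, e2] at e0
    have e4 : rot d (X v t *ᵥ w) y + rot d w (X v t *ᵥ y)
          - a⁻¹ • (rot d (J *ᵥ (X v t *ᵥ w)) (J *ᵥ y) + rot d (J *ᵥ w) (J *ᵥ (X v t *ᵥ y)))
        = Q (X v t *ᵥ w) y + Q w (X v t *ᵥ y) := by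
      simp only [hQ, smul_add]
      abel
    rw [e4] at e0
    have := h.sub_mem e0 (hw (X v t *ᵥ y))
    rwa [add_sub_cancel_right] at this
  have hXz : ∀ v t w, X v t *ᵥ w = bil d t w • v - bil d v w • t
      + a⁻¹ • (bil d (J *ᵥ t) w • (J *ᵥ v) - bil d (J *ᵥ v) w • (J *ᵥ t)) := by
    intro v t w
    simp only [hX]
    rw [Matrix.add_mulVec, Matrix.smul_mulVec, rot_mulVec, rot_mulVec]
    rfl
  -- the vector `t`
  obtain ⟨i, hi⟩ : ∃ i, z i ≠ 0 := by
    by_contra hcon
    push Not at hcon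
    exact hx0 (funext hcon)
  obtain ⟨t, ht1, ht2⟩ : ∃ t, bil d t z = 1 ∧ bil d (J *ᵥ t) z = 0 := by
    set u := bv K i with hu'
    set α := bil d u z with hα
    set β := bil d (J *ᵥ u) z with hβ
    have hα0 : α ≠ 0 := by
      have : α = d i * z i := by
        rw [hα, bil_apply]
        simp [hu', bv, Pi.single_apply]
      rw [this]
      exact mul_ne_zero (hd i) hi
    have hc : a * α * α + β * β ≠ 0 := by
      intro h0
      apply hJ.nonsq
      refine ⟨β / α, ?_⟩
      field_simp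
      linear_combination -h0
    refine ⟨(a * α * α + β * β)⁻¹ • ((a * α) • u + β • (J *ᵥ u)), ?_, ?_⟩
    · rw [map_smul, map_add, map_smul, map_smul]
      simp only [LinearMap.smul_apply, LinearMap.add_apply, smul_eq_mul]
      rw [← hα, ← hβ, inv_mul_eq_div, div_eq_one_iff_eq hc]
    · rw [Matrix.mulVec_smul, Matrix.mulVec_add, Matrix.mulVec_smul, Matrix.mulVec_smul, hJJ,
        map_smul, map_add, map_smul, map_smul, map_neg, map_smul]
      simp only [LinearMap.smul_apply, LinearMap.add_apply, LinearMap.neg_apply, smul_eq_mul]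
      rw [← hα, ← hβ]
      ring
  have hJt : ∀ y, Q (J *ᵥ t) y ∈ h := by
    intro y
    have e0 := hstab (J *ᵥ t) t z hzQ y
    have e1 : X (J *ᵥ t) t *ᵥ z = (2 : K) • (J *ᵥ t) := by
      rw [hXz, ht1, ht2, hJJ, map_neg, map_smul, LinearMap.neg_apply, LinearMap.smul_apply, ht1,
        zero_smul, zero_smul, smul_eq_mul, mul_one, sub_zero, zero_sub, ← neg_smul, neg_neg,
        smul_smul, inv_mul_cancel₀ ha, one_smul, two_smul]
    rw [e1, hQsl] at e0
    have := h.smul_mem ((2 : K)⁻¹) e0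
    rwa [smul_smul, inv_mul_cancel₀ h2, one_smul] at this
  have ht : ∀ y, Q t y ∈ h := by
    intro y
    have e0 := hJt (J *ᵥ y)
    rw [hQJ, hJJ, ← neg_smul, hQsl] at e0
    have := h.smul_mem ((-a)⁻¹) e0
    rwa [smul_smul, inv_mul_cancel₀ (neg_ne_zero.mpr ha), one_smul] at this
  have hall : ∀ v y, Q v y ∈ h := by
    intro v y
    have e0 := hstab v t z hzQ y
    rw [hXz, ht1, ht2, one_smul, zero_smul, zero_sub, smul_neg] at e0
    have e1 : v = (v - bil d v z • t + -(a⁻¹ • (bil d (J *ᵥ v) z • (J *ᵥ t))))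
        + (bil d v z • t + (a⁻¹ * bil d (J *ᵥ v) z) • (J *ᵥ t)) := by
      rw [← smul_smul]
      abel
    have e2 : Q (bil d v z • t + (a⁻¹ * bil d (J *ᵥ v) z) • (J *ᵥ t)) y ∈ h := by
      rw [hQal, hQsl, hQsl]
      exact h.add_mem (h.smul_mem _ (ht y)) (h.smul_mem _ (hJt y))
    have e3 := h.add_mem e0 e2
    rwa [← hQal, ← e1] at e3
  have hrot : ∀ x y, rot d x y ∈ h := by
    intro x y
    have e1 : rot d x y = (2 : K)⁻¹ • (X x y + Q x y) := by
      have : X x y + Q x y = (2 : K) • rot d x y := by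
        simp only [hX, hQ, two_smul]
        abel
      rw [this, smul_smul, inv_mul_cancel₀ h2, one_smul]
    rw [e1]
    exact h.smul_mem _ (h.add_mem (hXh x y) (hall x y))
  rw [algB_skew_eq hd hY']
  exact h.sum_mem fun i _ => h.sum_mem fun j _ => h.smul_mem _ (hrot _ _)

/-- Module B2: the endomorphism `J` commutes with the motivic Lie algebra. -/
theorem algebraic {K L : Type} [Field K] [CharZero K] [Field L] [Algebra K L] {n m r : ℕ}
    (h3 : 3 ≤ n) {d : Fin n → K} (hd : ∀ i, d i ≠ 0) {a : K} {J : Mat n K} (hJ : IsMult d a J)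
    {g : Submodule K (Mat m K)} {ρ : Mat m K →ₗ[K] Mat n K} {l : Fin r → L}
    {x : Fin r → Mat m K} (hg : IsUnitRep d J g ρ) (hP : IsHodgeProj d g ρ l x)
    (hJP : IsHodgeEnd J ρ l x) (hE : EndCond g l x) : ∀ y ∈ g, ρ y * J = J * ρ y := by
  by_contra hcon
  push Not at hcon
  obtain ⟨y0, hy0, hy0J⟩ := hcon
  have h2 : (2 : K) ≠ 0 := two_ne_zero
  -- `g` maps onto all skew matrices
  have honto : ∀ Y, IsSkew d Y → ∃ y ∈ g, ρ y = Y := by
    intro Y hY
    have h1 : Y ∈ g.map ρ := by
      refine maximal hd hJ (g.map ρ) ?_ ?_ ?_ (Submodule.mem_map_of_mem hy0) hy0J Y hY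
      · rintro _ ⟨u, hu, rfl⟩ _ ⟨v, hv, rfl⟩
        exact ⟨u * v - v * u, hg.lie u hu v hv, hg.hom u hu v hv⟩
      · rintro _ ⟨u, hu, rfl⟩
        exact hg.skew u hu
      · intro Z hZ hZJ
        obtain ⟨u, hu, rfl⟩ := hg.onto Z hZ hZJ
        exact ⟨u, hu, rfl⟩
    obtain ⟨u, hu, rfl⟩ := h1
    exact ⟨u, hu, rfl⟩
  have hrep : IsOrthRep d g ρ := ⟨hg.lie, hg.hom, ⟨hg.skew, honto⟩, hg.compl⟩
  obtain ⟨E, κ, hκ⟩ := Pool.Agent.Helper9.KSM.main hd h3 hrep hP
  -- the lift `t` of `J`
  have hJii : ∀ i, J i i = 0 := by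
    intro i
    have h := hJ.skew i i
    have h1 : (2 * d i) * J i i = 0 := by linear_combination h
    exact (mul_eq_zero.mp h1).resolve_left (mul_ne_zero h2 (hd i))
  set t : Mat m K := ∑ i, ∑ j, (J i j / (2 * d j)) • κ i j with ht
  have htg : t ∈ g := by
    refine g.sum_mem fun i _ => g.sum_mem fun j _ => ?_
    by_cases hij : i = j
    · rw [hij, hJii, zero_div, zero_smul]
      exact g.zero_mem
    · exact g.smul_mem _ (hκ.lift i j hij).1
  have hρt : ρ t = J := by
    rw [ht, map_sum]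
    conv_rhs => rw [algB_skew_eq hd hJ.skew]
    refine Finset.sum_congr rfl fun i _ => ?_
    rw [map_sum]
    refine Finset.sum_congr rfl fun j _ => ?_
    rw [map_smul]
    by_cases hij : i = j
    · rw [hij, hJii, zero_div, zero_smul, zero_smul]
    · rw [(hκ.lift i j hij).2]
      rfl
  have hEt : E * t = t := by
    rw [ht, Finset.mul_sum]
    refine Finset.sum_congr rfl fun i _ => ?_
    rw [Finset.mul_sum]
    refine Finset.sum_congr rfl fun j _ => ?_
    rw [mul_smul_comm, (hκ.cliff.unit i j).1]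
  have htE : t * E = t := by
    rw [ht, Finset.sum_mul]
    refine Finset.sum_congr rfl fun i _ => ?_
    rw [Finset.sum_mul]
    refine Finset.sum_congr rfl fun j _ => ?_
    rw [smul_mul_assoc, (hκ.cliff.unit i j).2]
  obtain ⟨e, f, hh, hty⟩ := hP.type
  -- `J e = s e`, `J f = - s f`
  set dL : Fin n → L := fun i => algebraMap K L (d i) with hdL
  set JL : Mat n L := J.map (algebraMap K L) with hJL
  have hJLs : IsSkew dL JL := by
    intro i j
    simp only [hdL, hJL, Matrix.map_apply]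
    rw [← map_mul, ← map_mul, ← map_add, hJ.skew i j, map_zero]
  have hcomm : JL * rot dL e f - rot dL e f * JL = 0 := by
    have h := hJP
    rw [IsHodgeEnd, hty] at h
    rw [sub_eq_zero]
    exact h
  rw [rot_comm hJLs] at hcomm
  have hbef : bil dL e f = 1 := hh.2.2
  have hbee : bil dL e e = 0 := hh.1
  have hbff : bil dL f f = 0 := hh.2.1
  have h2L : (2 : L) ≠ 0 := by
    have := (map_ne_zero (algebraMap K L)).mpr h2
    rwa [map_ofNat] at this
  have hbJe : bil dL (JL *ᵥ e) e = 0 := by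
    have h := algB_bil_skew hJLs e e
    rw [algB_bil_symm e] at h
    have h1 : (2 : L) * bil dL (JL *ᵥ e) e = 0 := by linear_combination h
    exact (mul_eq_zero.mp h1).resolve_left h2L
  have hbJf : bil dL (JL *ᵥ f) f = 0 := by
    have h := algB_bil_skew hJLs f f
    rw [algB_bil_symm f] at h
    have h1 : (2 : L) * bil dL (JL *ᵥ f) f = 0 := by linear_combination h
    exact (mul_eq_zero.mp h1).resolve_left h2L
  have hJe : JL *ᵥ e = (-(bil dL (JL *ᵥ f) e)) • e := by
    have h := congrArg (fun N : Mat n L => N *ᵥ e) hcomm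
    simp only [Matrix.add_mulVec, Matrix.zero_mulVec, rot_mulVec] at h
    simp only [Pool.Agent.Helper9.KS.rotV] at h
    rw [algB_bil_symm f e, hbef, hbJe, hbee, one_smul, zero_smul, zero_smul, sub_zero,
      sub_zero] at h
    rw [neg_smul]
    exact eq_neg_of_add_eq_zero_left h
  have hJf : JL *ᵥ f = (-(bil dL (JL *ᵥ e) f)) • f := by
    have h := congrArg (fun N : Mat n L => N *ᵥ f) hcomm
    simp only [Matrix.add_mulVec, Matrix.zero_mulVec, rot_mulVec] at h
    simp only [Pool.Agent.Helper9.KS.rotV] at h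
    rw [hbff, hbJf, hbef, zero_smul, zero_smul, one_smul, zero_sub, zero_sub] at h
    rw [neg_smul]
    have h1 : -(bil dL (JL *ᵥ e) f • f) + -(JL *ᵥ f) = 0 := h
    have h4 := neg_eq_of_add_eq_zero_right h1
    rw [neg_neg] at h4
    rw [← neg_eq_iff_eq_neg, ← h4]
  have hs : bil dL (JL *ᵥ e) f = -(bil dL (JL *ᵥ f) e) := by
    have h := algB_bil_skew hJLs e f
    rw [algB_bil_symm e] at h
    exact eq_neg_of_add_eq_zero_left h
  have hkey : t.map (algebraMap K L) * sA L κ e f - sA L κ e f * t.map (algebraMap K L) = 0 := by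
    rw [act1 (Y := J) (fun i j => ?_) e f]
    · obtain ⟨s', h1, h4⟩ : ∃ s' : L, JL *ᵥ e = s' • e ∧ JL *ᵥ f = (-s') • f :=
        ⟨_, hJe, hJf.trans (by rw [hs])⟩
      rw [← hJL, h1, h4, map_smul, map_smul, LinearMap.smul_apply, neg_smul, add_neg_cancel]
    · have h := ((hκ.lie t htg).2 i j)
      rw [hρt] at h
      exact h
  have hPE : comb l x * E.map (algebraMap K L) = sA L κ e f := hκ.hodge e f hh hty
  have hEP : E.map (algebraMap K L) * comb l x = comb l x * E.map (algebraMap K L) := by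
    rw [comb, Finset.mul_sum, Finset.sum_mul]
    refine Finset.sum_congr rfl fun i _ => ?_
    rw [mul_smul_comm, smul_mul_assoc, ← map_mul', ← map_mul', (hκ.lie (x i) (hP.mem i)).1]
  have htP : t.map (algebraMap K L) * comb l x = comb l x * t.map (algebraMap K L) := by
    have e1 : t.map (algebraMap K L) = t.map (algebraMap K L) * E.map (algebraMap K L) := by
      rw [← map_mul', htE]
    have e2 : t.map (algebraMap K L) = E.map (algebraMap K L) * t.map (algebraMap K L) := by
      rw [← map_mul', hEt]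
    calc t.map (algebraMap K L) * comb l x
        = t.map (algebraMap K L) * (E.map (algebraMap K L) * comb l x) := by
          rw [← mul_assoc, ← e1]
      _ = t.map (algebraMap K L) * sA L κ e f := by rw [hEP, hPE]
      _ = sA L κ e f * t.map (algebraMap K L) := sub_eq_zero.mp hkey
      _ = comb l x * (E.map (algebraMap K L) * t.map (algebraMap K L)) := by
          rw [← hPE, mul_assoc]
      _ = _ := by rw [← e2]
  have hcent := hE t htP y0 hy0
  apply hy0J
  have h := hg.hom t htg y0 hy0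
  rw [hcent, sub_self, map_zero, hρt] at h
  exact (sub_eq_zero.mp h.symm).symm

end Rational

end Pool.Agent.Helper36.UKS
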