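import Mathlib

/-!
The abstract fermionic computation: `S w w'` is the action of the rank one matrix `w ⊗ w'` of
`gl(W)`, `Z` commutes with all `S w w'` and `S e f + Z` is idempotent. Then
`β w w' = S w w' + b(w, w') Z` satisfies the relations of the products (creation)(annihilation).
-/

namespace Pool.Agent.Helper36.UKS

universe u v w

variable {L : Type u} {V : Type v} {R : Type w} [Field L] [AddCommGroup V] [Module L V]
  [Ring R] [Algebra L R]

/-- the standing hypotheses -/
structure FCtx (b : V →ₗ[L] V →ₗ[L] L) (S : V →ₗ[L] V →ₗ[L] R) (e f : V) (Z : R) : Prop where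
  two : (2 : L) ≠ 0
  comm : ∀ w w' y y', S w w' * S y y' - S y y' * S w w' = b y w' • S w y' - b w y' • S y w'
  ZS : ∀ w w', Z * S w w' = S w w' * Z
  ef : b e f = 1
  idem : (S e f + Z) * (S e f + Z) = S e f + Z

/-- `β w w' = S w w' + b(w, w') Z` as a bilinear map -/
def fbe (b : V →ₗ[L] V →ₗ[L] L) (S : V →ₗ[L] V →ₗ[L] R) (Z : R) : V →ₗ[L] V →ₗ[L] R :=
  S + b.compr₂ ((LinearMap.id : L →ₗ[L] L).smulRight Z)

theorem fbe_apply (b : V →ₗ[L] V →ₗ[L] L) (S : V →ₗ[L] V →ₗ[L] R) (Z : R) (w w' : V) :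
    fbe b S Z w w' = S w w' + b w w' • Z := by
  simp [fbe]

/-- the defect -/
def fpsi (b : V →ₗ[L] V →ₗ[L] L) (S : V →ₗ[L] V →ₗ[L] R) (Z : R) (w y w' y' : V) : R :=
  fbe b S Z w w' * fbe b S Z y y' + fbe b S Z w y' * fbe b S Z y w'
    - b y w' • fbe b S Z w y' - b y y' • fbe b S Z w w'

namespace FCtx

variable {b : V →ₗ[L] V →ₗ[L] L} {S : V →ₗ[L] V →ₗ[L] R} {e f : V} {Z : R}

theorem half (C : FCtx b S e f Z) {t : R} (h : t + t = 0) : t = 0 := by
  have h2 : (2 : L) • t = 0 := by rw [two_smul]; exact h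
  exact (smul_eq_zero_iff_right C.two).mp h2

theorem commbe (C : FCtx b S e f Z) (v v' w w' : V) :
    S v v' * fbe b S Z w w' - fbe b S Z w w' * S v v'
      = b w v' • fbe b S Z v w' - b v w' • fbe b S Z w v' := by
  have h := C.comm v v' w w'
  simp only [fbe_apply, mul_add, add_mul, mul_smul_comm, smul_mul_assoc, C.ZS, smul_add,
    smul_smul]
  rw [add_sub_add_right_eq_sub, h, mul_comm (b w v') (b v w')]
  abel

theorem bebe (C : FCtx b S e f Z) (v v' w w' : V) :
    fbe b S Z v v' * fbe b S Z w w' - fbe b S Z w w' * fbe b S Z v v'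
      = b w v' • fbe b S Z v w' - b v w' • fbe b S Z w v' := by
  have hZ : Z * fbe b S Z w w' = fbe b S Z w w' * Z := by
    rw [fbe_apply, mul_add, add_mul, C.ZS, mul_smul_comm, smul_mul_assoc]
  rw [← C.commbe v v' w w', fbe_apply b S Z v v', add_mul, mul_add, smul_mul_assoc,
    mul_smul_comm, hZ]
  abel

theorem psi_symm' (_C : FCtx b S e f Z) (w y w' y' : V) :
    fpsi b S Z w y w' y' = fpsi b S Z w y y' w' := by
  simp only [fpsi]; abel

theorem psi_symm (C : FCtx b S e f Z) (w y w' y' : V) :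
    fpsi b S Z w y w' y' = fpsi b S Z y w w' y' := by
  have h1 := C.bebe w w' y y'
  have h2 := C.bebe w y' y w'
  rw [sub_eq_iff_eq_add] at h1 h2
  simp only [fpsi]
  rw [h1, h2]
  abel

theorem comm_psi (C : FCtx b S e f Z) (v v' w y w' y' : V) :
    S v v' * fpsi b S Z w y w' y' - fpsi b S Z w y w' y' * S v v'
      = b w v' • fpsi b S Z v y w' y' + b y v' • fpsi b S Z w v w' y'
        - b v w' • fpsi b S Z w y v' y' - b v y' • fpsi b S Z w y w' v' := by
  have h1 := C.commbe v v' w w'
  have h2 := C.commbe v v' y y'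
  have h3 := C.commbe v v' w y'
  have h4 := C.commbe v v' y w'
  have key : ∀ (z p q p' q' : R) (t t' : L), z * (p * q + p' * q' - t • p' - t' • p)
      - (p * q + p' * q' - t • p' - t' • p) * z
      = (z * p - p * z) * q + p * (z * q - q * z) + (z * p' - p' * z) * q'
        + p' * (z * q' - q' * z) - t • (z * p' - p' * z) - t' • (z * p - p * z) := by
    intro z p q p' q' t t'
    simp only [mul_add, add_mul, mul_sub, sub_mul, smul_mul_assoc, mul_smul_comm, smul_sub,
      mul_assoc]
    abel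
  simp only [fpsi]
  rw [key, h1, h2, h3, h4]
  simp only [mul_sub, sub_mul, smul_mul_assoc, mul_smul_comm, smul_sub, smul_add, smul_smul]
  match_scalars <;> ring

theorem psi_add1 (_C : FCtx b S e f Z) (w y y2 w' y' : V) :
    fpsi b S Z w (y + y2) w' y' = fpsi b S Z w y w' y' + fpsi b S Z w y2 w' y' := by
  simp only [fpsi, map_add, LinearMap.add_apply, mul_add, add_smul]
  abel

theorem psi_smul1 (_C : FCtx b S e f Z) (t : L) (w y w' y' : V) :
    fpsi b S Z w (t • y) w' y' = t • fpsi b S Z w y w' y' := by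
  simp only [fpsi, map_smul, LinearMap.smul_apply, mul_smul_comm, smul_add, smul_sub,
    smul_eq_mul, mul_smul]

theorem psi_add2 (_C : FCtx b S e f Z) (w y w' y' y2 : V) :
    fpsi b S Z w y w' (y' + y2) = fpsi b S Z w y w' y' + fpsi b S Z w y w' y2 := by
  simp only [fpsi, map_add, mul_add, add_mul, add_smul, smul_add]
  abel

theorem psi_smul2 (_C : FCtx b S e f Z) (t : L) (w y w' y' : V) :
    fpsi b S Z w y w' (t • y') = t • fpsi b S Z w y w' y' := by
  simp only [fpsi, map_smul, mul_smul_comm, smul_mul_assoc, smul_add, smul_sub,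
    smul_eq_mul, mul_smul]
  rw [smul_comm t (b y w')]

theorem psi0 (C : FCtx b S e f Z) : fpsi b S Z e e f f = 0 := by
  have h := C.idem
  have h1 : fbe b S Z e f = S e f + Z := by rw [fbe_apply, C.ef, one_smul]
  simp only [fpsi, h1, h, C.ef, one_smul]
  abel

/-- a property of the second argument which holds for `e` and for all vectors with `b v f = 0` -/
theorem ind1 (C : FCtx b S e f Z) {w w' y' : V} (he : fpsi b S Z w e w' y' = 0)
    (h : ∀ v, b v f = 0 → fpsi b S Z w v w' y' = 0) (y : V) : fpsi b S Z w y w' y' = 0 := by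
  have h1 : y = b y f • e + (y - b y f • e) := by abel
  have h2 : b (y - b y f • e) f = 0 := by simp [C.ef]
  rw [h1, C.psi_add1, C.psi_smul1, he, smul_zero, zero_add]
  exact h _ h2

theorem ind2 (C : FCtx b S e f Z) {w y w' : V} (hf : fpsi b S Z w y w' f = 0)
    (h : ∀ v, b e v = 0 → fpsi b S Z w y w' v = 0) (y' : V) : fpsi b S Z w y w' y' = 0 := by
  have h1 : y' = b e y' • f + (y' - b e y' • f) := by abel
  have h2 : b e (y' - b e y' • f) = 0 := by simp [C.ef]
  rw [h1, C.psi_add2, C.psi_smul2, hf, smul_zero, zero_add]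
  exact h _ h2

theorem psi1 (C : FCtx b S e f Z) (y : V) : fpsi b S Z e y f f = 0 := by
  refine C.ind1 C.psi0 (fun v hv => ?_) y
  have h := C.comm_psi v f e e f f
  rw [C.psi0, C.ef, hv, C.psi_symm v e] at h
  simp only [mul_zero, zero_mul, sub_zero, one_smul, zero_smul] at h
  exact C.half h.symm

theorem psi2 (C : FCtx b S e f Z) (w y : V) : fpsi b S Z w y f f = 0 := by
  refine C.ind1 (by rw [C.psi_symm]; exact C.psi1 w) (fun v hv => ?_) y
  have h := C.comm_psi v f w e f f
  rw [C.psi_symm w e, C.psi1, C.ef, hv, C.psi_symm v e, C.psi1] at h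
  simp only [mul_zero, zero_mul, sub_zero, one_smul, smul_zero, zero_add] at h
  exact h.symm

theorem psi3 (C : FCtx b S e f Z) (w y w' : V) : fpsi b S Z w y f w' = 0 := by
  refine C.ind2 (C.psi2 w y) (fun v hv => ?_) w'
  have h := C.comm_psi e v w y f f
  rw [C.psi2, C.psi2, C.psi2, C.ef, C.psi_symm' w y v f] at h
  simp only [mul_zero, zero_mul, sub_zero, one_smul, smul_zero, add_zero, zero_sub] at h
  have h2 : fpsi b S Z w y f v + fpsi b S Z w y f v = 0 := by
    have h3 : fpsi b S Z w y f v + fpsi b S Z w y f v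
      = -(-fpsi b S Z w y f v - fpsi b S Z w y f v) := by abel
    rw [h3, ← h, neg_zero]
  exact C.half h2

theorem psi4 (C : FCtx b S e f Z) (w y w' y' : V) : fpsi b S Z w y w' y' = 0 := by
  refine C.ind2 (by rw [C.psi_symm']; exact C.psi3 w y w') (fun v hv => ?_) y'
  have h := C.comm_psi e v w y w' f
  rw [C.psi_symm' w y w' f, C.psi_symm' e y w' f, C.psi_symm' w e w' f, C.psi_symm' w y v f,
    C.psi3, C.psi3, C.psi3, C.psi3, C.ef] at h
  simp only [mul_zero, zero_mul, sub_zero, one_smul, smul_zero, add_zero, zero_sub] at h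
  exact neg_eq_zero.mp h.symm

/-- first fermionic relation -/
theorem rel1 (C : FCtx b S e f Z) (w w' y y' : V) :
    fbe b S Z w w' * fbe b S Z y y' + fbe b S Z w y' * fbe b S Z y w'
      = b y w' • fbe b S Z w y' + b y y' • fbe b S Z w w' := by
  have h := C.psi4 w y w' y'
  rw [fpsi, sub_sub, sub_eq_zero] at h
  exact h

/-- second fermionic relation -/
theorem rel2 (C : FCtx b S e f Z) (w w' y y' : V) :
    fbe b S Z w w' * fbe b S Z y y' + fbe b S Z y w' * fbe b S Z w y'
      = b y w' • fbe b S Z w y' + b w w' • fbe b S Z y y' := by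
  have h := C.rel1 w w' y y'
  have h2 := C.bebe w y' y w'
  rw [sub_eq_iff_eq_add] at h2
  have h3 : fbe b S Z y w' * fbe b S Z w y'
      = fbe b S Z w y' * fbe b S Z y w' - (b y y' • fbe b S Z w w' - b w w' • fbe b S Z y y') := by
    rw [h2]; abel
  rw [h3, ← add_sub_assoc, h]
  abel

end FCtx

end Pool.Agent.Helper36.UKS
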