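import Mathlib
import Pool.Agent.Helper36.UKS.Ctx
import Pool.Agent.Helper36.UKS.CoreAbs

/-!
Module A (helper36): the fermionic relations over the large field.
-/

open scoped Matrix

namespace Pool.Agent.Helper36.UKS

open Pool.Agent.Helper9.KSM Pool.Agent.Helper9.KS

variable {K L : Type} [Field K] [CharZero K] [Field L] [Algebra K L] {n m r : ℕ}
  {d : Fin n → K} {a : K} {J : Mat n K} {g : Submodule K (Mat m K)} {ρ : Mat m K →ₗ[K] Mat n K}
  {T : Fin n → Fin n → Mat m K} {l : Fin r → L} {x : Fin r → Mat m K} {s : L} {e f : Fin n → L}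

omit [CharZero K] in
theorem pl_apply (J : Mat n K) (s : L) (w : Fin n → L) :
    pl J s w = (2 : L)⁻¹ • (w + s⁻¹ • (J.map (algebraMap K L) *ᵥ w)) := rfl

omit [CharZero K] in
theorem mi_apply (J : Mat n K) (s : L) (w : Fin n → L) :
    mi J s w = (2 : L)⁻¹ • (w - s⁻¹ • (J.map (algebraMap K L) *ᵥ w)) := rfl

omit [CharZero K] in
theorem bb_apply (d : Fin n → K) (J : Mat n K) (s : L) (w y : Fin n → L) :
    bb d J s w y = bil (fun i => algebraMap K L (d i)) (pl J s w) (mi J s y) := rfl

omit [CharZero K] in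
theorem SS_apply (J : Mat n K) (T : Fin n → Fin n → Mat m K) (s : L) (w y : Fin n → L) :
    SS J T s w y = (2 : L)⁻¹ • sA L T (pl J s w) (mi J s y) := rfl

omit [CharZero K] in
/-- skewness as a property of the form -/
theorem skew_bil {A : Type} [Field A] {d : Fin n → A} {Y : Mat n A} (hY : IsSkew d Y)
    (w y : Fin n → A) : bil d (Y *ᵥ w) y = - bil d w (Y *ᵥ y) := by
  rw [bil_apply, bil_apply, ← Finset.sum_neg_distrib]
  have h1 : ∀ i, d i * (Y *ᵥ w) i * y i = ∑ j, d i * Y i j * w j * y i := by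
    intro i
    rw [Matrix.mulVec, dotProduct, Finset.mul_sum, Finset.sum_mul]
    exact Finset.sum_congr rfl fun j _ => by ring
  have h2 : ∀ i, -(d i * w i * (Y *ᵥ y) i) = ∑ j, -(d i * Y i j * y j * w i) := by
    intro i
    rw [Matrix.mulVec, dotProduct, Finset.mul_sum, ← Finset.sum_neg_distrib]
    exact Finset.sum_congr rfl fun j _ => by ring
  simp only [h1, h2]
  rw [Finset.sum_comm]
  refine Finset.sum_congr rfl fun i _ => Finset.sum_congr rfl fun j _ => ?_
  linear_combination (w i * y j) * hY i j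

omit [CharZero K] in
theorem skew_map {Y : Mat n K} (hY : IsSkew d Y) :
    IsSkew (fun i => algebraMap K L (d i)) (Y.map (algebraMap K L)) := by
  intro i j
  rw [Matrix.map_apply, Matrix.map_apply, ← map_mul, ← map_mul, ← map_add, hY i j, map_zero]

omit [CharZero K] in
theorem IsMult.a_ne (h : IsMult d a J) : a ≠ 0 := by
  rintro rfl
  exact h.nonsq ⟨0, by simp⟩

namespace UCtx

omit [CharZero K] in
theorem s_ne (C : UCtx d a J g ρ T l x s e f) : s ≠ 0 := by
  intro h
  have h1 := C.s2
  rw [h, mul_zero, zero_eq_neg, map_eq_zero] at h1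
  exact C.mult.a_ne h1

omit [CharZero K] in
theorem JJ (C : UCtx d a J g ρ T l x s e f) (w : Fin n → L) :
    J.map (algebraMap K L) *ᵥ (J.map (algebraMap K L) *ᵥ w) = (s * s) • w := by
  rw [Matrix.mulVec_mulVec, ← Matrix.map_mul, C.mult.sq, C.s2]
  have : (-(a • (1 : Mat n K))).map (algebraMap K L)
      = -(algebraMap K L a) • (1 : Mat n L) := by
    ext i j
    by_cases h : i = j
    · simp [h]
    · simp [h]
  rw [this, Matrix.smul_mulVec, Matrix.one_mulVec]

omit [CharZero K] in
theorem J_pl (C : UCtx d a J g ρ T l x s e f) (w : Fin n → L) :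
    J.map (algebraMap K L) *ᵥ (pl J s w) = s • pl J s w := by
  rw [pl_apply, Matrix.mulVec_smul, Matrix.mulVec_add, Matrix.mulVec_smul, C.JJ, smul_smul,
    ← mul_assoc, inv_mul_cancel₀ C.s_ne, one_mul, smul_comm s, smul_add s, smul_smul s,
    mul_inv_cancel₀ C.s_ne, one_smul, add_comm]

omit [CharZero K] in
theorem J_mi (C : UCtx d a J g ρ T l x s e f) (w : Fin n → L) :
    J.map (algebraMap K L) *ᵥ (mi J s w) = -(s • mi J s w) := by
  rw [mi_apply, Matrix.mulVec_smul, Matrix.mulVec_sub, Matrix.mulVec_smul, C.JJ, smul_smul,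
    ← mul_assoc, inv_mul_cancel₀ C.s_ne, one_mul, smul_comm s, smul_sub s, smul_smul s,
    mul_inv_cancel₀ C.s_ne, one_smul, ← smul_neg, neg_sub]

end UCtx

theorem two_neL (K : Type) {L : Type} [Field K] [CharZero K] [Field L] [Algebra K L] :
    (2 : L) ≠ 0 := by
  have : CharZero L := charZero_of_injective_algebraMap (algebraMap K L).injective
  exact two_ne_zero

namespace UCtx

theorem pl_of (C : UCtx d a J g ρ T l x s e f) {w : Fin n → L}
    (h : J.map (algebraMap K L) *ᵥ w = s • w) : pl J s w = w ∧ mi J s w = 0 := by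
  rw [pl_apply, mi_apply, h, smul_smul, inv_mul_cancel₀ C.s_ne, one_smul, sub_self, smul_zero,
    ← two_smul L w, smul_smul, inv_mul_cancel₀ (two_neL K), one_smul]
  exact ⟨rfl, rfl⟩

theorem mi_of (C : UCtx d a J g ρ T l x s e f) {w : Fin n → L}
    (h : J.map (algebraMap K L) *ᵥ w = -(s • w)) : pl J s w = 0 ∧ mi J s w = w := by
  rw [pl_apply, mi_apply, h, smul_neg, smul_smul, inv_mul_cancel₀ C.s_ne, one_smul,
    sub_neg_eq_add, add_neg_cancel, smul_zero,
    ← two_smul L w, smul_smul, inv_mul_cancel₀ (two_neL K), one_smul]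
  exact ⟨rfl, rfl⟩

theorem pl_pl (C : UCtx d a J g ρ T l x s e f) (w : Fin n → L) : pl J s (pl J s w) = pl J s w :=
  (C.pl_of (C.J_pl w)).1

theorem mi_pl (C : UCtx d a J g ρ T l x s e f) (w : Fin n → L) : mi J s (pl J s w) = 0 :=
  (C.pl_of (C.J_pl w)).2

theorem pl_mi (C : UCtx d a J g ρ T l x s e f) (w : Fin n → L) : pl J s (mi J s w) = 0 :=
  (C.mi_of (C.J_mi w)).1

theorem mi_mi (C : UCtx d a J g ρ T l x s e f) (w : Fin n → L) : mi J s (mi J s w) = mi J s w :=
  (C.mi_of (C.J_mi w)).2

theorem pl_add_mi (_C : UCtx d a J g ρ T l x s e f) (w : Fin n → L) : pl J s w + mi J s w = w := by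
  rw [pl_apply, mi_apply, ← smul_add, add_add_sub_cancel, ← two_smul L w, smul_smul,
    inv_mul_cancel₀ (two_neL K), one_smul]

/-- `W` and `W'` are isotropic -/
theorem iso (C : UCtx d a J g ρ T l x s e f) {w y : Fin n → L} {t : L} (ht : t ≠ 0)
    (hw : J.map (algebraMap K L) *ᵥ w = t • w) (hy : J.map (algebraMap K L) *ᵥ y = t • y) :
    bil (fun i => algebraMap K L (d i)) w y = 0 := by
  have h := skew_bil (skew_map (L := L) C.mult.skew) w y
  rw [hw, hy, map_smul, LinearMap.smul_apply, map_smul, smul_eq_mul] at h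
  have h2 : (2 * t) * bil (fun i => algebraMap K L (d i)) w y = 0 := by
    linear_combination h
  exact (mul_eq_zero.mp h2).resolve_left (mul_ne_zero (two_neL K) ht)

theorem iso_pl (C : UCtx d a J g ρ T l x s e f) (w y : Fin n → L) :
    bil (fun i => algebraMap K L (d i)) (pl J s w) (pl J s y) = 0 :=
  C.iso C.s_ne (C.J_pl w) (C.J_pl y)

theorem iso_mi (C : UCtx d a J g ρ T l x s e f) (w y : Fin n → L) :
    bil (fun i => algebraMap K L (d i)) (mi J s w) (mi J s y) = 0 :=
  C.iso (t := -s) (neg_ne_zero.mpr C.s_ne) (by rw [C.J_mi, neg_smul]) (by rw [C.J_mi, neg_smul])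

/-- the form in terms of the pairing -/
theorem bil_eq (C : UCtx d a J g ρ T l x s e f) (w y : Fin n → L) :
    bil (fun i => algebraMap K L (d i)) w y = bb d J s w y + bb d J s y w := by
  have h1 := C.pl_add_mi w
  have h2 := C.pl_add_mi y
  rw [bb_apply, bb_apply]
  nth_rewrite 1 [← h1]
  nth_rewrite 1 [← h2]
  simp only [map_add, LinearMap.add_apply, C.iso_pl, C.iso_mi,
    bil_symm _ (mi J s w) (pl J s y)]
  ring

/-- the action of `T(w, y)` on `V` -/
theorem rhoT_ext (C : UCtx d a J g ρ T l x s e f) (w y : Fin n → L) :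
    ∑ q : Fin n × Fin n, (w q.1 * y q.2) • (ρ (T q.1 q.2)).map (algebraMap K L)
      = rot (fun i => algebraMap K L (d i)) w y
        + (algebraMap K L a)⁻¹ • rot (fun i => algebraMap K L (d i))
          (J.map (algebraMap K L) *ᵥ w) (J.map (algebraMap K L) *ᵥ y) := by
  have h1 : ∀ q : Fin n × Fin n, (ρ (T q.1 q.2)).map (algebraMap K L)
      = (rot d (bv K q.1) (bv K q.2)).map (algebraMap K L)
        + (algebraMap K L a)⁻¹ •
          (rot d (J *ᵥ bv K q.1) (J *ᵥ bv K q.2)).map (algebraMap K L) := by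
    intro q
    rw [C.rhoT, map_add', map_smul', map_inv₀]
  simp only [h1, smul_add, Finset.sum_add_distrib]
  rw [rot_ext]
  congr 1
  have h2 : ∀ q : Fin n × Fin n, (w q.1 * y q.2) • (algebraMap K L a)⁻¹ •
      (rot d (J *ᵥ bv K q.1) (J *ᵥ bv K q.2)).map (algebraMap K L)
      = (algebraMap K L a)⁻¹ • ((w q.1 * y q.2) •
        (rot d (J *ᵥ bv K q.1) (J *ᵥ bv K q.2)).map (algebraMap K L)) :=
    fun q => smul_comm _ _ _
  rw [Finset.sum_congr rfl fun q _ => h2 q, ← Finset.smul_sum]
  congr 1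
  ext i j
  rw [Matrix.sum_apply, Fintype.sum_prod_type]
  have h3 : ∀ k i, (J *ᵥ bv K k) i = J i k := by
    intro k i
    simp [bv]
  simp only [Matrix.smul_apply, Matrix.map_apply, rot, Matrix.of_apply, smul_eq_mul, h3,
    map_mul, map_sub]
  have h4 : ∀ (w : Fin n → L) i, (J.map (algebraMap K L) *ᵥ w) i
      = ∑ k, algebraMap K L (J i k) * w k := fun w i => rfl
  rw [h4, h4, h4, h4, Finset.sum_mul_sum, Finset.sum_mul_sum, Finset.sum_comm (s := Finset.univ)
    (t := Finset.univ) (f := fun k l => algebraMap K L (J i k) * y k *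
      (algebraMap K L (J j l) * w l)), ← Finset.sum_sub_distrib, Finset.sum_mul]
  refine Finset.sum_congr rfl fun k _ => ?_
  rw [← Finset.sum_sub_distrib, Finset.sum_mul]
  exact Finset.sum_congr rfl fun k' _ => by ring

/-- the action of `T(w, y)` on the lifts -/
theorem actT (C : UCtx d a J g ρ T l x s e f) (w y u v : Fin n → L) :
    sA L T w y * sA L T u v - sA L T u v * sA L T w y
      = sA L T ((rot (fun i => algebraMap K L (d i)) w y
        + (algebraMap K L a)⁻¹ • rot (fun i => algebraMap K L (d i))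
          (J.map (algebraMap K L) *ᵥ w) (J.map (algebraMap K L) *ᵥ y)) *ᵥ u) v
        + sA L T u ((rot (fun i => algebraMap K L (d i)) w y
        + (algebraMap K L a)⁻¹ • rot (fun i => algebraMap K L (d i))
          (J.map (algebraMap K L) *ᵥ w) (J.map (algebraMap K L) *ᵥ y)) *ᵥ v) := by
  have h := act (A := L) (ι := Fin n × Fin n) (F := T) (x := fun q => T q.1 q.2)
      (Y := fun q => ρ (T q.1 q.2)) (fun q => w q.1 * y q.2)
      (fun q i j => C.equi _ (C.memT q.1 q.2) i j) u v
  rw [C.rhoT_ext, Fintype.sum_prod_type] at h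
  exact h

/-- the same for `w ∈ W`, `y ∈ W'` -/
theorem actT' (C : UCtx d a J g ρ T l x s e f) {w y : Fin n → L}
    (hw : J.map (algebraMap K L) *ᵥ w = s • w) (hy : J.map (algebraMap K L) *ᵥ y = -(s • y))
    (u v : Fin n → L) :
    sA L T w y * sA L T u v - sA L T u v * sA L T w y
      = (2 : L) • (sA L T (rot (fun i => algebraMap K L (d i)) w y *ᵥ u) v
        + sA L T u (rot (fun i => algebraMap K L (d i)) w y *ᵥ v)) := by
  have ha : algebraMap K L a ≠ 0 := by rw [Ne, map_eq_zero]; exact C.mult.a_ne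
  have h1 : (algebraMap K L a)⁻¹ • rot (fun i => algebraMap K L (d i))
          (J.map (algebraMap K L) *ᵥ w) (J.map (algebraMap K L) *ᵥ y)
      = rot (fun i => algebraMap K L (d i)) w y := by
    rw [hw, hy, ← rotL_apply, ← rotL_apply, map_smul, LinearMap.smul_apply, map_neg, map_smul,
      smul_neg, smul_smul, smul_neg, smul_smul, ← neg_smul]
    have : -((algebraMap K L a)⁻¹ * (s * s)) = 1 := by
      rw [C.s2, mul_neg, neg_neg, inv_mul_cancel₀ ha]
    rw [this, one_smul]
  rw [C.actT, h1, Matrix.add_mulVec, Matrix.add_mulVec, map_add, map_add, LinearMap.add_apply,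
    two_smul]
  abel

omit [CharZero K] in
/-- the action of `P` on the lifts -/
theorem actP (C : UCtx d a J g ρ T l x s e f) (u v : Fin n → L) :
    comb l x * sA L T u v - sA L T u v * comb l x
      = sA L T (rot (fun i => algebraMap K L (d i)) e f *ᵥ u) v
        + sA L T u (rot (fun i => algebraMap K L (d i)) e f *ᵥ v) := by
  have h := act (A := L) (F := T) (x := x) (Y := fun i => ρ (x i)) l
      (fun q i j => C.equi _ (C.memx q) i j) u v
  have h2 : ∑ q, l q • (ρ (x q)).map (algebraMap K L)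
        = rot (fun i => algebraMap K L (d i)) e f := C.type
  rw [h2] at h
  exact h

theorem Zcomm (C : UCtx d a J g ρ T l x s e f) (w y : Fin n → L) :
    ZZ T l x e f * sA L T w y = sA L T w y * ZZ T l x e f := by
  have h1 := C.actP w y
  have h2 := C.actT' C.Je C.Jf w y
  rw [ZZ, sub_mul, mul_sub, smul_mul_assoc, mul_smul_comm, ← sub_eq_zero]
  have h3 : comb l x * sA L T w y - (2 : L)⁻¹ • (sA L T e f * sA L T w y)
      - (sA L T w y * comb l x - (2 : L)⁻¹ • (sA L T w y * sA L T e f))
      = (comb l x * sA L T w y - sA L T w y * comb l x)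
        - (2 : L)⁻¹ • (sA L T e f * sA L T w y - sA L T w y * sA L T e f) := by
    rw [smul_sub]; abel
  rw [h3, h1, h2, smul_smul, inv_mul_cancel₀ (two_neL K), one_smul, sub_self]

omit [CharZero K] in
theorem sA_anti (C : UCtx d a J g ρ T l x s e f) (w y : Fin n → L) :
    sA L T w y = - sA L T y w := by
  rw [sA_apply, sA_apply, Finset.sum_comm, ← Finset.sum_neg_distrib]
  refine Finset.sum_congr rfl fun i _ => ?_
  rw [← Finset.sum_neg_distrib]
  refine Finset.sum_congr rfl fun j _ => ?_
  rw [C.anti i j, mul_comm (w j)]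
  ext p q
  simp

omit [CharZero K] in
/-- `T(Jw, Jy) = a T(w, y)` -/
theorem sA_JJ (C : UCtx d a J g ρ T l x s e f) (w y : Fin n → L) :
    sA L T (J.map (algebraMap K L) *ᵥ w) (J.map (algebraMap K L) *ᵥ y)
      = algebraMap K L a • sA L T w y := by
  have h4 : ∀ (w : Fin n → L) i, (J.map (algebraMap K L) *ᵥ w) i
      = ∑ k, algebraMap K L (J i k) * w k := fun w i => rfl
  have h5 : ∀ i j, algebraMap K L a • (T i j).map (algebraMap K L)
      = ∑ k, ∑ l, (algebraMap K L (J k i) * algebraMap K L (J l j)) •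
        (T k l).map (algebraMap K L) := by
    intro i j
    rw [← map_smul', ← C.jj, map_sum']
    refine Finset.sum_congr rfl fun k _ => ?_
    rw [map_sum']
    refine Finset.sum_congr rfl fun k' _ => ?_
    rw [map_smul', map_mul]
  rw [sA_apply, sA_apply, Finset.smul_sum]
  simp only [Finset.smul_sum, smul_comm (algebraMap K L a), h5, h4, Finset.sum_mul_sum,
    Finset.sum_smul, smul_smul]
  calc _ = ∑ k, ∑ i, ∑ k', ∑ j, (algebraMap K L (J k i) * w i * (algebraMap K L (J k' j) * y j)) •
        (T k k').map (algebraMap K L) := by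
        refine Finset.sum_congr rfl fun k _ => ?_
        rw [Finset.sum_comm]
    _ = ∑ i, ∑ k, ∑ j, ∑ k', (algebraMap K L (J k i) * w i * (algebraMap K L (J k' j) * y j)) •
        (T k k').map (algebraMap K L) := by
        rw [Finset.sum_comm]
        refine Finset.sum_congr rfl fun i _ => Finset.sum_congr rfl fun k _ => ?_
        rw [Finset.sum_comm]
    _ = ∑ i, ∑ j, ∑ k, ∑ k', (algebraMap K L (J k i) * w i * (algebraMap K L (J k' j) * y j)) •
        (T k k').map (algebraMap K L) := by
        refine Finset.sum_congr rfl fun i _ => ?_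
        rw [Finset.sum_comm]
    _ = _ := by
        refine Finset.sum_congr rfl fun i _ => Finset.sum_congr rfl fun j _ =>
          Finset.sum_congr rfl fun k _ => Finset.sum_congr rfl fun k' _ => ?_
        congr 1
        ring

/-- `T` vanishes on `W × W` and on `W' × W'` -/
theorem sA_same (C : UCtx d a J g ρ T l x s e f) {w y : Fin n → L} {t : L} (ht : t * t = s * s)
    (hw : J.map (algebraMap K L) *ᵥ w = t • w) (hy : J.map (algebraMap K L) *ᵥ y = t • y) :
    sA L T w y = 0 := by
  have h := C.sA_JJ w y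
  rw [hw, hy, map_smul, map_smul, LinearMap.smul_apply, smul_smul, ht, C.s2] at h
  have ha : algebraMap K L a ≠ 0 := by rw [Ne, map_eq_zero]; exact C.mult.a_ne
  have h2 : (2 * algebraMap K L a) • sA L T w y = 0 := by
    have : (2 * algebraMap K L a) • sA L T w y
        = algebraMap K L a • sA L T w y - (-algebraMap K L a) • sA L T w y := by
      rw [← sub_smul]; congr 1; ring
    rw [this, h, sub_self]
  exact (smul_eq_zero_iff_right (mul_ne_zero (two_neL K) ha)).mp h2

theorem T_eq (C : UCtx d a J g ρ T l x s e f) (w y : Fin n → L) :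
    sA L T w y = (2 : L) • (SS J T s w y - SS J T s y w) := by
  have h1 := C.pl_add_mi w
  have h2 := C.pl_add_mi y
  have e1 : sA L T (pl J s w) (pl J s y) = 0 := C.sA_same rfl (C.J_pl w) (C.J_pl y)
  have e2 : sA L T (mi J s w) (mi J s y) = 0 :=
    C.sA_same (t := -s) (by ring) (by rw [C.J_mi, neg_smul]) (by rw [C.J_mi, neg_smul])
  have e3 : sA L T (mi J s w) (pl J s y) = - sA L T (pl J s y) (mi J s w) := C.sA_anti _ _
  rw [SS_apply, SS_apply, ← smul_sub, smul_smul, mul_inv_cancel₀ (two_neL K), one_smul]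
  nth_rewrite 1 [← h1]
  nth_rewrite 1 [← h2]
  simp only [map_add, LinearMap.add_apply, e1, e2, e3]
  abel

/-- commutators of the lifts -/
theorem SScomm (C : UCtx d a J g ρ T l x s e f) (w w' y y' : Fin n → L) :
    SS J T s w w' * SS J T s y y' - SS J T s y y' * SS J T s w w'
      = bb d J s y w' • SS J T s w y' - bb d J s w y' • SS J T s y w' := by
  have h := C.actT' (C.J_pl w) (C.J_mi w') (pl J s y) (mi J s y')
  have h1 : rot (fun i => algebraMap K L (d i)) (pl J s w) (mi J s w') *ᵥ (pl J s y)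
      = bb d J s y w' • pl J s w := by
    rw [rot_mulVec, rotV, C.iso_pl, zero_smul, sub_zero, bb_apply, bil_symm]
  have h2 : rot (fun i => algebraMap K L (d i)) (pl J s w) (mi J s w') *ᵥ (mi J s y')
      = -(bb d J s w y' • mi J s w') := by
    rw [rot_mulVec, rotV, C.iso_mi, zero_smul, zero_sub, bb_apply]
  rw [h1, h2, map_smul, LinearMap.smul_apply, map_neg, map_smul] at h
  simp only [SS_apply, smul_mul_assoc, mul_smul_comm]
  rw [← smul_sub, ← smul_sub, h]
  simp only [smul_add, smul_neg, smul_smul]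
  match_scalars <;> field_simp [two_neL K]

theorem bb_ef (C : UCtx d a J g ρ T l x s e f) : bb d J s e f = 1 := by
  rw [bb_apply, (C.pl_of C.Je).1, (C.mi_of C.Jf).2]
  exact C.hyp.2.2

theorem SS_ef (C : UCtx d a J g ρ T l x s e f) : SS J T s e f = (2 : L)⁻¹ • sA L T e f := by
  rw [SS_apply, (C.pl_of C.Je).1, (C.mi_of C.Jf).2]

theorem P_SS (C : UCtx d a J g ρ T l x s e f) : SS J T s e f + ZZ T l x e f = comb l x := by
  rw [C.SS_ef, ZZ]; abel

theorem fctx (C : UCtx d a J g ρ T l x s e f) :
    FCtx (bb d J s) (SS J T s) e f (ZZ T l x e f) where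
  two := two_neL K
  comm := C.SScomm
  ZS w w' := by rw [SS_apply, mul_smul_comm, smul_mul_assoc, C.Zcomm]
  ef := C.bb_ef
  idem := by rw [C.P_SS]; exact C.idem

omit [CharZero K] in
theorem be_eq (_C : UCtx d a J g ρ T l x s e f) (w y : Fin n → L) :
    be d J T s (ZZ T l x e f) w y = fbe (bb d J s) (SS J T s) (ZZ T l x e f) w y := by
  rw [fbe_apply, be]

/-- the fermionic relation -/
theorem quad (C : UCtx d a J g ρ T l x s e f) (w w' y y' : Fin n → L) :
    be d J T s (ZZ T l x e f) w w' * be d J T s (ZZ T l x e f) y y'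
      + be d J T s (ZZ T l x e f) w y' * be d J T s (ZZ T l x e f) y w'
      = bb d J s y w' • be d J T s (ZZ T l x e f) w y'
        + bb d J s y y' • be d J T s (ZZ T l x e f) w w' := by
  simp only [C.be_eq]
  exact C.fctx.rel1 w w' y y'

/-- the other fermionic relation -/
theorem quad' (C : UCtx d a J g ρ T l x s e f) (w w' y y' : Fin n → L) :
    be d J T s (ZZ T l x e f) w w' * be d J T s (ZZ T l x e f) y y'
      + be d J T s (ZZ T l x e f) y w' * be d J T s (ZZ T l x e f) w y'
      = bb d J s y w' • be d J T s (ZZ T l x e f) w y'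
        + bb d J s w w' • be d J T s (ZZ T l x e f) y y' := by
  simp only [C.be_eq]
  exact C.fctx.rel2 w w' y y'

theorem P_eq (C : UCtx d a J g ρ T l x s e f) :
    comb l x = be d J T s (ZZ T l x e f) e f ∧ bb d J s e f = 1 := by
  refine ⟨?_, C.bb_ef⟩
  rw [be, C.bb_ef, one_smul, C.P_SS]

end UCtx

end Pool.Agent.Helper36.UKS
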