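import Mathlib
import Pool.Agent.Helper36.UKS.Core

/-!
The lifts `T i j` and the construction of the working context (helper36).
-/

open scoped Matrix

namespace Pool.Agent.Helper36.UKS

open Pool.Agent.Helper9.KSM Pool.Agent.Helper9.KS

variable {K : Type} [Field K] {n m : ℕ} {d : Fin n → K} {a : K} {J : Mat n K}

/-- `X(x, y) = x ∧ y + a⁻¹ Jx ∧ Jy` as a bilinear map -/
def XB (d : Fin n → K) (a : K) (J : Mat n K) : (Fin n → K) →ₗ[K] (Fin n → K) →ₗ[K] Mat n K :=
  rotL d + a⁻¹ • (rotL d).compl₁₂ J.mulVecLin J.mulVecLin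

theorem XB_apply (x y : Fin n → K) :
    XB d a J x y = rot d x y + a⁻¹ • rot d (J *ᵥ x) (J *ᵥ y) := rfl

theorem JJK (hJ : IsMult d a J) (x : Fin n → K) : J *ᵥ (J *ᵥ x) = -(a • x) := by
  rw [Matrix.mulVec_mulVec, hJ.sq, Matrix.neg_mulVec, Matrix.smul_mulVec, Matrix.one_mulVec]

theorem skew_add {Y Y' : Mat n K} (h : IsSkew d Y) (h' : IsSkew d Y') : IsSkew d (Y + Y') := by
  intro i j
  have := h i j; have := h' i j
  simp only [Matrix.add_apply]
  linear_combination h i j + h' i j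

theorem skew_smul {Y : Mat n K} (c : K) (h : IsSkew d Y) : IsSkew d (c • Y) := by
  intro i j
  simp only [Matrix.smul_apply, smul_eq_mul]
  linear_combination c * h i j

theorem XB_skew (x y : Fin n → K) : IsSkew d (XB d a J x y) := by
  rw [XB_apply]
  exact skew_add (rot_skew d x y) (skew_smul _ (rot_skew d _ _))

theorem rot_J (hJ : IsMult d a J) (x y : Fin n → K) :
    J * rot d x y = rot d (J *ᵥ x) y + rot d x (J *ᵥ y) + rot d x y * J := by
  rw [← rot_comm hJ.skew]; abel

theorem XB_J (hJ : IsMult d a J) (x y : Fin n → K) : XB d a J x y * J = J * XB d a J x y := by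
  have h1 := rot_comm hJ.skew x y
  have h2 := rot_comm hJ.skew (J *ᵥ x) (J *ᵥ y)
  rw [JJK hJ, JJK hJ] at h2
  have h3 : rot d (-(a • x)) (J *ᵥ y) = -(a • rot d x (J *ᵥ y)) := by
    rw [← rotL_apply, ← rotL_apply, map_neg, map_smul, LinearMap.neg_apply, LinearMap.smul_apply]
  have h4 : rot d (J *ᵥ x) (-(a • y)) = -(a • rot d (J *ᵥ x) y) := by
    rw [← rotL_apply, ← rotL_apply, map_neg, map_smul]
  rw [h3, h4] at h2
  have ha := hJ.a_ne
  rw [XB_apply, mul_add, add_mul, mul_smul_comm, smul_mul_assoc, ← sub_eq_zero]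
  have h5 : rot d x y * J + a⁻¹ • (rot d (J *ᵥ x) (J *ᵥ y) * J)
      - (J * rot d x y + a⁻¹ • (J * rot d (J *ᵥ x) (J *ᵥ y)))
      = -(J * rot d x y - rot d x y * J)
        - a⁻¹ • (J * rot d (J *ᵥ x) (J *ᵥ y) - rot d (J *ᵥ x) (J *ᵥ y) * J) := by
    rw [smul_sub]; abel
  rw [h5, h1, h2]
  simp only [smul_add, smul_neg, smul_smul, inv_mul_cancel₀ ha, one_smul]
  abel

/-- commutators with a skew matrix commuting with `J` -/
theorem comm_XB {Y : Mat n K} (hY : IsSkew d Y) (hYJ : Y * J = J * Y) (x y : Fin n → K) :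
    Y * XB d a J x y - XB d a J x y * Y = XB d a J (Y *ᵥ x) y + XB d a J x (Y *ᵥ y) := by
  have h1 := rot_comm hY x y
  have h2 := rot_comm hY (J *ᵥ x) (J *ᵥ y)
  have h3 : ∀ z, Y *ᵥ (J *ᵥ z) = J *ᵥ (Y *ᵥ z) := by
    intro z
    rw [Matrix.mulVec_mulVec, Matrix.mulVec_mulVec, hYJ]
  rw [h3, h3] at h2
  simp only [XB_apply]
  rw [mul_add, add_mul, mul_smul_comm, smul_mul_assoc, add_sub_add_comm, h1, ← smul_sub, h2,
    smul_add]
  abel

theorem XB_JJ (hJ : IsMult d a J) (x y : Fin n → K) :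
    XB d a J (J *ᵥ x) (J *ᵥ y) = a • XB d a J x y := by
  have ha := hJ.a_ne
  rw [XB_apply, XB_apply, JJK hJ, JJK hJ]
  have h3 : rot d (-(a • x)) (-(a • y)) = (a * a) • rot d x y := by
    rw [← rotL_apply, ← rotL_apply]
    simp only [map_neg, map_smul, LinearMap.neg_apply, LinearMap.smul_apply, smul_neg, neg_neg,
      smul_smul]
  rw [h3, smul_add, smul_smul, smul_smul, ← mul_assoc, inv_mul_cancel₀ ha, mul_inv_cancel₀ ha,
    one_mul, one_smul, add_comm]

theorem vec_sum (x : Fin n → K) : x = ∑ i, x i • bv K i := by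
  ext j
  simp [bv, Finset.sum_apply, Pi.single_apply]

theorem XB_expand {x y : Fin n → K} :
    XB d a J x y = ∑ k, ∑ l, (x k * y l) • XB d a J (bv K k) (bv K l) := by
  nth_rewrite 1 [vec_sum x]
  rw [map_sum, LinearMap.sum_apply]
  refine Finset.sum_congr rfl fun i _ => ?_
  rw [map_smul, LinearMap.smul_apply]
  nth_rewrite 1 [vec_sum y]
  rw [map_sum, Finset.smul_sum]
  refine Finset.sum_congr rfl fun j _ => ?_
  rw [map_smul, smul_smul]

theorem mulVec_bv_apply (Y : Mat n K) (i k : Fin n) : (Y *ᵥ bv K i) k = Y k i := by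
  simp [bv]

theorem rot_JJ (hJ : IsMult d a J) (x y : Fin n → K) :
    rot d (J *ᵥ x) (J *ᵥ y) = -(J * rot d x y * J) := by
  ext i j
  have h1 : ∀ (z : Fin n → K) (q : Fin n), ∑ p, z p * d p * J p q = -(d q * (J *ᵥ z) q) := by
    intro z q
    rw [Matrix.mulVec, dotProduct, Finset.mul_sum, ← Finset.sum_neg_distrib]
    exact Finset.sum_congr rfl fun p _ => by linear_combination z p * hJ.skew p q
  have h2 : ∀ (z : Fin n → K) (p : Fin n), (J *ᵥ z) p = ∑ q, J p q * z q := fun z p => rfl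
  have h3 : ∀ q, (J * rot d x y) i q = (J *ᵥ x) i * (y q * d q) - (J *ᵥ y) i * (x q * d q) := by
    intro q
    rw [Matrix.mul_apply, h2, h2, Finset.sum_mul, Finset.sum_mul, ← Finset.sum_sub_distrib]
    refine Finset.sum_congr rfl fun p _ => ?_
    rw [rot, Matrix.of_apply]; ring
  rw [Matrix.neg_apply, Matrix.mul_apply]
  simp only [h3, sub_mul, Finset.sum_sub_distrib, mul_assoc]
  rw [← Finset.mul_sum, ← Finset.mul_sum]
  have h4 := h1 x j
  have h5 := h1 y j
  simp only [mul_assoc] at h4 h5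
  rw [h4, h5, rot, Matrix.of_apply]
  ring

/-- a skew matrix commuting with `J` is a combination of the `X(eₖ, e_l)` -/
theorem skew_XB [CharZero K] (hd : ∀ i, d i ≠ 0) (hJ : IsMult d a J) {Y : Mat n K}
    (hY : IsSkew d Y) (hYJ : Y * J = J * Y) :
    Y = ∑ k, ∑ l, (Y k l / (4 * d l)) • XB d a J (bv K k) (bv K l) := by
  have ha := hJ.a_ne
  have h1 : ∑ k, ∑ l, (Y k l / (4 * d l)) • rot d (bv K k) (bv K l) = (2 : K)⁻¹ • Y := by
    ext i j
    simp only [Matrix.sum_apply, Matrix.smul_apply, rot, Matrix.of_apply, bv, Pi.single_apply,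
      smul_eq_mul, mul_ite, ite_mul, mul_one, one_mul, mul_zero, zero_mul, sub_mul, mul_sub,
      Finset.sum_sub_distrib, Finset.sum_ite_eq, Finset.mem_univ, if_true]
    have h5 : (∑ x, ∑ x_1, if j = x then if i = x_1 then Y x x_1 / (4 * d x_1) * d j else 0
        else 0) = Y j i / (4 * d i) * d j := by
      rw [Finset.sum_eq_single j]
      · rw [Finset.sum_eq_single i]
        · rw [if_pos rfl, if_pos rfl]
        · intro b _ hb; rw [if_pos rfl, if_neg (Ne.symm hb)]
        · intro hi; exact absurd (Finset.mem_univ i) hi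
      · intro b _ hb
        exact Finset.sum_eq_zero fun c _ => if_neg (Ne.symm hb)
      · intro hi; exact absurd (Finset.mem_univ j) hi
    rw [h5]
    have h := hY i j
    have h2 := hd i
    have h3 := hd j
    field_simp
    linear_combination -2 * h
  have h2 : ∑ k, ∑ l, (Y k l / (4 * d l)) • rot d (J *ᵥ bv K k) (J *ᵥ bv K l)
      = -(J * ((2 : K)⁻¹ • Y) * J) := by
    rw [← h1, Finset.mul_sum, Finset.sum_mul, ← Finset.sum_neg_distrib]
    refine Finset.sum_congr rfl fun k _ => ?_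
    rw [Finset.mul_sum, Finset.sum_mul, ← Finset.sum_neg_distrib]
    refine Finset.sum_congr rfl fun l _ => ?_
    rw [mul_smul_comm, smul_mul_assoc, ← smul_neg]
    congr 1
    exact rot_JJ hJ _ _
  have h3 : -(J * ((2 : K)⁻¹ • Y) * J) = a • ((2 : K)⁻¹ • Y) := by
    rw [mul_smul_comm, smul_mul_assoc, mul_assoc, hYJ, ← mul_assoc, hJ.sq, neg_mul,
      smul_mul_assoc, one_mul, smul_neg, neg_neg, smul_comm]
  simp only [XB_apply, smul_add, Finset.sum_add_distrib, smul_comm _ a⁻¹, ← Finset.smul_sum]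
  rw [h1, h2, h3, smul_smul a⁻¹, inv_mul_cancel₀ ha, one_smul, ← add_smul]
  norm_num

theorem XB_anti (x y : Fin n → K) : XB d a J y x = - XB d a J x y := by
  rw [XB_apply, XB_apply]
  ext i j
  simp only [rot, Matrix.add_apply, Matrix.smul_apply, Matrix.of_apply, Matrix.neg_apply,
    smul_eq_mul]
  ring

/-- the lifts of the unitary rotations -/
theorem exists_T [CharZero K] (hd : ∀ i, d i ≠ 0) (hJ : IsMult d a J)
    {g : Submodule K (Mat m K)} {ρ : Mat m K →ₗ[K] Mat n K} (hg : IsUnitRep d J g ρ)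
    (halg : ∀ y ∈ g, ρ y * J = J * ρ y) :
    ∃ T : Fin n → Fin n → Mat m K, (∀ i j, T i j ∈ g) ∧
      (∀ i j, ρ (T i j) = XB d a J (bv K i) (bv K j)) ∧
      (∀ i j, T j i = - T i j) ∧
      (∀ i j, ∑ k, ∑ l, (J k i * J l j) • T k l = a • T i j) ∧
      (∀ y ∈ g, ∀ i j, y * T i j - T i j * y = ∑ k, (ρ y k i • T k j + ρ y k j • T i k)) ∧
      (∀ y ∈ g, ∃ c : Fin n → Fin n → K, ∀ i j,
        (y - ∑ k, ∑ l, c k l • T k l) * T i j = T i j * (y - ∑ k, ∑ l, c k l • T k l)) := by
  obtain ⟨hlie, hhom, hskew, honto, s, ⟨hsg, hsi⟩, hcov, huniq⟩ := hg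
  have hex : ∀ i j, ∃ z ∈ s, ρ z = XB d a J (bv K i) (bv K j) := by
    intro i j
    obtain ⟨z, hz, hzr⟩ := honto _ (XB_skew (a := a) (J := J) (bv K i) (bv K j)) (XB_J hJ _ _)
    obtain ⟨y, hy, hyr⟩ := hcov z hz
    exact ⟨y, hy, by rw [hyr, hzr]⟩
  choose T hT1 hT2 using hex
  have hequi : ∀ y ∈ g, ∀ i j, y * T i j - T i j * y
      = ∑ k, (ρ y k i • T k j + ρ y k j • T i k) := by
    intro y hy i j
    have h1 : y * T i j - T i j * y - ∑ k, (ρ y k i • T k j + ρ y k j • T i k) ∈ s := by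
      refine s.sub_mem (hsi y hy _ (hT1 i j)) (s.sum_mem fun k _ => ?_)
      exact s.add_mem (s.smul_mem _ (hT1 _ _)) (s.smul_mem _ (hT1 _ _))
    have h2 : ρ (y * T i j - T i j * y - ∑ k, (ρ y k i • T k j + ρ y k j • T i k)) = 0 := by
      rw [map_sub, hhom y hy _ (hsg (hT1 i j)), hT2, comm_XB (hskew y hy) (halg y hy), mulVec_bv,
        mulVec_bv, map_sum, map_sum, map_sum, LinearMap.sum_apply, ← Finset.sum_add_distrib,
        sub_eq_zero]
      refine Finset.sum_congr rfl fun k _ => ?_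
      rw [map_add, map_smul ρ, map_smul ρ, hT2, hT2, map_smul, map_smul, LinearMap.smul_apply]
    exact sub_eq_zero.mp (huniq _ h1 h2)
  refine ⟨T, fun i j => hsg (hT1 i j), hT2, ?_, ?_, hequi, ?_⟩
  · intro i j
    have h1 : T j i + T i j ∈ s := s.add_mem (hT1 _ _) (hT1 _ _)
    have h2 : ρ (T j i + T i j) = 0 := by
      rw [map_add, hT2, hT2, XB_anti, neg_add_cancel]
    exact eq_neg_of_add_eq_zero_left (huniq _ h1 h2)
  · intro i j
    have h1 : ∑ k, ∑ l, (J k i * J l j) • T k l - a • T i j ∈ s :=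
      s.sub_mem (s.sum_mem fun k _ => s.sum_mem fun l _ => s.smul_mem _ (hT1 _ _))
        (s.smul_mem _ (hT1 _ _))
    have h2 : ρ (∑ k, ∑ l, (J k i * J l j) • T k l - a • T i j) = 0 := by
      rw [map_sub, map_smul, hT2, ← XB_JJ hJ, XB_expand (x := J *ᵥ bv K i), map_sum, sub_eq_zero]
      refine Finset.sum_congr rfl fun k _ => ?_
      rw [map_sum]
      refine Finset.sum_congr rfl fun l _ => ?_
      rw [map_smul, hT2, mulVec_bv_apply, mulVec_bv_apply]
    exact sub_eq_zero.mp (huniq _ h1 h2)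
  · intro y hy
    refine ⟨fun k l => ρ y k l / (4 * d l), fun i j => ?_⟩
    have hz : y - ∑ k, ∑ l, (ρ y k l / (4 * d l)) • T k l ∈ g :=
      g.sub_mem hy (g.sum_mem fun k _ => g.sum_mem fun l _ => g.smul_mem _ (hsg (hT1 _ _)))
    have h0 : ρ (y - ∑ k, ∑ l, (ρ y k l / (4 * d l)) • T k l) = 0 := by
      rw [map_sub, map_sum, sub_eq_zero]
      nth_rewrite 1 [skew_XB hd hJ (hskew y hy) (halg y hy)]
      refine Finset.sum_congr rfl fun k _ => ?_
      rw [map_sum]
      refine Finset.sum_congr rfl fun l _ => ?_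
      rw [map_smul, hT2]
    have h1 := hequi _ hz i j
    rw [h0] at h1
    simp only [Matrix.zero_apply, zero_smul, add_zero, Finset.sum_const_zero] at h1
    exact sub_eq_zero.mp h1

/-- the vectors `e` and `f` are eigenvectors of `J` -/
theorem hodge_type [CharZero K] {L : Type} [Field L] [Algebra K L] {r : ℕ} (hJ : IsMult d a J)
    {ρ : Mat m K →ₗ[K] Mat n K} {l : Fin r → L} {x : Fin r → Mat m K} {e f : Fin n → L}
    (hh : IsHyp (fun i => algebraMap K L (d i)) e f)
    (hty : comb l (fun i => ρ (x i)) = rot (fun i => algebraMap K L (d i)) e f)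
    (hJP : IsHodgeEnd J ρ l x) :
    ∃ s : L, s * s = - algebraMap K L a ∧ J.map (algebraMap K L) *ᵥ e = s • e ∧
      J.map (algebraMap K L) *ᵥ f = -(s • f) := by
  have h2 : (2 : L) ≠ 0 := two_neL K
  have hee : bil (fun i => algebraMap K L (d i)) e e = 0 := hh.1
  have hff : bil (fun i => algebraMap K L (d i)) f f = 0 := hh.2.1
  have hef : bil (fun i => algebraMap K L (d i)) e f = 1 := hh.2.2
  have hfe : bil (fun i => algebraMap K L (d i)) f e = 1 := by rw [bil_symm]; exact hef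
  have hsk := skew_bil (skew_map (L := L) hJ.skew)
  have hself : ∀ v, bil (fun i => algebraMap K L (d i)) v (J.map (algebraMap K L) *ᵥ v) = 0 := by
    intro v
    have h := hsk v v
    rw [bil_symm] at h
    have h3 : (2 : L) * bil (fun i => algebraMap K L (d i)) v (J.map (algebraMap K L) *ᵥ v) = 0 := by
      linear_combination h
    exact (mul_eq_zero.mp h3).resolve_left h2
  have hcomm : J.map (algebraMap K L) * rot (fun i => algebraMap K L (d i)) e f
      = rot (fun i => algebraMap K L (d i)) e f * J.map (algebraMap K L) := by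
    rw [← hty]; exact hJP
  have hact : ∀ v, rot (fun i => algebraMap K L (d i)) e f *ᵥ (J.map (algebraMap K L) *ᵥ v)
      = J.map (algebraMap K L) *ᵥ (rot (fun i => algebraMap K L (d i)) e f *ᵥ v) := by
    intro v
    rw [Matrix.mulVec_mulVec, Matrix.mulVec_mulVec, hcomm]
  have he := hact e
  have hf := hact f
  simp only [rot_mulVec, rotV, hself, hee, hfe, zero_smul, sub_zero, one_smul] at he
  simp only [rot_mulVec, rotV, hself, hff, hef, zero_smul, zero_sub, one_smul,
    Matrix.mulVec_neg, neg_inj] at hf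
  refine ⟨bil (fun i => algebraMap K L (d i)) f (J.map (algebraMap K L) *ᵥ e), ?_, he.symm, ?_⟩
  · have h3 : J.map (algebraMap K L) *ᵥ (J.map (algebraMap K L) *ᵥ e)
        = -(algebraMap K L a • e) := by
      rw [Matrix.mulVec_mulVec, ← Matrix.map_mul, hJ.sq]
      have : (-(a • (1 : Mat n K))).map (algebraMap K L)
          = -(algebraMap K L a) • (1 : Mat n L) := by
        ext i j
        by_cases h : i = j
        · simp [h]
        · simp [h]
      rw [this, Matrix.smul_mulVec, Matrix.one_mulVec, neg_smul]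
    rw [← he, Matrix.mulVec_smul, ← he, smul_smul] at h3
    have h4 := congrArg (fun v => bil (fun i => algebraMap K L (d i)) f v) h3
    simp only [map_smul, map_neg, hfe, smul_eq_mul, mul_one] at h4
    exact h4
  · have h5 : bil (fun i => algebraMap K L (d i)) f (J.map (algebraMap K L) *ᵥ e)
        = -bil (fun i => algebraMap K L (d i)) e (J.map (algebraMap K L) *ᵥ f) := by
      rw [bil_symm, hsk]
    rw [h5, neg_smul, neg_neg, hf]

end Pool.Agent.Helper36.UKS
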