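import Mathlib
import Pool.Agent.Helper36.UKS.Core
import Pool.Agent.Helper36.UKS.Lift

/-!
Module F, first part (helper36): the operators `c(x, y)` over the large field.
-/

open scoped Matrix

namespace Pool.Agent.Helper36.UKS

open Pool.Agent.Helper9.KSM Pool.Agent.Helper9.KS

variable {K L : Type} [Field K] [CharZero K] [Field L] [Algebra K L] {n m r : ℕ}
  {d : Fin n → K} {a : K} {J : Mat n K} {g : Submodule K (Mat m K)} {ρ : Mat m K →ₗ[K] Mat n K}
  {T : Fin n → Fin n → Mat m K} {l : Fin r → L} {x : Fin r → Mat m K} {s : L} {e f : Fin n → L}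

/-- `c(x, y)` as an operator on `H ⊗ L` -/
noncomputable def cc (d : Fin n → K) (J : Mat n K) (T : Fin n → Fin n → Mat m K) (s : L)
    (Z : Mat m L) (x y : Fin n → L) : Mat m L :=
  sA L T x y + (bil (fun i => algebraMap K L (d i)) x y) • (1 : Mat m L)
    + (s⁻¹ * bil (fun i => algebraMap K L (d i)) (J.map (algebraMap K L) *ᵥ x) y)
      • ((2 : L) • Z - 1)

omit [CharZero K] [Algebra K L] in
theorem rel_aux {R : Type} [Ring R] [Algebra L R] {s : L} (hs : s ≠ 0)
    {p1 p2 p3 p4 q1 q2 q3 q4 : R} {a1 a3 b1 b2 b3 b4 : L}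
    (h1 : p1 * p2 + p3 * p4 = a3 • p4 + a1 • p2) (h2 : q1 * q2 + q3 * q4 = b4 • q3 + b2 • q1) :
    (((2 : L) • p1 + (2 : L) • (b1 • (1 : R) - q1)) * ((2 : L) • p2 + (2 : L) • (b2 • (1 : R) - q2))
      - (-(s⁻¹ * s⁻¹)) • ((s • ((2 : L) • p1 - (2 : L) • (b1 • (1 : R) - q1)))
        * (s • ((2 : L) • p2 - (2 : L) • (b2 • (1 : R) - q2)))))
    + (((2 : L) • p3 + (2 : L) • (b3 • (1 : R) - q3)) * ((2 : L) • p4 + (2 : L) • (b4 • (1 : R) - q4))
      - (-(s⁻¹ * s⁻¹)) • ((s • ((2 : L) • p3 - (2 : L) • (b3 • (1 : R) - q3)))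
        * (s • ((2 : L) • p4 - (2 : L) • (b4 • (1 : R) - q4)))))
    = (2 : L) • ((a3 + b3) • ((2 : L) • p4 + (2 : L) • (b4 • (1 : R) - q4))
        - (-(s⁻¹ * s⁻¹) * (s * (a3 - b3)))
          • (s • ((2 : L) • p4 - (2 : L) • (b4 • (1 : R) - q4))))
      + (2 : L) • ((a1 + b1) • ((2 : L) • p2 + (2 : L) • (b2 • (1 : R) - q2))
        - (-(s⁻¹ * s⁻¹) * (s * (a1 - b1)))
          • (s • ((2 : L) • p2 - (2 : L) • (b2 • (1 : R) - q2)))) := by
  rw [← sub_eq_zero]
  have h : ∀ u v : R, u = 0 → v = 0 → (8 : L) • u + (8 : L) • v = 0 := by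
    intro u v hu hv; rw [hu, hv, smul_zero, add_zero]
  refine Eq.trans ?_ (h _ _ (sub_eq_zero.mpr h1) (sub_eq_zero.mpr h2))
  simp only [mul_add, add_mul, mul_sub, sub_mul, smul_mul_assoc, mul_smul_comm, one_mul, mul_one,
    smul_sub, smul_add]
  match_scalars <;> field_simp <;> ring

namespace UCtx

omit [CharZero K] in
theorem pl_J (C : UCtx d a J g ρ T l x s e f) (w : Fin n → L) :
    pl J s (J.map (algebraMap K L) *ᵥ w) = s • pl J s w := by
  rw [pl_apply, pl_apply, C.JJ, smul_smul, ← mul_assoc, inv_mul_cancel₀ C.s_ne, one_mul,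
    smul_comm s, smul_add s, smul_smul s, mul_inv_cancel₀ C.s_ne, one_smul, add_comm]

omit [CharZero K] in
theorem mi_J (C : UCtx d a J g ρ T l x s e f) (w : Fin n → L) :
    mi J s (J.map (algebraMap K L) *ᵥ w) = -(s • mi J s w) := by
  rw [mi_apply, mi_apply, C.JJ, smul_smul, ← mul_assoc, inv_mul_cancel₀ C.s_ne, one_mul,
    smul_comm s, smul_sub s, smul_smul s, mul_inv_cancel₀ C.s_ne, one_smul, ← smul_neg, neg_sub]

omit [CharZero K] in
theorem bb_J1 (C : UCtx d a J g ρ T l x s e f) (w y : Fin n → L) :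
    bb d J s (J.map (algebraMap K L) *ᵥ w) y = s * bb d J s w y := by
  rw [bb_apply, bb_apply, C.pl_J, map_smul, LinearMap.smul_apply, smul_eq_mul]

omit [CharZero K] in
theorem bb_J2 (C : UCtx d a J g ρ T l x s e f) (w y : Fin n → L) :
    bb d J s w (J.map (algebraMap K L) *ᵥ y) = -(s * bb d J s w y) := by
  rw [bb_apply, bb_apply, C.mi_J, map_neg, map_smul, smul_eq_mul]

omit [CharZero K] in
theorem be_J1 (C : UCtx d a J g ρ T l x s e f) (w y : Fin n → L) :
    be d J T s (ZZ T l x e f) (J.map (algebraMap K L) *ᵥ w) y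
      = s • be d J T s (ZZ T l x e f) w y := by
  rw [be, be, C.bb_J1, SS_apply, SS_apply, C.pl_J, map_smul, LinearMap.smul_apply]
  match_scalars <;> ring

omit [CharZero K] in
theorem be_J2 (C : UCtx d a J g ρ T l x s e f) (w y : Fin n → L) :
    be d J T s (ZZ T l x e f) w (J.map (algebraMap K L) *ᵥ y)
      = -(s • be d J T s (ZZ T l x e f) w y) := by
  rw [be, be, C.bb_J2, SS_apply, SS_apply, C.mi_J, map_neg, map_smul]
  match_scalars <;> ring

theorem bil_J (C : UCtx d a J g ρ T l x s e f) (w y : Fin n → L) :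
    bil (fun i => algebraMap K L (d i)) (J.map (algebraMap K L) *ᵥ w) y
      = s * (bb d J s w y - bb d J s y w) := by
  rw [C.bil_eq, C.bb_J1, C.bb_J2]; ring

theorem cc_eq (C : UCtx d a J g ρ T l x s e f) (w y : Fin n → L) :
    cc d J T s (ZZ T l x e f) w y
      = (2 : L) • be d J T s (ZZ T l x e f) w y
        + (2 : L) • (bb d J s y w • (1 : Mat m L) - be d J T s (ZZ T l x e f) y w) := by
  rw [cc, C.T_eq, C.bil_eq, C.bil_J, ← mul_assoc, inv_mul_cancel₀ C.s_ne, one_mul, be, be]
  match_scalars <;> ring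

theorem cc_symm (C : UCtx d a J g ρ T l x s e f) (w y : Fin n → L) :
    cc d J T s (ZZ T l x e f) w y + cc d J T s (ZZ T l x e f) y w
      = (2 * bil (fun i => algebraMap K L (d i)) w y) • (1 : Mat m L) := by
  rw [C.cc_eq, C.cc_eq, C.bil_eq]
  match_scalars <;> ring

theorem cc_J1 (C : UCtx d a J g ρ T l x s e f) (w y : Fin n → L) :
    cc d J T s (ZZ T l x e f) (J.map (algebraMap K L) *ᵥ w) y
      = s • ((2 : L) • be d J T s (ZZ T l x e f) w y
        - (2 : L) • (bb d J s y w • (1 : Mat m L) - be d J T s (ZZ T l x e f) y w)) := by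
  rw [C.cc_eq, C.be_J1, C.be_J2, C.bb_J2]
  match_scalars <;> ring

theorem cc_J2 (C : UCtx d a J g ρ T l x s e f) (w y : Fin n → L) :
    cc d J T s (ZZ T l x e f) w (J.map (algebraMap K L) *ᵥ y)
      = -(s • ((2 : L) • be d J T s (ZZ T l x e f) w y
        - (2 : L) • (bb d J s y w • (1 : Mat m L) - be d J T s (ZZ T l x e f) y w))) := by
  rw [C.cc_eq, C.be_J1, C.be_J2, C.bb_J1]
  match_scalars <;> ring

theorem cc_herm (C : UCtx d a J g ρ T l x s e f) (w y : Fin n → L) :
    cc d J T s (ZZ T l x e f) (J.map (algebraMap K L) *ᵥ w) (J.map (algebraMap K L) *ᵥ y)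
      = algebraMap K L a • cc d J T s (ZZ T l x e f) w y := by
  have h : algebraMap K L a = -(s * s) := by rw [C.s2, neg_neg]
  rw [C.cc_eq, C.cc_eq, C.be_J1, C.be_J2, C.be_J2, C.be_J1, C.bb_J1, C.bb_J2, h]
  match_scalars <;> ring

/-- the anticommutation relation -/
theorem cc_rel (C : UCtx d a J g ρ T l x s e f) (w y z t : Fin n → L) :
    (cc d J T s (ZZ T l x e f) w y * cc d J T s (ZZ T l x e f) z t
      - (algebraMap K L a)⁻¹ • (cc d J T s (ZZ T l x e f) (J.map (algebraMap K L) *ᵥ w) y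
        * cc d J T s (ZZ T l x e f) (J.map (algebraMap K L) *ᵥ z) t))
    + (cc d J T s (ZZ T l x e f) z y * cc d J T s (ZZ T l x e f) w t
      - (algebraMap K L a)⁻¹ • (cc d J T s (ZZ T l x e f) (J.map (algebraMap K L) *ᵥ z) y
        * cc d J T s (ZZ T l x e f) (J.map (algebraMap K L) *ᵥ w) t))
    = (2 : L) • (bil (fun i => algebraMap K L (d i)) z y • cc d J T s (ZZ T l x e f) w t
        - ((algebraMap K L a)⁻¹ * bil (fun i => algebraMap K L (d i))
            (J.map (algebraMap K L) *ᵥ z) y)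
          • cc d J T s (ZZ T l x e f) (J.map (algebraMap K L) *ᵥ w) t)
      + (2 : L) • (bil (fun i => algebraMap K L (d i)) w y • cc d J T s (ZZ T l x e f) z t
        - ((algebraMap K L a)⁻¹ * bil (fun i => algebraMap K L (d i))
            (J.map (algebraMap K L) *ᵥ w) y)
          • cc d J T s (ZZ T l x e f) (J.map (algebraMap K L) *ᵥ z) t) := by
  have hs := C.s_ne
  have ha : (algebraMap K L a)⁻¹ = -(s⁻¹ * s⁻¹) := by
    have h : algebraMap K L a = -(s * s) := by rw [C.s2, neg_neg]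
    rw [h]; field_simp
  have hq' := C.quad' w y z t
  have hq := C.quad y w t z
  simp only [C.cc_J1, C.bil_J, C.bil_eq, ha, C.cc_eq]
  exact rel_aux hs hq' hq

theorem cc_ef (C : UCtx d a J g ρ T l x s e f) :
    cc d J T s (ZZ T l x e f) e f = (2 : L) • comb l x := by
  have h1 : bb d J s f e = 0 := by
    rw [bb_apply, (C.mi_of C.Jf).1, map_zero, LinearMap.zero_apply]
  have h2 : be d J T s (ZZ T l x e f) f e = 0 := by
    rw [be, h1, SS_apply, (C.mi_of C.Jf).1, map_zero, LinearMap.zero_apply, smul_zero, zero_smul,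
      add_zero]
  rw [C.cc_eq, h1, h2, ← C.P_eq.1, zero_smul, sub_zero, smul_zero, add_zero]

omit [CharZero K] in
theorem cc_smul (_C : UCtx d a J g ρ T l x s e f) (Z : Mat m L) {t t' : L} (h : t * t' = 1)
    (w y : Fin n → L) : cc d J T s Z (t • w) (t' • y) = cc d J T s Z w y := by
  have h2 : ∀ u : L, u * t' * t = u := fun u => by rw [mul_assoc, mul_comm t', h, mul_one]
  simp only [cc, Matrix.mulVec_smul, map_smul, LinearMap.smul_apply, smul_smul, smul_eq_mul]
  match_scalars
  · linear_combination h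
  · linear_combination (bil (fun i => algebraMap K L (d i)) w y
      - s⁻¹ * bil (fun i => algebraMap K L (d i)) (J.map (algebraMap K L) *ᵥ w) y) * h
  · linear_combination (2 * s⁻¹ * bil (fun i => algebraMap K L (d i))
      (J.map (algebraMap K L) *ᵥ w) y) * h

/-- another hyperbolic pair with the same rotation -/
theorem cc_ef' (C : UCtx d a J g ρ T l x s e f) {e' f' : Fin n → L}
    (hh : IsHyp (fun i => algebraMap K L (d i)) e' f')
    (hty : comb l (fun i => ρ (x i)) = rot (fun i => algebraMap K L (d i)) e' f') :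
    cc d J T s (ZZ T l x e f) e' f' = (2 : L) • comb l x := by
  have hrot : rot (fun i => algebraMap K L (d i)) e' f' = rot (fun i => algebraMap K L (d i)) e f := by
    rw [← hty, C.type]
  have hee : bil (fun i => algebraMap K L (d i)) e e = 0 := C.hyp.1
  have hff : bil (fun i => algebraMap K L (d i)) f f = 0 := C.hyp.2.1
  have hef : bil (fun i => algebraMap K L (d i)) e f = 1 := C.hyp.2.2
  have hee' : bil (fun i => algebraMap K L (d i)) e' e' = 0 := hh.1
  have hff' : bil (fun i => algebraMap K L (d i)) f' f' = 0 := hh.2.1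
  have hef' : bil (fun i => algebraMap K L (d i)) e' f' = 1 := hh.2.2
  have hfe' : bil (fun i => algebraMap K L (d i)) f' e' = 1 := by rw [bil_symm]; exact hef'
  have he := congrArg (fun M => M *ᵥ e') hrot
  have hf := congrArg (fun M => M *ᵥ f') hrot
  simp only [rot_mulVec, rotV, hee', hfe', zero_smul, sub_zero, one_smul] at he
  simp only [rot_mulVec, rotV, hff', hef', zero_smul, zero_sub, one_smul] at hf
  have he1 : bil (fun i => algebraMap K L (d i)) e e' = 0 := by
    have h := congrArg (fun v => bil (fun i => algebraMap K L (d i)) e v) he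
    simp only [map_sub, map_smul, hee, hef, smul_eq_mul, mul_zero, mul_one, zero_sub] at h
    have h2 : (2 : L) * bil (fun i => algebraMap K L (d i)) e e' = 0 := by linear_combination h
    exact (mul_eq_zero.mp h2).resolve_left (two_neL K)
  have hf1 : bil (fun i => algebraMap K L (d i)) f f' = 0 := by
    have h := congrArg (fun v => bil (fun i => algebraMap K L (d i)) f v) hf
    simp only [map_sub, map_smul, map_neg, hff, bil_symm _ f e, hef, smul_eq_mul, mul_zero,
      mul_one, sub_zero] at h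
    have h2 : (2 : L) * bil (fun i => algebraMap K L (d i)) f f' = 0 := by linear_combination -h
    exact (mul_eq_zero.mp h2).resolve_left (two_neL K)
  rw [he1, zero_smul, sub_zero] at he
  rw [hf1, zero_smul, zero_sub, neg_inj] at hf
  obtain ⟨t, ht⟩ : ∃ t : L, e' = t • e := ⟨_, he⟩
  obtain ⟨t', ht'⟩ : ∃ t : L, f' = t • f := ⟨_, hf⟩
  have h1 : t * t' = 1 := by
    rw [ht, ht'] at hef'
    simp only [map_smul, LinearMap.smul_apply, hef, smul_eq_mul, mul_one] at hef'
    rw [mul_comm]; exact hef'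
  rw [ht, ht', C.cc_smul _ h1, C.cc_ef]

omit [CharZero K] in
/-- the action of `g` -/
theorem cc_comm (C : UCtx d a J g ρ T l x s e f) {y : Mat m K} (hy : y ∈ g) (w v : Fin n → L) :
    y.map (algebraMap K L) * cc d J T s (ZZ T l x e f) w v
      - cc d J T s (ZZ T l x e f) w v * y.map (algebraMap K L)
      = cc d J T s (ZZ T l x e f) ((ρ y).map (algebraMap K L) *ᵥ w) v
        + cc d J T s (ZZ T l x e f) w ((ρ y).map (algebraMap K L) *ᵥ v)
        + (s⁻¹ * bil (fun i => algebraMap K L (d i)) (J.map (algebraMap K L) *ᵥ w) v * 2)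
          • (y.map (algebraMap K L) * ZZ T l x e f - ZZ T l x e f * y.map (algebraMap K L)) := by
  have h1 := act1 (A := L) (C.equi y hy) w v
  have h2 := skew_bil (skew_map (L := L) (C.skew y hy)) w v
  have h3 := skew_bil (skew_map (L := L) (C.skew y hy)) (J.map (algebraMap K L) *ᵥ w) v
  have h4 : J.map (algebraMap K L) *ᵥ ((ρ y).map (algebraMap K L) *ᵥ w)
      = (ρ y).map (algebraMap K L) *ᵥ (J.map (algebraMap K L) *ᵥ w) := by
    rw [Matrix.mulVec_mulVec, Matrix.mulVec_mulVec, ← Matrix.map_mul, ← Matrix.map_mul,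
      C.alg y hy]
  rw [cc, cc, cc, h4, h2, h3, mul_add, mul_add, add_mul, add_mul]
  simp only [mul_smul_comm, smul_mul_assoc, mul_sub, sub_mul, mul_one, one_mul]
  rw [sub_eq_iff_eq_add] at h1
  rw [h1]
  match_scalars <;> ring

end UCtx

end Pool.Agent.Helper36.UKS
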