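import Mathlib
import Pool.Agent.Helper36.UKS.MainA

/-!
Module F, second part (helper36): from a stable subspace to the representation of the centraliser.
-/

open scoped Matrix

namespace Pool.Agent.Helper36.UKS

open Pool.Agent.Helper9.KSM Pool.Agent.Helper9.KS

variable {K L : Type} [Field K] [CharZero K] [Field L] [Algebra K L] {n m r : ℕ}
  {d : Fin n → K} {a : K} {J : Mat n K} {g : Submodule K (Mat m K)} {ρ : Mat m K →ₗ[K] Mat n K}
  {T : Fin n → Fin n → Mat m K} {l : Fin r → L} {x : Fin r → Mat m K} {s : L} {e f : Fin n → L}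

omit [CharZero K] in
theorem bi_eq_sK {p : ℕ} (κ : Fin n → Fin n → Mat p K) (x y : Fin n → K) :
    bi κ x y = sK κ x y := rfl

omit [CharZero K] in
/-- coordinates on a subspace -/
theorem coords (H : Submodule K (Fin m → K)) (hH : H ≠ ⊥) :
    ∃ (p : ℕ) (ι : Matrix (Fin m) (Fin p) K) (ι' : Matrix (Fin p) (Fin m) K), 0 < p ∧
      ι' * ι = 1 ∧ (∀ u, ι *ᵥ u ∈ H) ∧ ∀ v ∈ H, ι *ᵥ (ι' *ᵥ v) = v := by
  classical
  let b := Module.finBasis K H
  let F : (Fin (Module.finrank K H) → K) →ₗ[K] (Fin m → K) :=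
    H.subtype ∘ₗ (b.equivFun.symm : (Fin (Module.finrank K H) → K) →ₗ[K] H)
  have hF : LinearMap.ker F = ⊥ := by
    rw [LinearMap.ker_eq_bot]
    exact (Submodule.injective_subtype H).comp b.equivFun.symm.injective
  obtain ⟨G, hG⟩ := F.exists_leftInverse_of_injective hF
  refine ⟨Module.finrank K H, LinearMap.toMatrix' F, LinearMap.toMatrix' G, ?_, ?_, ?_, ?_⟩
  · have : Nontrivial H := Submodule.nontrivial_iff_ne_bot.mpr hH
    exact Module.finrank_pos
  · rw [← LinearMap.toMatrix'_comp, hG, LinearMap.toMatrix'_id]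
  · intro u
    rw [LinearMap.toMatrix'_mulVec]
    exact (b.equivFun.symm u).2
  · intro v hv
    rw [LinearMap.toMatrix'_mulVec, LinearMap.toMatrix'_mulVec]
    have h1 : F (b.equivFun ⟨v, hv⟩) = v := by
      simp [F]
    have h2 : G (F (b.equivFun ⟨v, hv⟩)) = b.equivFun ⟨v, hv⟩ := LinearMap.congr_fun hG _
    rw [h1] at h2
    rw [h2, h1]

omit [CharZero K] in
theorem map_mulVec' {p q : ℕ} (M : Matrix (Fin p) (Fin q) K) (v : Fin q → K) :
    M.map (algebraMap K L) *ᵥ ev L v = ev L (M *ᵥ v) := by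
  ext i
  simp [Matrix.mulVec, dotProduct, ev]

omit [CharZero K] in
theorem bil_expand (w y : Fin n → L) : bil (fun i => algebraMap K L (d i)) w y
    = ∑ i, ∑ j, w i * y j * algebraMap K L (bil d (bv K i) (bv K j)) := by
  rw [bil_apply]
  refine Finset.sum_congr rfl fun i _ => ?_
  rw [Finset.sum_eq_single i]
  · rw [bil_bv_bv, if_pos rfl]; ring
  · intro j _ hj
    rw [bil_bv_bv, if_neg (Ne.symm hj), map_zero, mul_zero]
  · intro hi; exact absurd (Finset.mem_univ i) hi

omit [CharZero K] in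
theorem bilJ_expand (w y : Fin n → L) :
    bil (fun i => algebraMap K L (d i)) (J.map (algebraMap K L) *ᵥ w) y
    = ∑ i, ∑ j, w i * y j * algebraMap K L (bil d (J *ᵥ bv K i) (bv K j)) := by
  rw [bil_apply, Finset.sum_comm]
  refine Finset.sum_congr rfl fun j _ => ?_
  rw [Matrix.mulVec, dotProduct, Finset.mul_sum, Finset.sum_mul]
  refine Finset.sum_congr rfl fun i _ => ?_
  rw [bil_bv, mulVec_bv_apply, map_mul, Matrix.map_apply]
  ring

omit [CharZero K] in
/-- the centre of the unitary Lie algebra -/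
theorem centre [CharZero K] (h4 : 4 ≤ n) (hd : ∀ i, d i ≠ 0) (hJ : IsMult d a J) {Y : Mat n K}
    (hY : IsSkew d Y) (hYJ : Y * J = J * Y)
    (h : ∀ i j, Y * XB d a J (bv K i) (bv K j) = XB d a J (bv K i) (bv K j) * Y) :
    ∃ c : K, Y = c • J := by
  have ha := hJ.a_ne
  have hall : ∀ w v, Y * XB d a J w v = XB d a J w v * Y := by
    intro w v
    rw [XB_expand, Finset.mul_sum, Finset.sum_mul]
    refine Finset.sum_congr rfl fun k _ => ?_
    rw [Finset.mul_sum, Finset.sum_mul]
    refine Finset.sum_congr rfl fun l _ => ?_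
    rw [mul_smul_comm, smul_mul_assoc, h]
  have hact : ∀ w v z, Y *ᵥ (XB d a J w v *ᵥ z) = XB d a J w v *ᵥ (Y *ᵥ z) := by
    intro w v z
    rw [Matrix.mulVec_mulVec, Matrix.mulVec_mulVec, hall]
  have hX : ∀ w v z, XB d a J w v *ᵥ z = bil d v z • w - bil d w z • v
      + a⁻¹ • (bil d (J *ᵥ v) z • J *ᵥ w - bil d (J *ᵥ w) z • J *ᵥ v) := by
    intro w v z
    rw [XB_apply, Matrix.add_mulVec, Matrix.smul_mulVec, rot_mulVec, rot_mulVec]
    rfl
  have hself : ∀ {M : Mat n K}, IsSkew d M → ∀ z, bil d z (M *ᵥ z) = 0 := by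
    intro M hM z
    have h1 := skew_bil hM z z
    rw [bil_symm] at h1
    have h3 : (2 : K) * bil d z (M *ᵥ z) = 0 := by linear_combination h1
    exact (mul_eq_zero.mp h3).resolve_left two_ne_zero
  set v : Fin n → K := bv K ⟨0, by omega⟩ with hv
  have hvv : bil d v v ≠ 0 := by
    rw [hv, bil_bv_bv, if_pos rfl]; exact hd _
  have hJv : bil d (J *ᵥ v) v = 0 := by rw [bil_symm]; exact hself hJ.skew v
  have hsw : ∀ w z, bil d (J *ᵥ w) z = - bil d w (J *ᵥ z) := skew_bil hJ.skew
  have hYJv : ∀ z, Y *ᵥ (J *ᵥ z) = J *ᵥ (Y *ᵥ z) := by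
    intro z
    rw [Matrix.mulVec_mulVec, Matrix.mulVec_mulVec, hYJ]
  have hYv : ∃ c : K, Y *ᵥ v = c • J *ᵥ v := by
    have h1 := hact v (J *ᵥ v) v
    have h0 : bil d v (J *ᵥ v) = 0 := hself hJ.skew v
    have h0' : bil d v (J *ᵥ (Y *ᵥ v)) = - bil d (J *ᵥ v) (Y *ᵥ v) := by
      rw [hsw, neg_neg]
    simp only [hX, hsw v, JJK hJ, hself hY v, h0, map_neg, map_smul, LinearMap.neg_apply,
      LinearMap.smul_apply, smul_eq_mul, neg_zero, zero_smul, zero_sub, mul_zero, sub_zero,
      Matrix.mulVec_neg, Matrix.mulVec_add, Matrix.mulVec_smul, hYJv] at h1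
    have h2 := congrArg (fun z => J *ᵥ z) h1
    simp only [Matrix.mulVec_neg, Matrix.mulVec_add, Matrix.mulVec_smul, JJK hJ] at h2
    refine ⟨-(bil d v (J *ᵥ (Y *ᵥ v))) / (a * bil d v v), ?_⟩
    have h3 : (2 * a * bil d v v) • (Y *ᵥ v) = (-(2 * bil d v (J *ᵥ (Y *ᵥ v)))) • (J *ᵥ v) := by
      refine Eq.trans ?_ (h2.trans ?_)
      · match_scalars
        field_simp
        ring
      · match_scalars
        field_simp
        ring
    have h5 : (2 * a * bil d v v) ≠ 0 := mul_ne_zero (mul_ne_zero two_ne_zero ha) hvv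
    refine (smul_right_injective _ h5) ?_
    simp only []
    rw [h3, smul_smul]
    congr 1
    field_simp
  obtain ⟨c, hc⟩ := hYv
  refine ⟨c, ?_⟩
  apply Matrix.mulVec_injective
  funext w
  have h1 := hact w v v
  have h0 : bil d v (J *ᵥ v) = 0 := hself hJ.skew v
  simp only [hX, hc, hsw v, hsw w, JJK hJ, h0, map_neg, map_smul, smul_eq_mul, neg_zero,
    zero_smul, zero_sub, mul_zero, Matrix.mulVec_neg, Matrix.mulVec_sub, Matrix.mulVec_add,
    Matrix.mulVec_smul, hYJv] at h1
  rw [← sub_eq_zero] at h1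
  rw [Matrix.smul_mulVec]
  refine (smul_right_injective _ hvv) ?_
  simp only []
  rw [← sub_eq_zero]
  refine Eq.trans ?_ h1
  match_scalars <;> field_simp <;> ring

/-- from a stable subspace to the representation of the centraliser -/
theorem UCtx.build (C : UCtx d a J g ρ T l x s e f) (H : Submodule K (Fin m → K)) (hH : H ≠ ⊥)
    (hg : ∀ y ∈ g, ∀ v ∈ H, y *ᵥ v ∈ H)
    (hZ : ∀ v ∈ H, ∃ v' ∈ H, s⁻¹ • (((2 : L) • ZZ T l x e f - 1) *ᵥ ev L v) = ev L v')
    (hZg : ∀ y ∈ g, ∀ v ∈ H, y.map (algebraMap K L) *ᵥ (ZZ T l x e f *ᵥ ev L v)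
      = ZZ T l x e f *ᵥ (y.map (algebraMap K L) *ᵥ ev L v))
    (htens : ∀ χ φ, IsEquiv g ρ χ φ → ∀ i v, φ i *ᵥ v ∈ H) (h4 : 4 ≤ n)
    (hF : ∀ w v w' v', bil d (J *ᵥ w) v + bil d (J *ᵥ w') v' = 0 →
      (∀ u ∈ H, (sK T w v + sK T w' v') *ᵥ u = 0) → sK T w v + sK T w' v' = 0) :
    ∃ (p : ℕ) (ι : Matrix (Fin m) (Fin p) K) (ι' : Matrix (Fin p) (Fin m) K)
      (κ : Fin n → Fin n → Mat p K), IsUnitKS d a J g ρ l x ι ι' κ := by
  obtain ⟨p, ι, ι', hp, hinv, hmem, hrange⟩ := coords H hH
  -- matrices preserving `H`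
  have hR : ∀ M : Mat m K, (∀ v ∈ H, M *ᵥ v ∈ H) → M * ι = ι * (ι' * M * ι) := by
    intro M hM
    apply Matrix.mulVec_injective
    funext u
    rw [← Matrix.mulVec_mulVec, ← Matrix.mulVec_mulVec, ← Matrix.mulVec_mulVec,
      ← Matrix.mulVec_mulVec, hrange _ (hM _ (hmem u))]
  -- the operator `ζ`
  have hζ : ∃ ζ : Mat p K, s⁻¹ • (((2 : L) • ZZ T l x e f - 1) * ι.map (algebraMap K L))
      = ι.map (algebraMap K L) * ζ.map (algebraMap K L) := by
    choose w hw1 hw2 using fun j : Fin p => hZ _ (hmem (Pi.single j 1))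
    refine ⟨ι' * Matrix.of fun i j => w j i, ?_⟩
    have h1 : ι * (ι' * Matrix.of fun i j => w j i) = Matrix.of fun i j => w j i := by
      apply Matrix.mulVec_injective
      funext u
      rw [← Matrix.mulVec_mulVec, ← Matrix.mulVec_mulVec]
      refine hrange _ ?_
      have h2 : (Matrix.of fun i j => w j i) *ᵥ u = ∑ j, u j • w j := by
        ext i
        simp [Matrix.mulVec, dotProduct, Finset.sum_apply, mul_comm]
      rw [h2]
      exact H.sum_mem fun j _ => H.smul_mem _ (hw1 j)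
    rw [← Matrix.map_mul, h1]
    ext i j
    have h3 := congrFun (hw2 j) i
    have h4 : ev L (ι *ᵥ Pi.single j 1) = (ι.map (algebraMap K L)) *ᵥ Pi.single j 1 := by
      rw [← map_mulVec']
      congr 1
      ext k
      simp [ev, Pi.single_apply, apply_ite (algebraMap K L)]
    rw [h4, Matrix.mulVec_mulVec, Pi.smul_apply, Matrix.mulVec_single_one] at h3
    rw [Matrix.smul_apply]
    exact h3
  obtain ⟨ζ, hζ⟩ := hζ
  have hinvL : ι'.map (algebraMap K L) * ι.map (algebraMap K L) = 1 := by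
    rw [← Matrix.map_mul, hinv, Matrix.map_one _ (map_zero _) (map_one _)]
  have canc : ∀ {A B : Mat p L}, ι.map (algebraMap K L) * A = ι.map (algebraMap K L) * B →
      A = B := by
    intro A B h
    have h2 := congrArg (fun M => ι'.map (algebraMap K L) * M) h
    simp only [← Matrix.mul_assoc, hinvL, Matrix.one_mul] at h2
    exact h2
  -- the matrices `κ`
  let κ : Fin n → Fin n → Mat p K := fun i j => ι' * T i j * ι
    + bil d (bv K i) (bv K j) • (1 : Mat p K) + bil d (J *ᵥ bv K i) (bv K j) • ζ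
  have hκ : ∀ i j, κ i j = ι' * T i j * ι
    + bil d (bv K i) (bv K j) • (1 : Mat p K) + bil d (J *ᵥ bv K i) (bv K j) • ζ := fun _ _ => rfl
  -- intertwining
  have hint : ∀ w y : Fin n → L, cc d J T s (ZZ T l x e f) w y * ι.map (algebraMap K L)
      = ι.map (algebraMap K L) * sA L κ w y := by
    intro w y
    have h1 : ∀ i j, ι.map (algebraMap K L) * (κ i j).map (algebraMap K L)
        = (T i j).map (algebraMap K L) * ι.map (algebraMap K L)
          + algebraMap K L (bil d (bv K i) (bv K j)) • ι.map (algebraMap K L)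
          + (s⁻¹ * algebraMap K L (bil d (J *ᵥ bv K i) (bv K j))) •
            (((2 : L) • ZZ T l x e f - 1) * ι.map (algebraMap K L)) := by
      intro i j
      rw [hκ, map_add', map_add', map_smul', map_smul', Matrix.mul_add, Matrix.mul_add,
        Matrix.mul_smul, Matrix.mul_smul, ← hζ, Matrix.map_one _ (map_zero _) (map_one _),
        Matrix.mul_one, ← Matrix.map_mul, ← hR _ (hg _ (C.memT i j)), Matrix.map_mul,
        smul_smul, mul_comm (algebraMap K L (bil d (J *ᵥ bv K i) (bv K j)))]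
    rw [cc, sA_apply, sA_apply, bil_expand, bilJ_expand, Matrix.add_mul, Matrix.add_mul,
      Matrix.smul_mul, Matrix.smul_mul, Matrix.one_mul, Matrix.mul_sum, Matrix.sum_mul,
      Finset.mul_sum, Finset.sum_smul, Finset.sum_smul, ← Finset.sum_add_distrib,
      ← Finset.sum_add_distrib]
    refine Finset.sum_congr rfl fun i _ => ?_
    rw [Matrix.mul_sum, Matrix.sum_mul, Finset.mul_sum, Finset.sum_smul, Finset.sum_smul,
      ← Finset.sum_add_distrib, ← Finset.sum_add_distrib]
    refine Finset.sum_congr rfl fun j _ => ?_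
    rw [Matrix.mul_smul, h1, Matrix.smul_mul, smul_add, smul_add, smul_smul, smul_smul,
      mul_left_comm s⁻¹]
  have hmap : ∀ w y : Fin n → K, (bi κ w y).map (algebraMap K L) = sA L κ (ev L w) (ev L y) := by
    intro w y
    rw [bi_eq_sK, sA_ev]
  have hmapJ : ∀ w : Fin n → K, ev L (J *ᵥ w) = J.map (algebraMap K L) *ᵥ ev L w :=
    fun w => (map_mulVec' J w).symm
  have hform : ∀ w y : Fin n → K, algebraMap K L (form d w y)
      = bil (fun i => algebraMap K L (d i)) (ev L w) (ev L y) := by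
    intro w y
    rw [bil_ev]; rfl
  have hprod : ∀ w y z t : Fin n → L, ι.map (algebraMap K L) * (sA L κ w y * sA L κ z t)
      = cc d J T s (ZZ T l x e f) w y * cc d J T s (ZZ T l x e f) z t
        * ι.map (algebraMap K L) := by
    intro w y z t
    rw [Matrix.mul_assoc (cc d J T s (ZZ T l x e f) w y), hint z t, ← Matrix.mul_assoc, ← hint w y,
      Matrix.mul_assoc]
  refine ⟨p, ι, ι', κ, hp, hinv, ⟨?_, ?_, ?_⟩, ?_, ?_, ?_, ?_⟩
  · -- symm
    intro w y
    apply map_inj (A := L)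
    rw [map_add', map_smul', hmap, hmap, Matrix.map_one _ (map_zero _) (map_one _)]
    apply canc
    rw [Matrix.mul_add, ← hint, ← hint, ← Matrix.add_mul, C.cc_symm, map_mul, hform, map_ofNat,
      Matrix.smul_mul, Matrix.one_mul, Matrix.mul_smul, Matrix.mul_one]
  · -- herm
    intro w y
    apply map_inj (A := L)
    rw [map_smul', hmap, hmap, hmapJ, hmapJ]
    apply canc
    rw [← hint, C.cc_herm, Matrix.mul_smul, ← hint, Matrix.smul_mul]
  · -- rel
    intro w y z t
    apply map_inj (A := L)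
    simp only [map_add', Pool.Agent.Helper9.KSM.map_sub', map_smul', map_mul', map_mul, map_ofNat,
      hmap, hmapJ, hform, map_inv₀]
    apply canc
    simp only [Matrix.mul_add, Matrix.mul_sub, Matrix.mul_smul, hprod, ← hint]
    have h := congrArg (fun M => M * ι.map (algebraMap K L))
      (C.cc_rel (ev L w) (ev L y) (ev L z) (ev L t))
    simp only [Matrix.add_mul, Matrix.sub_mul, Matrix.smul_mul] at h
    exact h
  · -- inv
    intro y hy
    obtain ⟨y', hy'⟩ : ∃ y' : Mat p K, y * ι = ι * y' := ⟨_, hR y (hg y hy)⟩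
    refine ⟨y', hy', fun i j => ?_⟩
    have hyι : y.map (algebraMap K L) * ι.map (algebraMap K L)
        = ι.map (algebraMap K L) * y'.map (algebraMap K L) := by
      rw [← Matrix.map_mul, hy', Matrix.map_mul]
    have hz : (y.map (algebraMap K L) * ZZ T l x e f - ZZ T l x e f * y.map (algebraMap K L))
        * ι.map (algebraMap K L) = 0 := by
      rw [Matrix.sub_mul, sub_eq_zero]
      ext i' j'
      have h := congrFun (hZg y hy _ (hmem (Pi.single j' 1))) i'
      have h4 : ev L (ι *ᵥ Pi.single j' 1) = (ι.map (algebraMap K L)) *ᵥ Pi.single j' 1 := by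
        rw [← map_mulVec']
        congr 1
        ext k
        simp [ev, Pi.single_apply, apply_ite (algebraMap K L)]
      rw [h4] at h
      simp only [Matrix.mulVec_mulVec, Matrix.mulVec_single_one] at h
      exact h
    have hc := C.cc_comm hy (ev L (bv K i)) (ev L (bv K j))
    have hc2 := congrArg (fun M => M * ι.map (algebraMap K L)) hc
    simp only [Matrix.sub_mul, Matrix.add_mul, Matrix.smul_mul] at hc2
    rw [← Matrix.sub_mul _ (ZZ T l x e f * y.map (algebraMap K L)), hz, smul_zero, add_zero,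
      Matrix.mul_assoc, hint, Matrix.mul_assoc _ (y.map (algebraMap K L)), hyι,
      ← Matrix.mul_assoc, ← Matrix.mul_assoc, hyι, hint, hint, hint,
      Matrix.mul_assoc _ (y'.map (algebraMap K L)) (sA L κ (ev L (bv K i)) (ev L (bv K j))),
      Matrix.mul_assoc _ (sA L κ (ev L (bv K i)) (ev L (bv K j))) (y'.map (algebraMap K L)),
      ← Matrix.mul_sub, ← Matrix.mul_add] at hc2
    have hc3 := canc hc2
    rw [map_mulVec', map_mulVec', sA_ev, sA_ev, sA_ev, sK_bv, ← Matrix.map_mul, ← Matrix.map_mul,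
      ← Pool.Agent.Helper9.KSM.map_sub', ← map_add'] at hc3
    rw [map_inj hc3, mulVec_bv, mulVec_bv, map_sum, map_sum, LinearMap.sum_apply,
      ← Finset.sum_add_distrib]
    refine Finset.sum_congr rfl fun k _ => ?_
    rw [map_smul, map_smul, LinearMap.smul_apply, sK_bv, sK_bv]
  · -- hodge
    intro e' f' hh hty
    rw [← Matrix.smul_mul, ← C.cc_ef' hh hty, hint]
    rfl
  · -- faithfulness
    intro y hy hyι
    refine centre h4 C.hd C.mult (C.skew y hy) (C.alg y hy) (fun i j => ?_)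
    have h1 := actK (fun i j => C.equi y hy i j) (bv K i) (bv K j)
    have hyH : ∀ u ∈ H, y *ᵥ u = 0 := by
      intro u hu
      rw [← hrange u hu, Matrix.mulVec_mulVec, hyι, Matrix.zero_mulVec]
    have h2 := hF (ρ y *ᵥ bv K i) (bv K j) (bv K i) (ρ y *ᵥ bv K j) (by
      have h3 := skew_bil (C.skew y hy) (J *ᵥ bv K i) (bv K j)
      rw [Matrix.mulVec_mulVec, C.alg y hy, ← Matrix.mulVec_mulVec] at h3
      rw [h3, neg_add_cancel]) (by
      intro u hu
      rw [← h1, Matrix.sub_mulVec, ← Matrix.mulVec_mulVec, ← Matrix.mulVec_mulVec, hyH u hu,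
        Matrix.mulVec_zero, sub_zero, sK_bv]
      exact hyH _ (hg _ (C.memT i j) u hu))
    rw [← h1, sK_bv] at h2
    have h3 := C.hom y hy _ (C.memT i j)
    rw [h2, map_zero] at h3
    rw [← sub_eq_zero, XB_apply, ← C.rhoT, ← h3]
  · -- tensor
    intro χ φ hφ i
    have hφ' : IsEquiv g ρ χ (fun i => (φ i).transpose) := by
      refine ⟨hφ.char, fun y hy i => ?_⟩
      have h := congrArg Matrix.transpose (hφ.equi y hy i)
      simp only [Matrix.transpose_sum, Matrix.transpose_smul, Matrix.transpose_sub,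
        Matrix.transpose_add, Matrix.transpose_mul, Matrix.transpose_transpose] at h
      rw [h, add_comm]
    have hcol : ∀ M : Mat m K, (∀ v, M *ᵥ v ∈ H) → ι * (ι' * M) = M := by
      intro M hM
      apply Matrix.mulVec_injective
      funext u
      rw [← Matrix.mulVec_mulVec, ← Matrix.mulVec_mulVec, hrange _ (hM u)]
    have h1 := hcol _ (htens χ φ hφ i)
    have h2 := congrArg Matrix.transpose (hcol _ (htens χ _ hφ' i))
    rw [Matrix.transpose_mul, Matrix.transpose_mul, Matrix.transpose_transpose] at h2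
    refine ⟨ι' * φ i * ι'.transpose, ?_⟩
    rw [← Matrix.mul_assoc, ← Matrix.mul_assoc, Matrix.mul_assoc ι ι' (φ i), h1, h2]

end Pool.Agent.Helper36.UKS
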