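import Mathlib
import Pool.Agent.Helper36.UKS.Core

/-!
Module D: equivariant maps `V → H ⊗ H`.
-/

open scoped Matrix

namespace Pool.Agent.Helper36.UKS

open Pool.Agent.Helper9.KSM

variable {K L : Type} [Field K] [CharZero K] [Field L] [Algebra K L] {n m r : ℕ}
  {d : Fin n → K} {a : K} {J : Mat n K} {g : Submodule K (Mat m K)} {ρ : Mat m K →ₗ[K] Mat n K}
  {T : Fin n → Fin n → Mat m K} {l : Fin r → L} {x : Fin r → Mat m K} {s : L} {e f : Fin n → L}
  {E D τ : Mat m K}

section Extension

variable (L)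

/-- the `L`-linear extension of `φ` -/
noncomputable def mL (φ : Fin n → Mat m K) : (Fin n → L) →ₗ[L] Mat m L where
  toFun v := ∑ k, v k • (φ k).map (algebraMap K L)
  map_add' v w := by simp only [Pi.add_apply, add_smul, Finset.sum_add_distrib]
  map_smul' t v := by
    simp only [Pi.smul_apply, smul_eq_mul, mul_smul, Finset.smul_sum, RingHom.id_apply]

/-- the `L`-linear extension of a character -/
noncomputable def cL (χ : Mat m K →ₗ[K] K) : Mat m L →ₗ[L] L where
  toFun Y := ∑ p, ∑ q, algebraMap K L (χ (Matrix.single p q 1)) * Y p q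
  map_add' v w := by
    simp only [Matrix.add_apply, mul_add, Finset.sum_add_distrib]
  map_smul' t v := by
    simp only [Matrix.smul_apply, smul_eq_mul, Finset.mul_sum, RingHom.id_apply]
    exact Finset.sum_congr rfl fun p _ => Finset.sum_congr rfl fun q _ => by ring

variable {L}

omit [CharZero K] in
theorem mL_apply (φ : Fin n → Mat m K) (v : Fin n → L) :
    mL L φ v = ∑ k, v k • (φ k).map (algebraMap K L) := rfl

omit [CharZero K] in
theorem cL_map (χ : Mat m K →ₗ[K] K) (y : Mat m K) :
    cL L χ (y.map (algebraMap K L)) = algebraMap K L (χ y) := by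
  have h1 : cL L χ (y.map (algebraMap K L))
      = ∑ p, ∑ q, algebraMap K L (χ (Matrix.single p q 1)) * (y.map (algebraMap K L)) p q := rfl
  have h2 : χ y = ∑ p, ∑ q, χ (Matrix.single p q 1) * y p q := by
    conv_lhs => rw [Matrix.matrix_eq_sum_single y]
    rw [map_sum]
    refine Finset.sum_congr rfl fun p _ => ?_
    rw [map_sum]
    refine Finset.sum_congr rfl fun q _ => ?_
    have : Matrix.single p q (y p q) = (y p q) • (Matrix.single p q 1 : Mat m K) := by
      rw [Matrix.smul_single, smul_eq_mul, mul_one]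
    rw [this, map_smul, smul_eq_mul, mul_comm]
  rw [h1, h2, map_sum]
  refine Finset.sum_congr rfl fun p _ => ?_
  rw [map_sum]
  refine Finset.sum_congr rfl fun q _ => ?_
  rw [map_mul, Matrix.map_apply]

omit [CharZero K] in
theorem equi1 {χ : Mat m K →ₗ[K] K} {φ : Fin n → Mat m K} {y : Mat m K}
    (h : ∀ i, ∑ k, ρ y k i • φ k = y * φ i + φ i * y.transpose - χ y • φ i) (v : Fin n → L) :
    mL L φ ((ρ y).map (algebraMap K L) *ᵥ v)
      = y.map (algebraMap K L) * mL L φ v + mL L φ v * (y.map (algebraMap K L)).transpose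
        - cL L χ (y.map (algebraMap K L)) • mL L φ v := by
  have h1 : ∀ i, ∑ k, algebraMap K L (ρ y k i) • (φ k).map (algebraMap K L)
      = y.map (algebraMap K L) * (φ i).map (algebraMap K L)
        + (φ i).map (algebraMap K L) * (y.map (algebraMap K L)).transpose
        - algebraMap K L (χ y) • (φ i).map (algebraMap K L) := by
    intro i
    have h2 : (∑ k, ρ y k i • φ k).map (algebraMap K L)
        = (y * φ i + φ i * y.transpose - χ y • φ i).map (algebraMap K L) := by rw [h i]
    rw [map_sum', Helper9.KSM.map_sub', Helper9.KSM.map_add', Helper9.KSM.map_mul',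
      Helper9.KSM.map_mul', Helper9.KSM.map_smul', Matrix.transpose_map] at h2
    rw [← h2]
    exact Finset.sum_congr rfl fun k _ => (Helper9.KSM.map_smul' _ _).symm
  rw [cL_map, mL_apply, mL_apply, Finset.mul_sum, Finset.sum_mul, Finset.smul_sum,
    ← Finset.sum_add_distrib, ← Finset.sum_sub_distrib]
  calc _ = ∑ k, ∑ i, (v i * algebraMap K L (ρ y k i)) • (φ k).map (algebraMap K L) := by
        refine Finset.sum_congr rfl fun k _ => ?_
        rw [← Finset.sum_smul]
        congr 1
        rw [Matrix.mulVec, dotProduct]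
        exact Finset.sum_congr rfl fun i _ => by rw [Matrix.map_apply, mul_comm]
    _ = ∑ i, v i • ∑ k, algebraMap K L (ρ y k i) • (φ k).map (algebraMap K L) := by
        rw [Finset.sum_comm]
        refine Finset.sum_congr rfl fun i _ => ?_
        rw [Finset.smul_sum]
        exact Finset.sum_congr rfl fun k _ => by rw [smul_smul]
    _ = _ := by
        refine Finset.sum_congr rfl fun i _ => ?_
        rw [h1 i, smul_sub, smul_add, mul_smul_comm, smul_mul_assoc]
        congr 1
        rw [smul_comm]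

omit [CharZero K] in
theorem equi2 {ι : Type} [Fintype ι] {χ : Mat m K →ₗ[K] K} {φ : Fin n → Mat m K} (c : ι → L)
    {y : ι → Mat m K}
    (h : ∀ q i, ∑ k, ρ (y q) k i • φ k
      = y q * φ i + φ i * (y q).transpose - χ (y q) • φ i) (v : Fin n → L) :
    mL L φ ((∑ q, c q • (ρ (y q)).map (algebraMap K L)) *ᵥ v)
      = (∑ q, c q • (y q).map (algebraMap K L)) * mL L φ v
        + mL L φ v * (∑ q, c q • (y q).map (algebraMap K L)).transpose
        - cL L χ (∑ q, c q • (y q).map (algebraMap K L)) • mL L φ v := by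
  rw [Matrix.sum_mulVec, map_sum, map_sum, Finset.sum_mul, Matrix.transpose_sum, Finset.mul_sum,
    Finset.sum_smul, ← Finset.sum_add_distrib, ← Finset.sum_sub_distrib]
  refine Finset.sum_congr rfl fun q _ => ?_
  rw [Matrix.smul_mulVec, map_smul, equi1 (h q), map_smul, smul_sub, smul_add, smul_mul_assoc,
    Matrix.transpose_smul, mul_smul_comm, smul_assoc]

omit [CharZero K] in
theorem cL_comm {ι κ : Type} [Fintype ι] [Fintype κ] {χ : Mat m K →ₗ[K] K} (c : ι → L)
    (c' : κ → L) {y : ι → Mat m K} {z : κ → Mat m K}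
    (h : ∀ q q', χ (y q * z q' - z q' * y q) = 0) :
    cL L χ ((∑ q, c q • (y q).map (algebraMap K L)) * (∑ q, c' q • (z q).map (algebraMap K L))
      - (∑ q, c' q • (z q).map (algebraMap K L)) * (∑ q, c q • (y q).map (algebraMap K L))) = 0 := by
  have h1 : (∑ q, c q • (y q).map (algebraMap K L)) * (∑ q, c' q • (z q).map (algebraMap K L))
      - (∑ q, c' q • (z q).map (algebraMap K L)) * (∑ q, c q • (y q).map (algebraMap K L))
      = ∑ q, ∑ q', (c q * c' q') • (y q * z q' - z q' * y q).map (algebraMap K L) := by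
    rw [Finset.sum_mul_sum, Finset.sum_mul_sum, Finset.sum_comm (s := Finset.univ (α := κ)),
      ← Finset.sum_sub_distrib]
    refine Finset.sum_congr rfl fun q _ => ?_
    rw [← Finset.sum_sub_distrib]
    refine Finset.sum_congr rfl fun q' _ => ?_
    rw [Helper9.KSM.map_sub', Helper9.KSM.map_mul', Helper9.KSM.map_mul', smul_mul_smul_comm, smul_mul_smul_comm, smul_sub,
      mul_comm (c' q')]
  rw [h1, map_sum]
  refine Finset.sum_eq_zero fun q _ => ?_
  rw [map_sum]
  refine Finset.sum_eq_zero fun q' _ => ?_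
  rw [map_smul, cL_map, h, map_zero, smul_zero]

end Extension

namespace UCtx

omit [CharZero K] in
/-- the unitary rotation of `w ∈ W`, `y ∈ W'` is twice the rotation -/
theorem rot_two (C : UCtx d a J g ρ T l x s e f) (w y : Fin n → L) :
    rot (fun i => algebraMap K L (d i)) (pl J s w) (mi J s y)
        + (algebraMap K L a)⁻¹ • rot (fun i => algebraMap K L (d i))
          (J.map (algebraMap K L) *ᵥ (pl J s w)) (J.map (algebraMap K L) *ᵥ (mi J s y))
      = (2 : L) • rot (fun i => algebraMap K L (d i)) (pl J s w) (mi J s y) := by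
  have ha : algebraMap K L a ≠ 0 := by rw [Ne, map_eq_zero]; exact C.mult.a_ne
  rw [C.J_pl, C.J_mi, ← rotL_apply, ← rotL_apply, map_smul, LinearMap.smul_apply, map_neg,
    map_smul, smul_neg, smul_smul, smul_neg, smul_smul, ← neg_smul]
  have : -((algebraMap K L a)⁻¹ * (s * s)) = 1 := by
    rw [C.s2, mul_neg, neg_neg, inv_mul_cancel₀ ha]
  rw [this, one_smul, two_smul]

/-- equivariance under `S(w, y)` -/
theorem equiS (C : UCtx d a J g ρ T l x s e f) {χ : Mat m K →ₗ[K] K} {φ : Fin n → Mat m K}
    (hφ : IsEquiv g ρ χ φ) (w y v : Fin n → L) :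
    mL L φ (rot (fun i => algebraMap K L (d i)) (pl J s w) (mi J s y) *ᵥ v)
      = SS J T s w y * mL L φ v + mL L φ v * (SS J T s w y).transpose
        - cL L χ (SS J T s w y) • mL L φ v := by
  have h := equi2 (L := L) (ι := Fin n × Fin n) (χ := χ) (φ := φ) (ρ := ρ)
    (fun q => (pl J s w) q.1 * (mi J s y) q.2) (y := fun q => T q.1 q.2)
    (fun q i => hφ.equi _ (C.memT q.1 q.2) i) v
  rw [C.rhoT_ext, C.rot_two, Matrix.smul_mulVec, map_smul, Fintype.sum_prod_type] at h
  have h2 : sA L T (pl J s w) (mi J s y) = (2 : L) • SS J T s w y := by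
    rw [SS_apply, smul_smul, mul_inv_cancel₀ (two_neL K), one_smul]
  have h3 : ∑ i, ∑ j, ((pl J s w) i * (mi J s y) j) • (T i j).map (algebraMap K L)
      = (2 : L) • SS J T s w y := by rw [← h2, sA_apply]
  rw [h3, Matrix.transpose_smul, smul_mul_assoc, mul_smul_comm, map_smul, smul_assoc, ← smul_add,
    ← smul_sub] at h
  exact smul_right_injective (Mat m L) (two_neL K : (2 : L) ≠ 0) h

omit [CharZero K] in
/-- equivariance under `P` -/
theorem equiP (C : UCtx d a J g ρ T l x s e f) {χ : Mat m K →ₗ[K] K} {φ : Fin n → Mat m K}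
    (hφ : IsEquiv g ρ χ φ) (v : Fin n → L) :
    mL L φ (rot (fun i => algebraMap K L (d i)) e f *ᵥ v)
      = comb l x * mL L φ v + mL L φ v * (comb l x).transpose
        - cL L χ (comb l x) • mL L φ v := by
  have h := equi2 (L := L) (χ := χ) (φ := φ) (ρ := ρ) l (y := x)
    (fun q i => hφ.equi _ (C.memx q) i) v
  have h2 : ∑ q, l q • (ρ (x q)).map (algebraMap K L)
        = rot (fun i => algebraMap K L (d i)) e f := C.type
  rw [h2] at h
  exact h

/-- the character on the lifts -/
theorem cS (C : UCtx d a J g ρ T l x s e f) {χ : Mat m K →ₗ[K] K} {φ : Fin n → Mat m K}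
    (hφ : IsEquiv g ρ χ φ) (w y : Fin n → L) :
    cL L χ (SS J T s w y) = bb d J s w y * cL L χ (SS J T s e f) := by
  have h := C.SScomm w f e y
  rw [C.bb_ef, one_smul] at h
  have h1 : cL L χ (SS J T s w f * SS J T s e y - SS J T s e y * SS J T s w f) = 0 := by
    have h2 := cL_comm (L := L) (ι := Fin n × Fin n) (κ := Fin n × Fin n) (χ := χ)
      (fun q => (pl J s w) q.1 * (mi J s f) q.2) (fun q => (pl J s e) q.1 * (mi J s y) q.2)
      (y := fun q => T q.1 q.2) (z := fun q => T q.1 q.2)
      (fun q q' => hφ.char _ (C.memT q.1 q.2) _ (C.memT q'.1 q'.2))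
    rw [Fintype.sum_prod_type, Fintype.sum_prod_type] at h2
    rw [SS_apply, SS_apply, sA_apply, sA_apply, smul_mul_smul_comm, smul_mul_smul_comm, ← smul_sub,
      map_smul]
    simp only [] at h2
    rw [h2, smul_zero]
  rw [h, map_sub, map_smul, smul_eq_mul, sub_eq_zero] at h1
  exact h1

/-- the lifts on the image of `1 - E` -/
theorem lowS (C : UCtx d a J g ρ T l x s e f)
    (hE : ECtx d a J g T s (ZZ T l x e f) E D τ) (w y : Fin n → L) :
    SS J T s w y * (1 - E).map (algebraMap K L)
      = (s⁻¹ * bb d J s w y) • τ.map (algebraMap K L) := by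
  have h1 : ∀ u v : Fin n → L, sA L T u v * (1 - E).map (algebraMap K L)
      = (-(2 * (algebraMap K L a)⁻¹ * bil (fun i => algebraMap K L (d i))
          (J.map (algebraMap K L) *ᵥ u) v)) • τ.map (algebraMap K L) := by
    intro u v
    have h2 : ∀ i j, (T i j).map (algebraMap K L) * (1 - E).map (algebraMap K L)
        = (-(2 * (algebraMap K L a)⁻¹ * (algebraMap K L (d j) * algebraMap K L (J j i)))) •
          τ.map (algebraMap K L) := by
      intro i j
      have h3 : bil d (J *ᵥ bv K i) (bv K j) = d j * J j i := by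
        rw [bil_bv]
        congr 1
        simp [bv]
      rw [← Helper9.KSM.map_mul', hE.low i j, Helper9.KSM.map_smul', h3]
      congr 1
      rw [map_neg, map_mul, map_mul, map_mul, map_inv₀, map_ofNat]
    rw [sA_apply, Finset.sum_mul]
    have h4 : ∀ i, (∑ j, (u i * v j) • (T i j).map (algebraMap K L))
          * (1 - E).map (algebraMap K L)
        = ∑ j, ((u i * v j) * (-(2 * (algebraMap K L a)⁻¹ *
          (algebraMap K L (d j) * algebraMap K L (J j i))))) • τ.map (algebraMap K L) := by
      intro i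
      rw [Finset.sum_mul]
      refine Finset.sum_congr rfl fun j _ => ?_
      rw [smul_mul_assoc, h2, smul_smul]
    rw [Finset.sum_congr rfl fun i _ => h4 i]
    simp only [← Finset.sum_smul]
    congr 1
    rw [Finset.sum_comm, bil_apply, Finset.mul_sum, ← Finset.sum_neg_distrib]
    refine Finset.sum_congr rfl fun j _ => ?_
    have h5 : (J.map (algebraMap K L) *ᵥ u) j = ∑ i, algebraMap K L (J j i) * u i := rfl
    rw [h5, Finset.mul_sum, Finset.sum_mul, Finset.mul_sum, ← Finset.sum_neg_distrib]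
    exact Finset.sum_congr rfl fun i _ => by ring
  have hs := C.s_ne
  have ha : algebraMap K L a ≠ 0 := by rw [Ne, map_eq_zero]; exact C.mult.a_ne
  rw [SS_apply, smul_mul_assoc, h1, C.J_pl, map_smul, LinearMap.smul_apply, smul_smul, ← bb_apply,
    smul_eq_mul]
  congr 1
  have h2 := two_neL K (L := L)
  have h3 := C.s2
  have h4 : algebraMap K L a = -(s * s) := by rw [h3, neg_neg]
  rw [h4]
  field_simp

omit [CharZero K] in
theorem _root_.Pool.Agent.Helper36.UKS.IsEquiv.conj {χ : Mat m K →ₗ[K] K} {φ : Fin n → Mat m K}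
    (hφ : IsEquiv g ρ χ φ) {A B : Mat m K} (hA : ∀ y ∈ g, y * A = A * y)
    (hB : ∀ y ∈ g, y * B = B * y) : IsEquiv g ρ χ (fun i => A * φ i * B.transpose) where
  char := hφ.char
  equi y hy i := by
    have h := hφ.equi y hy i
    have h1 : ∑ k, ρ y k i • (A * φ k * B.transpose)
        = A * (∑ k, ρ y k i • φ k) * B.transpose := by
      rw [Finset.mul_sum, Finset.sum_mul]
      exact Finset.sum_congr rfl fun k _ => by rw [mul_smul_comm, smul_mul_assoc]
    have h2 : B.transpose * y.transpose = y.transpose * B.transpose := by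
      rw [← Matrix.transpose_mul, ← Matrix.transpose_mul, hB y hy]
    rw [h1, h, mul_sub, sub_mul, mul_add, add_mul, mul_smul_comm, smul_mul_assoc]
    congr 2
    · rw [← mul_assoc, ← hA y hy]
      simp only [mul_assoc]
    · rw [mul_assoc, mul_assoc, ← h2]
      simp only [mul_assoc]

/-- rotations on `W` -/
theorem rot_pl (C : UCtx d a J g ρ T l x s e f) (w y v : Fin n → L) :
    rot (fun i => algebraMap K L (d i)) (pl J s w) (mi J s y) *ᵥ (pl J s v)
      = bb d J s v y • pl J s w := by
  rw [rot_mulVec, Helper9.KS.rotV, C.iso_pl, zero_smul, sub_zero, bb_apply, bil_symm]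

/-- rotations on `W'` -/
theorem rot_mi (C : UCtx d a J g ρ T l x s e f) (w y v : Fin n → L) :
    rot (fun i => algebraMap K L (d i)) (pl J s w) (mi J s y) *ᵥ (mi J s v)
      = -(bb d J s w v • mi J s y) := by
  rw [rot_mulVec, Helper9.KS.rotV, C.iso_mi, zero_smul, zero_sub, bb_apply]

theorem ple (C : UCtx d a J g ρ T l x s e f) : pl J s e = e := (C.pl_of C.Je).1

theorem mie (C : UCtx d a J g ρ T l x s e f) : mi J s e = 0 := (C.pl_of C.Je).2

theorem plf (C : UCtx d a J g ρ T l x s e f) : pl J s f = 0 := (C.mi_of C.Jf).1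

theorem mif (C : UCtx d a J g ρ T l x s e f) : mi J s f = f := (C.mi_of C.Jf).2

/-- a vector orthogonal to `e`, `f` -/
theorem exists_v (C : UCtx d a J g ρ T l x s e f) (h4 : 4 ≤ n) :
    ∃ v, bb d J s e v = 0 ∧ bb d J s v f = 0 ∧ bb d J s v v ≠ 0 := by
  have : CharZero L := charZero_of_injective_algebraMap (algebraMap K L).injective
  obtain ⟨v, h1, h2, h3⟩ := aniso (hyp_ne (L := L) C.hd) (by omega) C.hyp
  refine ⟨v, ?_, ?_, ?_⟩
  · rw [C.bil_eq, bb_apply d J s v e, C.mie, map_zero, add_zero] at h1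
    exact h1
  · rw [C.bil_eq, bb_apply d J s f v, C.plf, map_zero, LinearMap.zero_apply, zero_add] at h2
    exact h2
  · intro h
    rw [C.bil_eq, h, add_zero] at h3
    exact h3 rfl

omit [CharZero K] in
theorem mL_right {ψ : Fin n → Mat m K} {B : Mat m K} (h : ∀ i, ψ i * B.transpose = ψ i)
    (v : Fin n → L) :
    mL L ψ v * (B.map (algebraMap K L)).transpose = mL L ψ v := by
  rw [mL_apply, Finset.sum_mul]
  refine Finset.sum_congr rfl fun k _ => ?_
  rw [smul_mul_assoc, ← Matrix.transpose_map, ← Helper9.KSM.map_mul', h]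

omit [CharZero K] in
theorem mL_left {ψ : Fin n → Mat m K} {A : Mat m K} (h : ∀ i, A * ψ i = ψ i)
    (v : Fin n → L) :
    A.map (algebraMap K L) * mL L ψ v = mL L ψ v := by
  rw [mL_apply, Finset.mul_sum]
  refine Finset.sum_congr rfl fun k _ => ?_
  rw [mul_smul_comm, ← Helper9.KSM.map_mul', h]

omit [CharZero K] in
theorem mL_bv (ψ : Fin n → Mat m K) (i : Fin n) :
    mL L ψ (ev L (bv K i)) = (ψ i).map (algebraMap K L) := by
  rw [mL_apply, Finset.sum_eq_single i]
  · simp [ev, bv]
  · intro k _ hk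
    simp [ev, bv, hk]
  · intro h; exact absurd (Finset.mem_univ i) h

omit [CharZero K] in
theorem mL_J (J : Mat n K) (ψ : Fin n → Mat m K) (i : Fin n) :
    mL L ψ (J.map (algebraMap K L) *ᵥ ev L (bv K i))
      = (∑ k, J k i • ψ k).map (algebraMap K L) := by
  rw [mL_apply, map_sum']
  refine Finset.sum_congr rfl fun k _ => ?_
  rw [Helper9.KSM.map_smul']
  congr 1
  have : (J.map (algebraMap K L) *ᵥ ev L (bv K i)) k
      = ∑ j, algebraMap K L (J k j) * (ev L (bv K i)) j := rfl
  rw [this, Finset.sum_eq_single i]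
  · simp [ev, bv]
  · intro j _ hj
    simp [ev, bv, hj]
  · intro h; exact absurd (Finset.mem_univ i) h

/-- the action on the right vanishes for orthogonal arguments -/
theorem right_zero (C : UCtx d a J g ρ T l x s e f)
    (hE : ECtx d a J g T s (ZZ T l x e f) E D τ) {ψ : Fin n → Mat m K}
    (h : ∀ i, ψ i * (1 - E).transpose = ψ i) {w y : Fin n → L} (hwy : bb d J s w y = 0)
    (v : Fin n → L) : mL L ψ v * (SS J T s w y).transpose = 0 := by
  rw [← mL_right h, mul_assoc, ← Matrix.transpose_mul, C.lowS hE, hwy, mul_zero, zero_smul,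
    Matrix.transpose_zero, mul_zero]

theorem left_zero (C : UCtx d a J g ρ T l x s e f)
    (hE : ECtx d a J g T s (ZZ T l x e f) E D τ) {ψ : Fin n → Mat m K}
    (h : ∀ i, (1 - E) * ψ i = ψ i) {w y : Fin n → L} (hwy : bb d J s w y = 0)
    (v : Fin n → L) : SS J T s w y * mL L ψ v = 0 := by
  rw [← mL_left h, ← mul_assoc, C.lowS hE, hwy, mul_zero, zero_smul, zero_mul]

/-- equivariance when the second leg is in the image of `1 - E` -/
theorem equi0 (C : UCtx d a J g ρ T l x s e f)
    (hE : ECtx d a J g T s (ZZ T l x e f) E D τ) {χ : Mat m K →ₗ[K] K} {ψ : Fin n → Mat m K}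
    (hψ : IsEquiv g ρ χ ψ) (h : ∀ i, ψ i * (1 - E).transpose = ψ i) {w y : Fin n → L}
    (hwy : bb d J s w y = 0) (v : Fin n → L) :
    mL L ψ (rot (fun i => algebraMap K L (d i)) (pl J s w) (mi J s y) *ᵥ v)
      = SS J T s w y * mL L ψ v := by
  rw [C.equiS hψ, C.right_zero hE h hwy, C.cS hψ, hwy, zero_mul, zero_smul, add_zero, sub_zero]

end UCtx

/-- The component of `φ` in `(1 - E) H ⊗ (1 - E) H` vanishes. -/
theorem UCtx.phi_zero (C : UCtx d a J g ρ T l x s e f) (h4 : 4 ≤ n)
    (hE : ECtx d a J g T s (ZZ T l x e f) E D τ) {χ : Mat m K →ₗ[K] K} {φ : Fin n → Mat m K}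
    (hφ : IsEquiv g ρ χ φ) (i : Fin n) : (1 - E) * φ i * (1 - E).transpose = 0 := by
  have hc : ∀ y ∈ g, y * (1 - E) = (1 - E) * y := by
    intro y hy
    rw [mul_sub, sub_mul, hE.comm y hy, one_mul, mul_one]
  have h11 : (1 - E) * (1 - E) = 1 - E := by
    rw [mul_sub, sub_mul, sub_mul, hE.idem, one_mul, one_mul, mul_one, sub_self, sub_zero]
  set ψ : Fin n → Mat m K := fun i => (1 - E) * φ i * (1 - E).transpose with hψd
  have hψ : IsEquiv g ρ χ ψ := hφ.conj hc hc
  have hR : ∀ i, ψ i * (1 - E).transpose = ψ i := by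
    intro i
    rw [hψd]
    simp only []
    rw [mul_assoc, ← Matrix.transpose_mul, h11]
  have hL : ∀ i, (1 - E) * ψ i = ψ i := by
    intro i
    rw [hψd]
    simp only []
    rw [← mul_assoc, ← mul_assoc, h11]
  obtain ⟨v, hv1, hv2, hv3⟩ := C.exists_v h4
  have key : ∀ {w y : Fin n → L}, bb d J s w y = 0 → ∀ u : Fin n → L,
      mL L ψ (rot (fun i => algebraMap K L (d i)) (pl J s w) (mi J s y) *ᵥ u) = 0 := by
    intro w y hwy u
    rw [C.equi0 hE hψ hR hwy, C.left_zero hE hL hwy]
  have k1 : ∀ {w y : Fin n → L}, bb d J s w y = 0 → ∀ z : Fin n → L, bb d J s z y ≠ 0 →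
      mL L ψ (pl J s w) = 0 := by
    intro w y hwy z hz
    have h := key hwy (pl J s z)
    rw [C.rot_pl, map_smul] at h
    exact (smul_eq_zero_iff_right hz).mp h
  have k2 : ∀ {w y : Fin n → L}, bb d J s w y = 0 → ∀ z : Fin n → L, bb d J s w z ≠ 0 →
      mL L ψ (mi J s y) = 0 := by
    intro w y hwy z hz
    have h := key hwy (mi J s z)
    rw [C.rot_mi, map_neg, map_smul, neg_eq_zero] at h
    exact (smul_eq_zero_iff_right hz).mp h
  have hp : ∀ w, mL L ψ (pl J s w) = 0 := by
    intro w
    have h1 : mL L ψ (pl J s (w - bb d J s w f • e)) = 0 := by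
      refine k1 (y := f) ?_ e (by rw [C.bb_ef]; exact one_ne_zero)
      rw [map_sub, map_smul, LinearMap.sub_apply, LinearMap.smul_apply, C.bb_ef, smul_eq_mul,
        mul_one, sub_self]
    have h2 : mL L ψ (pl J s e) = 0 := k1 hv1 v hv3
    rw [map_sub, map_sub, map_smul, map_smul, h2, smul_zero, sub_zero] at h1
    exact h1
  have hm : ∀ y, mL L ψ (mi J s y) = 0 := by
    intro y
    have h1 : mL L ψ (mi J s (y - bb d J s e y • f)) = 0 := by
      refine k2 (w := e) ?_ f (by rw [C.bb_ef]; exact one_ne_zero)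
      rw [map_sub, map_smul, C.bb_ef, smul_eq_mul, mul_one, sub_self]
    have h2 : mL L ψ (mi J s f) = 0 := k2 hv2 v hv3
    rw [map_sub, map_sub, map_smul, map_smul, h2, smul_zero, sub_zero] at h1
    exact h1
  have h0 : mL L ψ (ev L (bv K i)) = 0 := by
    rw [← C.pl_add_mi (ev L (bv K i)), map_add, hp, hm, add_zero]
  rw [UCtx.mL_bv] at h0
  apply map_inj (A := L)
  rw [show (1 - E) * φ i * (1 - E).transpose = ψ i from rfl, h0]
  ext p q
  simp

omit [CharZero K] in
/-- `s` is not in `K` -/
theorem UCtx.two_zero (C : UCtx d a J g ρ T l x s e f) {M N : Mat m K} {t : L}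
    (ht : t * t = s * s)
    (h : t • M.map (algebraMap K L) = N.map (algebraMap K L)) : M = 0 ∧ N = 0 := by
  have h1 : ∀ p q, M p q = 0 := by
    intro p q
    by_contra hne
    have h2 : t * algebraMap K L (M p q) = algebraMap K L (N p q) := by
      have h3 := congrFun (congrFun h p) q
      simpa only [Matrix.smul_apply, Matrix.map_apply, smul_eq_mul] using h3
    have h3 : algebraMap K L (M p q) ≠ 0 := by rw [Ne, map_eq_zero]; exact hne
    have h4 : t = algebraMap K L (N p q / M p q) := by
      rw [map_div₀, eq_div_iff h3, h2]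
    have h5 : algebraMap K L (N p q / M p q * (N p q / M p q)) = algebraMap K L (-a) := by
      rw [map_mul, ← h4, ht, C.s2, map_neg]
    exact C.mult.nonsq ⟨_, ((algebraMap K L).injective h5).symm⟩
  have hM : M = 0 := by
    ext p q
    exact h1 p q
  refine ⟨hM, ?_⟩
  apply map_inj (A := L)
  rw [← h, hM]
  ext p q
  simp

/-- commuting idempotents -/
theorem idem_case {A B M : Mat m L} {c : L} (hA : A * A = A) (hB : B * B = B)
    (h : c • M = A * M + M * B) : (c * (c - 1) * (c - 2)) • M = 0 := by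
  have h1 : c • (A * M) = A * M + A * M * B := by
    rw [← mul_smul_comm, h, mul_add, ← mul_assoc, ← mul_assoc, hA]
  have h2 : c • (M * B) = A * M * B + M * B := by
    rw [← smul_mul_assoc, h, add_mul, mul_assoc M B B, hB]
  have h3 : c • (A * M * B) = (2 : L) • (A * M * B) := by
    rw [← smul_mul_assoc, h1, add_mul, mul_assoc _ B B, hB, two_smul]
  have h4 : (c * (c - 1)) • M = (2 : L) • (A * M * B) := by
    have : (c * (c - 1)) • M = c • (c • M) - c • M := by
      rw [smul_smul, ← sub_smul]; congr 1; ring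
    rw [this]
    nth_rewrite 1 [h]
    rw [h, smul_add, h1, h2, two_smul]
    abel
  have : (c * (c - 1) * (c - 2)) • M = c • ((c * (c - 1)) • M) - (2 : L) • ((c * (c - 1)) • M) := by
    rw [smul_smul, smul_smul, ← sub_smul]; congr 1; ring
  rw [this, h4, smul_comm c, h3, sub_self]

/-- On the component of `φ` in `E H ⊗ (1 - E) H` the operator `s (2 P - 1)` of the second factor
is `J`. -/
theorem UCtx.phi_J (C : UCtx d a J g ρ T l x s e f) (h4 : 4 ≤ n)
    (hE : ECtx d a J g T s (ZZ T l x e f) E D τ) {χ : Mat m K →ₗ[K] K} {φ : Fin n → Mat m K}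
    (hφ : IsEquiv g ρ χ φ) (i : Fin n) :
    s • ((E * φ i * (1 - E).transpose).map (algebraMap K L)
        * ((2 : L) • comb l x - 1).transpose)
      = (E * (∑ k, J k i • φ k) * (1 - E).transpose).map (algebraMap K L) := by
  have hc : ∀ y ∈ g, y * (1 - E) = (1 - E) * y := by
    intro y hy
    rw [mul_sub, sub_mul, hE.comm y hy, one_mul, mul_one]
  have h11 : (1 - E) * (1 - E) = 1 - E := by
    rw [mul_sub, sub_mul, sub_mul, hE.idem, one_mul, one_mul, mul_one, sub_self, sub_zero]
  set ψ : Fin n → Mat m K := fun i => E * φ i * (1 - E).transpose with hψd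
  have hψ : IsEquiv g ρ χ ψ := hφ.conj hE.comm hc
  have hR : ∀ i, ψ i * (1 - E).transpose = ψ i := by
    intro i
    rw [hψd]
    simp only []
    rw [mul_assoc, ← Matrix.transpose_mul, h11]
  have hpsi : E * (∑ k, J k i • φ k) * (1 - E).transpose = ∑ k, J k i • ψ k := by
    rw [Finset.mul_sum, Finset.sum_mul]
    exact Finset.sum_congr rfl fun k _ => by rw [mul_smul_comm, smul_mul_assoc]
  rw [hpsi, show E * φ i * (1 - E).transpose = ψ i from rfl, ← UCtx.mL_J, ← UCtx.mL_bv]
  -- the two generating relations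
  have hp0 : ∀ {w : Fin n → L}, bb d J s w f = 0 →
      mL L ψ (pl J s w) = SS J T s w f * mL L ψ e := by
    intro w hw
    have h := C.equi0 hE hψ hR hw (pl J s e)
    rw [C.rot_pl, C.bb_ef, one_smul, C.ple] at h
    exact h
  have hm0 : ∀ {y : Fin n → L}, bb d J s e y = 0 →
      mL L ψ (mi J s y) = -(SS J T s e y * mL L ψ f) := by
    intro y hy
    have h := C.equi0 hE hψ hR hy (mi J s f)
    rw [C.rot_mi, C.bb_ef, one_smul, C.mif, map_neg] at h
    rw [← h, neg_neg]
  have hdp : ∀ w, bb d J s (w - bb d J s w f • e) f = 0 := by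
    intro w
    rw [map_sub, map_smul, LinearMap.sub_apply, LinearMap.smul_apply, C.bb_ef, smul_eq_mul,
        mul_one, sub_self]
  have hdm : ∀ y, bb d J s e (y - bb d J s e y • f) = 0 := by
    intro y
    rw [map_sub, map_smul, C.bb_ef, smul_eq_mul, mul_one, sub_self]
  have hp : ∀ w, mL L ψ (pl J s w)
      = SS J T s (w - bb d J s w f • e) f * mL L ψ e + bb d J s w f • mL L ψ e := by
    intro w
    have h1 := hp0 (hdp w)
    rw [map_sub, map_sub, map_smul, map_smul, C.ple] at h1
    rw [← h1, sub_add_cancel]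
  have hm : ∀ y, mL L ψ (mi J s y)
      = -(SS J T s e (y - bb d J s e y • f) * mL L ψ f) + bb d J s e y • mL L ψ f := by
    intro y
    have h1 := hm0 (hdm y)
    rw [map_sub, map_sub, map_smul, map_smul, C.mif] at h1
    rw [← h1, sub_add_cancel]
  have hsn := C.s_ne
  have h2n := two_neL K (L := L)
  -- if one of the halves vanishes, everything vanishes
  have hzero : ∀ t : L, t * t = s * s →
      mL L ψ (ev L (bv K i)) + t⁻¹ • mL L ψ (J.map (algebraMap K L) *ᵥ ev L (bv K i)) = 0 →
      mL L ψ (ev L (bv K i)) = 0 ∧ mL L ψ (J.map (algebraMap K L) *ᵥ ev L (bv K i)) = 0 := by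
    intro t ht h
    have ht0 : t ≠ 0 := by
      rintro rfl
      exact hsn (mul_self_eq_zero.mp (by rw [← ht, mul_zero]))
    rw [UCtx.mL_bv, UCtx.mL_J] at h ⊢
    have h1 : (-t) • (ψ i).map (algebraMap K L) = (∑ k, J k i • ψ k).map (algebraMap K L) := by
      have h2 : (ψ i).map (algebraMap K L)
          = -(t⁻¹ • (∑ k, J k i • ψ k).map (algebraMap K L)) := eq_neg_of_add_eq_zero_left h
      rw [h2, smul_neg, neg_smul, neg_neg, smul_smul, mul_inv_cancel₀ ht0, one_smul]
    obtain ⟨h2, h3⟩ := C.two_zero (t := -t) (by rw [neg_mul_neg]; exact ht) h1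
    rw [h2, h3]
    have h4 : (0 : Mat m K).map (algebraMap K L) = 0 := by ext p q; simp
    exact ⟨h4, h4⟩
  by_cases he : mL L ψ e = 0
  · have h1 : mL L ψ (pl J s (ev L (bv K i))) = 0 := by
      rw [hp, he, mul_zero, smul_zero, add_zero]
    rw [pl_apply, map_smul, map_add, map_smul] at h1
    obtain ⟨h2, h3⟩ := hzero s rfl ((smul_eq_zero_iff_right (inv_ne_zero h2n)).mp h1)
    rw [h2, h3, zero_mul, smul_zero]
  by_cases hf : mL L ψ f = 0
  · have h1 : mL L ψ (mi J s (ev L (bv K i))) = 0 := by
      rw [hm, hf, mul_zero, smul_zero, neg_zero, add_zero]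
    rw [mi_apply, map_smul, map_sub, map_smul] at h1
    have h5 := (smul_eq_zero_iff_right (inv_ne_zero h2n)).mp h1
    obtain ⟨h2, h3⟩ := hzero (-s) (by rw [neg_mul_neg])
      (by rw [inv_neg, neg_smul, ← sub_eq_add_neg]; exact h5)
    rw [h2, h3, zero_mul, smul_zero]
  -- the character value
  set P : Mat m L := comb l x with hP
  set c : L := cL L χ P with hcd
  have hid : P * P = P := C.idem
  have hidT : P.transpose * P.transpose = P.transpose := by
    rw [← Matrix.transpose_mul, hid]
  have hPe : (1 + c) • mL L ψ e = P * mL L ψ e + mL L ψ e * P.transpose := by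
    have h := C.equiP hψ e
    have h5 : rot (fun i => algebraMap K L (d i)) e f *ᵥ e = e := by
      have h6 := C.rot_pl e f e
      rw [C.bb_ef, one_smul, C.ple, C.mif] at h6
      exact h6
    rw [h5, ← hP, ← hcd] at h
    rw [add_smul, one_smul]
    nth_rewrite 1 [h]
    rw [sub_add_cancel]
  have hPf : (c - 1) • mL L ψ f = P * mL L ψ f + mL L ψ f * P.transpose := by
    have h := C.equiP hψ f
    have h5 : rot (fun i => algebraMap K L (d i)) e f *ᵥ f = -f := by
      have h6 := C.rot_mi e f f
      rw [C.bb_ef, one_smul, C.ple, C.mif] at h6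
      exact h6
    rw [h5, ← hP, ← hcd, map_neg] at h
    rw [sub_smul, one_smul, sub_eq_add_neg, h]
    abel
  have hc1 : c = 1 := by
    have h1 := (smul_eq_zero_iff_left he).mp (idem_case hid hidT hPe)
    have h2 := (smul_eq_zero_iff_left hf).mp (idem_case hid hidT hPf)
    have : CharZero L := charZero_of_injective_algebraMap (algebraMap K L).injective
    have h3 : (1 + c = 0 ∨ 1 + c - 1 = 0) ∨ 1 + c - 2 = 0 := by
      rcases mul_eq_zero.mp h1 with h | h
      · exact Or.inl (mul_eq_zero.mp h)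
      · exact Or.inr h
    have h5 : (c - 1 = 0 ∨ c - 1 - 1 = 0) ∨ c - 1 - 2 = 0 := by
      rcases mul_eq_zero.mp h2 with h | h
      · exact Or.inl (mul_eq_zero.mp h)
      · exact Or.inr h
    rcases h5 with (h | h) | h
    · exact sub_eq_zero.mp h
    · have hc2 : c = 2 := by linear_combination h
      rw [hc2] at h3
      norm_num at h3
    · have hc3 : c = 3 := by linear_combination h
      rw [hc3] at h3
      norm_num at h3
  have heP : mL L ψ e * P.transpose = mL L ψ e := by
    rw [hc1] at hPe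
    have h1 : (1 + 1 : L) • (P * mL L ψ e) = P * mL L ψ e + P * mL L ψ e * P.transpose := by
      rw [← mul_smul_comm, hPe, mul_add, ← mul_assoc, ← mul_assoc, hid]
    have h2 : (1 + 1 : L) • (mL L ψ e * P.transpose)
        = P * mL L ψ e * P.transpose + mL L ψ e * P.transpose := by
      rw [← smul_mul_assoc, hPe, add_mul, mul_assoc _ P.transpose, hidT]
    have h3 : P * mL L ψ e = P * mL L ψ e * P.transpose := by
      rw [add_smul, one_smul] at h1
      exact add_left_cancel h1
    have h5 : mL L ψ e * P.transpose = P * mL L ψ e * P.transpose := by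
      rw [add_smul, one_smul] at h2
      exact add_right_cancel h2
    have h6 : (2 : L) • (mL L ψ e * P.transpose) = (2 : L) • mL L ψ e := by
      have h7 : (2 : L) • mL L ψ e = (1 + 1 : L) • mL L ψ e := by norm_num
      rw [h7, hPe, h3, ← h5, two_smul]
    exact smul_right_injective (Mat m L) h2n h6
  have hfP : mL L ψ f * P.transpose = 0 := by
    rw [hc1, sub_self, zero_smul] at hPf
    have h1 : P * mL L ψ f + P * mL L ψ f * P.transpose = 0 := by
      have h := congrArg (fun M => P * M) hPf
      simp only [mul_zero, mul_add, ← mul_assoc, hid] at h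
      exact h.symm
    have h2 : P * mL L ψ f * P.transpose + mL L ψ f * P.transpose = 0 := by
      have h := congrArg (fun M => M * P.transpose) hPf
      simp only [zero_mul, add_mul, mul_assoc, hidT] at h
      rw [mul_assoc]
      exact h.symm
    have h3 : P * mL L ψ f = mL L ψ f * P.transpose := by
      have h5 := h1.trans h2.symm
      rw [add_comm (P * mL L ψ f * P.transpose)] at h5
      exact add_right_cancel h5
    have h6 : (2 : L) • (mL L ψ f * P.transpose) = 0 := by
      rw [two_smul]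
      nth_rewrite 1 [← h3]
      exact hPf.symm
    exact (smul_eq_zero_iff_right h2n).mp h6
  have hpP : ∀ w, mL L ψ (pl J s w) * P.transpose = mL L ψ (pl J s w) := by
    intro w
    rw [hp, add_mul, smul_mul_assoc, mul_assoc, heP]
  have hmP : ∀ y, mL L ψ (mi J s y) * P.transpose = 0 := by
    intro y
    rw [hm, add_mul, smul_mul_assoc, neg_mul, mul_assoc, hfP, mul_zero, neg_zero, smul_zero,
      add_zero]
  set v : Fin n → L := ev L (bv K i) with hv
  have hJv : J.map (algebraMap K L) *ᵥ v = s • pl J s v - s • mi J s v := by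
    nth_rewrite 1 [← C.pl_add_mi v]
    rw [Matrix.mulVec_add, C.J_pl, C.J_mi, sub_eq_add_neg]
  have hMv : mL L ψ v = mL L ψ (pl J s v) + mL L ψ (mi J s v) := by
    rw [← map_add, C.pl_add_mi]
  rw [hJv, map_sub, map_smul, map_smul, Matrix.transpose_sub, Matrix.transpose_smul,
    Matrix.transpose_one, mul_sub, mul_smul_comm, mul_one, hMv, add_mul, hpP, hmP, add_zero,
    two_smul, ← smul_sub]
  congr 1
  abel

end Pool.Agent.Helper36.UKS
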