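import Mathlib
import Pool.Agent.Helper36.UKS.MainB
import Pool.Agent.Helper36.UKS.Phi

/-!
Module F, third part (helper36): the subspace `H'`.
-/

open scoped Matrix

namespace Pool.Agent.Helper36.UKS

open Pool.Agent.Helper9.KSM Pool.Agent.Helper9.KS

variable {K L : Type} [Field K] [CharZero K] [Field L] [Algebra K L] {n m r : ℕ}
  {d : Fin n → K} {a : K} {J : Mat n K} {g : Submodule K (Mat m K)} {ρ : Mat m K →ₗ[K] Mat n K}
  {T : Fin n → Fin n → Mat m K} {l : Fin r → L} {x : Fin r → Mat m K} {s : L} {e f : Fin n → L}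
  {E D τ : Mat m K} {χ : Mat m K →ₗ[K] K} {φ : Fin n → Mat m K}

namespace F

omit [CharZero K] in
theorem equiv_mul (h : IsEquiv g ρ χ φ) {A B : Mat m K} (hA : ∀ y ∈ g, y * A = A * y)
    (hB : ∀ y ∈ g, y * B = B * y) : IsEquiv g ρ χ (fun i => A * φ i * B.transpose) := by
  refine ⟨h.char, fun y hy i => ?_⟩
  have h1 := congrArg (fun M => A * M * B.transpose) (h.equi y hy i)
  have h2 : y.transpose * B.transpose = B.transpose * y.transpose := by
    rw [← Matrix.transpose_mul, ← Matrix.transpose_mul, hB y hy]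
  simp only [Finset.mul_sum, Finset.sum_mul, mul_add, add_mul, mul_sub, sub_mul, mul_smul_comm,
    smul_mul_assoc] at h1
  rw [h1]
  congr 2
  · rw [← mul_assoc, ← mul_assoc, ← mul_assoc, hA y hy]
  · rw [mul_assoc (A * φ i), ← h2, mul_assoc, mul_assoc, mul_assoc]

omit [CharZero K] in
theorem equiv_transpose (h : IsEquiv g ρ χ φ) : IsEquiv g ρ χ (fun i => (φ i).transpose) := by
  refine ⟨h.char, fun y hy i => ?_⟩
  have h := congrArg Matrix.transpose (h.equi y hy i)
  simp only [Matrix.transpose_sum, Matrix.transpose_smul, Matrix.transpose_sub,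
    Matrix.transpose_add, Matrix.transpose_mul, Matrix.transpose_transpose] at h
  rw [h, add_comm]

omit [CharZero K] in
theorem equiv_J (h : IsEquiv g ρ χ φ) (hJ : ∀ y ∈ g, ρ y * J = J * ρ y) :
    IsEquiv g ρ χ (fun i => ∑ k, J k i • φ k) := by
  refine ⟨h.char, fun y hy i => ?_⟩
  have h1 : ∑ k, ρ y k i • ∑ l, J l k • φ l = ∑ k, J k i • ∑ l, ρ y l k • φ l := by
    simp only [Finset.smul_sum, smul_smul]
    rw [Finset.sum_comm]
    conv_rhs => rw [Finset.sum_comm]
    refine Finset.sum_congr rfl fun p _ => ?_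
    rw [← Finset.sum_smul, ← Finset.sum_smul]
    congr 1
    have h2 := congrFun (congrFun (hJ y hy) p) i
    rw [Matrix.mul_apply, Matrix.mul_apply] at h2
    rw [Finset.sum_congr rfl fun k _ => mul_comm (ρ y k i) (J p k), ← h2]
    exact Finset.sum_congr rfl fun k _ => mul_comm _ _
  rw [h1, Finset.mul_sum, Finset.sum_mul, Finset.smul_sum, ← Finset.sum_add_distrib,
    ← Finset.sum_sub_distrib]
  refine Finset.sum_congr rfl fun k _ => ?_
  rw [h.equi y hy k, smul_sub, smul_add, mul_smul_comm, smul_mul_assoc, smul_comm (χ y)]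

omit [CharZero K] in
theorem equiv_lin {ψ : Fin n → Mat m K} (h : IsEquiv g ρ χ φ) (h' : IsEquiv g ρ χ ψ) (t t' : K) :
    IsEquiv g ρ χ (fun i => t • φ i + t' • ψ i) := by
  refine ⟨h.char, fun y hy i => ?_⟩
  have h1 := congrArg (fun M => t • M) (h.equi y hy i)
  have h2 := congrArg (fun M => t' • M) (h'.equi y hy i)
  simp only [smul_add, smul_sub, mul_add, add_mul, Finset.sum_add_distrib, mul_smul_comm,
    smul_mul_assoc, smul_comm _ t, smul_comm _ t', ← Finset.smul_sum] at h1 h2 ⊢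
  rw [h1, h2]
  abel

omit [CharZero K] in
/-- a matrix over the large field intertwining two equivariant maps -/
theorem equiv_trans {R : Mat m L} {M N : Fin n → Mat m K}
    (hMN : ∀ i, R * (M i).map (algebraMap K L) = (N i).map (algebraMap K L))
    (hM : IsEquiv g ρ χ M) (hN : IsEquiv g ρ χ N) {y : Mat m K} (hy : y ∈ g) (i : Fin n) :
    R * (y * M i).map (algebraMap K L) = (y * N i).map (algebraMap K L) := by
  have h1 : ∀ {M : Fin n → Mat m K}, IsEquiv g ρ χ M →
      y * M i = ∑ k, ρ y k i • M k - M i * y.transpose + χ y • M i := by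
    intro M hM
    rw [hM.equi y hy i]; abel
  rw [h1 hM, h1 hN, map_add', map_add', Pool.Agent.Helper9.KSM.map_sub',
    Pool.Agent.Helper9.KSM.map_sub', map_sum', map_sum', map_smul', map_smul', map_mul',
    map_mul', ← hMN i, mul_add, mul_sub, Finset.mul_sum, mul_smul_comm, mul_assoc]
  congr 2
  refine Finset.sum_congr rfl fun k _ => ?_
  rw [map_smul', map_smul', mul_smul_comm, hMN k]

end F

/-- the subspace `H'` -/
def HH (g : Submodule K (Mat m K)) (ρ : Mat m K →ₗ[K] Mat n K) (E : Mat m K) :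
    Submodule K (Fin m → K) :=
  LinearMap.range E.mulVecLin ⊔ Submodule.span K {v | ∃ χ φ i α, IsEquiv g ρ χ φ ∧
    v = ((1 - E) * φ i * E.transpose) *ᵥ α}

omit [CharZero K] in
theorem mem_HH1 (u : Fin m → K) : E *ᵥ u ∈ HH g ρ E :=
  Submodule.mem_sup_left ⟨u, rfl⟩

omit [CharZero K] in
theorem mem_HH2 (h : IsEquiv g ρ χ φ) (i : Fin n) (α : Fin m → K) :
    ((1 - E) * φ i * E.transpose) *ᵥ α ∈ HH g ρ E :=
  Submodule.mem_sup_right (Submodule.subset_span ⟨χ, φ, i, α, h, rfl⟩)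

omit [CharZero K] in
/-- induction -/
theorem HH_le {N : Submodule K (Fin m → K)} (h1 : ∀ u, E *ᵥ u ∈ N)
    (h2 : ∀ χ φ, IsEquiv g ρ χ φ → ∀ i α, ((1 - E) * φ i * E.transpose) *ᵥ α ∈ N) :
    HH g ρ E ≤ N := by
  refine sup_le ?_ (Submodule.span_le.mpr ?_)
  · rintro _ ⟨u, rfl⟩
    exact h1 u
  · rintro _ ⟨χ, φ, i, α, h, rfl⟩
    exact h2 χ φ h i α

/-- the subspace on which two linear maps to `L^m` agree -/
def eqSub (A B : Mat m L) : Submodule K (Fin m → K) where
  carrier := {v | A *ᵥ ev L v = B *ᵥ ev L v}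
  add_mem' := by
    intro u v hu hv
    have h : ev L (u + v) = ev L u + ev L v := by ext i; simp [ev]
    simp only [Set.mem_ofPred_eq] at hu hv ⊢
    rw [h, Matrix.mulVec_add, Matrix.mulVec_add, hu, hv]
  zero_mem' := by
    have h : ev L (0 : Fin m → K) = 0 := by ext i; simp [ev]
    simp only [Set.mem_ofPred_eq]
    rw [h, Matrix.mulVec_zero, Matrix.mulVec_zero]
  smul_mem' := by
    intro t u hu
    have h : ev L (t • u) = algebraMap K L t • ev L u := by ext i; simp [ev]
    simp only [Set.mem_ofPred_eq] at hu ⊢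
    rw [h, Matrix.mulVec_smul, Matrix.mulVec_smul, hu]

/-- the subspace of vectors of `H` with image in `H` -/
def intoSub (A : Mat m L) (H : Submodule K (Fin m → K)) : Submodule K (Fin m → K) where
  carrier := {v | ∃ v' ∈ H, A *ᵥ ev L v = ev L v'}
  add_mem' := by
    rintro u v ⟨u', hu', hu⟩ ⟨v', hv', hv⟩
    have h : ∀ u v : Fin m → K, ev L (u + v) = ev L u + ev L v := by
      intro u v; ext i; simp [ev]
    refine ⟨u' + v', H.add_mem hu' hv', ?_⟩
    rw [h, h, Matrix.mulVec_add, hu, hv]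
  zero_mem' := by
    have h : ev L (0 : Fin m → K) = 0 := by ext i; simp [ev]
    refine ⟨0, H.zero_mem, ?_⟩
    rw [h, Matrix.mulVec_zero]
  smul_mem' := by
    rintro t u ⟨u', hu', hu⟩
    have h : ∀ u : Fin m → K, ev L (t • u) = algebraMap K L t • ev L u := by
      intro u; ext i; simp [ev]
    refine ⟨t • u', H.smul_mem t hu', ?_⟩
    rw [h, h, Matrix.mulVec_smul, hu]

namespace UCtx

omit [CharZero K] in
theorem low_ext (C : UCtx d a J g ρ T l x s e f) (hE : ECtx d a J g T s (ZZ T l x e f) E D τ)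
    (w y : Fin n → L) : sA L T w y * (1 - E).map (algebraMap K L)
      = (-(2 * (algebraMap K L a)⁻¹ * bil (fun i => algebraMap K L (d i))
          (J.map (algebraMap K L) *ᵥ w) y)) • τ.map (algebraMap K L) := by
  have _ := C.s2
  rw [sA_apply, bilJ_expand, Matrix.sum_mul, Finset.mul_sum, ← Finset.sum_neg_distrib,
    Finset.sum_smul]
  refine Finset.sum_congr rfl fun i _ => ?_
  rw [Matrix.sum_mul, Finset.mul_sum, ← Finset.sum_neg_distrib, Finset.sum_smul]
  refine Finset.sum_congr rfl fun j _ => ?_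
  rw [Matrix.smul_mul, ← Matrix.map_mul, hE.low, map_smul', smul_smul, map_neg, map_mul, map_mul,
    map_ofNat, map_inv₀]
  congr 1
  ring

theorem Z_low (C : UCtx d a J g ρ T l x s e f) (hE : ECtx d a J g T s (ZZ T l x e f) E D τ) :
    ((2 : L) • ZZ T l x e f - 1) * (1 - E).map (algebraMap K L)
      = ((2 : L) • comb l x - 1) * (1 - E).map (algebraMap K L)
        + (s * (2 * (algebraMap K L a)⁻¹)) • τ.map (algebraMap K L) := by
  have h1 := C.low_ext hE e f
  have h2 : bil (fun i => algebraMap K L (d i)) (J.map (algebraMap K L) *ᵥ e) f = s := by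
    have h3 : bil (fun i => algebraMap K L (d i)) e f = 1 := C.hyp.2.2
    rw [C.Je, map_smul, LinearMap.smul_apply, h3, smul_eq_mul, mul_one]
  rw [h2] at h1
  have h4 : (2 : L) • ZZ T l x e f - 1 = ((2 : L) • comb l x - 1) - sA L T e f := by
    rw [ZZ, smul_sub, smul_smul, mul_inv_cancel₀ (two_neL K), one_smul]
    abel
  rw [h4, Matrix.sub_mul _ (sA L T e f), h1, neg_smul, sub_neg_eq_add]
  congr 2
  ring

/-- the operator `s⁻¹ (2 Z - 1)` on the second part of `H'` -/
theorem M_Z (C : UCtx d a J g ρ T l x s e f) (h4 : 4 ≤ n)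
    (hE : ECtx d a J g T s (ZZ T l x e f) E D τ) (hφ : IsEquiv g ρ χ φ) (i : Fin n) :
    s⁻¹ • (((2 : L) • ZZ T l x e f - 1) * ((1 - E) * φ i * E.transpose).map (algebraMap K L))
      = ((-a⁻¹) • (∑ k, J k i • ((1 - E) * φ k * E.transpose))
        + (2 * a⁻¹) • (τ * ((1 - E) * φ i * E.transpose))).map (algebraMap K L) := by
  have hs := C.s_ne
  have ha : algebraMap K L a ≠ 0 := by rw [Ne, map_eq_zero]; exact C.mult.a_ne
  have h1 := congrArg Matrix.transpose (C.phi_J h4 hE (F.equiv_transpose hφ) i)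
  have e1 : (E * (φ i).transpose * (1 - E).transpose).transpose
      = (1 - E) * φ i * E.transpose := by
    rw [Matrix.transpose_mul, Matrix.transpose_mul, Matrix.transpose_transpose,
      Matrix.transpose_transpose, Matrix.mul_assoc]
  have e2 : (E * (∑ k, J k i • (φ k).transpose) * (1 - E).transpose).transpose
      = ∑ k, J k i • ((1 - E) * φ k * E.transpose) := by
    rw [Matrix.transpose_mul, Matrix.transpose_mul, Matrix.transpose_transpose,
      Matrix.transpose_sum, ← Matrix.mul_assoc, Matrix.mul_sum, Matrix.sum_mul]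
    refine Finset.sum_congr rfl fun k _ => ?_
    rw [Matrix.transpose_smul, Matrix.transpose_transpose, Matrix.mul_smul, Matrix.smul_mul]
  rw [Matrix.transpose_smul, Matrix.transpose_mul, Matrix.transpose_transpose,
    ← Matrix.transpose_map, e1, ← Matrix.transpose_map, e2] at h1
  have h2 : (1 - E) * ((1 - E) * φ i * E.transpose) = (1 - E) * φ i * E.transpose := by
    rw [← mul_assoc, ← mul_assoc]
    congr 2
    rw [sub_mul, one_mul, mul_sub, mul_one, hE.idem, sub_self, sub_zero]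
  have h3 := congrArg (fun M => M * ((1 - E) * φ i * E.transpose).map (algebraMap K L))
    (C.Z_low hE)
  simp only [Matrix.add_mul, Matrix.smul_mul] at h3
  rw [Matrix.mul_assoc, Matrix.mul_assoc _ ((1 - E).map (algebraMap K L)), ← Matrix.map_mul, h2,
    ← Matrix.map_mul] at h3
  have h5 : ((2 : L) • comb l x - 1) * ((1 - E) * φ i * E.transpose).map (algebraMap K L)
      = s⁻¹ • (∑ k, J k i • ((1 - E) * φ k * E.transpose)).map (algebraMap K L) := by
    rw [← h1, smul_smul, inv_mul_cancel₀ hs, one_smul]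
  have h6 : s⁻¹ * s⁻¹ = -(algebraMap K L a)⁻¹ := by
    rw [← mul_inv, C.s2, inv_neg]
  rw [h3, h5, smul_add, smul_smul, smul_smul, h6, ← mul_assoc, inv_mul_cancel₀ hs, one_mul,
    map_add', map_smul', map_smul', map_neg, map_inv₀, map_mul, map_inv₀, map_ofNat]

omit [CharZero K] in
theorem commE (hE : ECtx d a J g T s (ZZ T l x e f) E D τ) :
    ∀ y ∈ g, y * (1 - E) = (1 - E) * y := by
  intro y hy
  rw [mul_sub, sub_mul, hE.comm y hy, mul_one, one_mul]

omit [CharZero K] in
theorem M_equiv (hE : ECtx d a J g T s (ZZ T l x e f) E D τ) (hφ : IsEquiv g ρ χ φ) :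
    IsEquiv g ρ χ (fun i => (1 - E) * φ i * E.transpose) :=
  F.equiv_mul hφ (commE hE) hE.comm

omit [CharZero K] in
theorem HH_g (hE : ECtx d a J g T s (ZZ T l x e f) E D τ) {y : Mat m K} (hy : y ∈ g)
    {v : Fin m → K} (hv : v ∈ HH g ρ E) : y *ᵥ v ∈ HH g ρ E := by
  have h : HH g ρ E ≤ (HH g ρ E).comap y.mulVecLin := by
    refine HH_le (fun u => ?_) (fun χ φ hφ i α => ?_)
    · rw [Submodule.mem_comap, Matrix.mulVecLin_apply, Matrix.mulVec_mulVec, hE.comm y hy,
        ← Matrix.mulVec_mulVec]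
      exact mem_HH1 _
    · rw [Submodule.mem_comap, Matrix.mulVecLin_apply, Matrix.mulVec_mulVec]
      have h1 := (M_equiv hE hφ).equi y hy i
      have h2 : y * ((1 - E) * φ i * E.transpose)
          = ∑ k, ρ y k i • ((1 - E) * φ k * E.transpose)
            - ((1 - E) * φ i * E.transpose) * y.transpose
            + χ y • ((1 - E) * φ i * E.transpose) := by
        rw [h1]; abel
      rw [h2, Matrix.add_mulVec, Matrix.sub_mulVec, Matrix.sum_mulVec, Matrix.smul_mulVec,
        ← Matrix.mulVec_mulVec]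
      refine Submodule.add_mem _ (Submodule.sub_mem _ (Submodule.sum_mem _ fun k _ => ?_)
        (mem_HH2 hφ i _)) (Submodule.smul_mem _ _ (mem_HH2 hφ i _))
      rw [Matrix.smul_mulVec]
      exact Submodule.smul_mem _ _ (mem_HH2 hφ k _)
  exact h hv

omit [CharZero K] in
theorem exists_J_ne (C : UCtx d a J g ρ T l x s e f) (h4 : 4 ≤ n) : ∃ i j, J i j ≠ 0 := by
  by_contra hcon
  push Not at hcon
  have h : J = 0 := by ext i j; exact hcon i j
  have h2 := C.mult.sq
  rw [h, mul_zero] at h2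
  have h3 := congrFun (congrFun h2 ⟨0, by omega⟩) ⟨0, by omega⟩
  simp only [Matrix.zero_apply, Matrix.neg_apply, Matrix.smul_apply, Matrix.one_apply_eq,
    smul_eq_mul, mul_one] at h3
  exact C.mult.a_ne (neg_eq_zero.mp h3.symm)

theorem τ_eq (C : UCtx d a J g ρ T l x s e f) (h4 : 4 ≤ n)
    (hE : ECtx d a J g T s (ZZ T l x e f) E D τ) :
    ∃ y ∈ g, τ = y * (1 - E) := by
  obtain ⟨i, j, hij⟩ := C.exists_J_ne h4
  have h1 := hE.low j i
  have h2 : -(2 * a⁻¹ * bil d (J *ᵥ bv K j) (bv K i)) ≠ 0 := by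
    rw [bil_bv, mulVec_bv_apply]
    exact neg_ne_zero.mpr (mul_ne_zero (mul_ne_zero two_ne_zero (inv_ne_zero C.mult.a_ne))
      (mul_ne_zero (C.hd i) hij))
  refine ⟨(-(2 * a⁻¹ * bil d (J *ᵥ bv K j) (bv K i)))⁻¹ • T j i,
    g.smul_mem _ (C.memT _ _), ?_⟩
  rw [smul_mul_assoc, h1, smul_smul, inv_mul_cancel₀ h2, one_smul]

/-- the operator `s⁻¹ (2 Z - 1)` preserves `H'` and is rational -/
theorem HH_Z (C : UCtx d a J g ρ T l x s e f) (h4 : 4 ≤ n)
    (hE : ECtx d a J g T s (ZZ T l x e f) E D τ) {v : Fin m → K} (hv : v ∈ HH g ρ E) :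
    ∃ v' ∈ HH g ρ E, s⁻¹ • (((2 : L) • ZZ T l x e f - 1) *ᵥ ev L v) = ev L v' := by
  have h : HH g ρ E ≤ intoSub (s⁻¹ • ((2 : L) • ZZ T l x e f - 1)) (HH g ρ E) := by
    refine HH_le (fun u => ?_) (fun χ φ hφ i α => ?_)
    · refine ⟨E *ᵥ (D *ᵥ u), mem_HH1 _, ?_⟩
      rw [Matrix.mulVec_mulVec, hE.ED, ← map_mulVec', ← map_mulVec', ← hE.ratl,
        Matrix.mulVec_mulVec, Matrix.smul_mul]
    · refine ⟨((-a⁻¹) • (∑ k, J k i • ((1 - E) * φ k * E.transpose))
        + (2 * a⁻¹) • (τ * ((1 - E) * φ i * E.transpose))) *ᵥ α, ?_, ?_⟩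
      · obtain ⟨y, hy, hτ⟩ := C.τ_eq h4 hE
        have h2 : (1 - E) * ((1 - E) * φ i * E.transpose) = (1 - E) * φ i * E.transpose := by
          rw [← mul_assoc, ← mul_assoc]
          congr 2
          rw [sub_mul, one_mul, mul_sub, mul_one, hE.idem, sub_self, sub_zero]
        rw [hτ, mul_assoc y, h2, Matrix.add_mulVec, Matrix.smul_mulVec, Matrix.smul_mulVec,
          Matrix.sum_mulVec, ← Matrix.mulVec_mulVec]
        refine Submodule.add_mem _ (Submodule.smul_mem _ _ (Submodule.sum_mem _ fun k _ => ?_))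
          (Submodule.smul_mem _ _ (HH_g hE hy (mem_HH2 hφ i α)))
        rw [Matrix.smul_mulVec]
        exact Submodule.smul_mem _ _ (mem_HH2 hφ k _)
      · rw [← map_mulVec', ← map_mulVec', ← C.M_Z h4 hE hφ i, Matrix.mulVec_mulVec,
          Matrix.smul_mul]
  obtain ⟨v', hv', h'⟩ := h hv
  refine ⟨v', hv', ?_⟩
  rw [← h', Matrix.smul_mulVec]

/-- `Z` commutes with `g` on `H'` -/
theorem HH_Zg (C : UCtx d a J g ρ T l x s e f) (h4 : 4 ≤ n)
    (hE : ECtx d a J g T s (ZZ T l x e f) E D τ) {y : Mat m K} (hy : y ∈ g)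
    {v : Fin m → K} (hv : v ∈ HH g ρ E) :
    y.map (algebraMap K L) *ᵥ (ZZ T l x e f *ᵥ ev L v)
      = ZZ T l x e f *ᵥ (y.map (algebraMap K L) *ᵥ ev L v) := by
  have hs := C.s_ne
  -- it is enough to treat `s⁻¹ (2 Z - 1)`
  have hred : ∀ M M' : Mat m K, s⁻¹ • (((2 : L) • ZZ T l x e f - 1) * M.map (algebraMap K L))
        = M'.map (algebraMap K L) →
      s⁻¹ • (((2 : L) • ZZ T l x e f - 1) * (y * M).map (algebraMap K L))
        = (y * M').map (algebraMap K L) →
      (y.map (algebraMap K L) * ZZ T l x e f) * M.map (algebraMap K L)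
        = (ZZ T l x e f * y.map (algebraMap K L)) * M.map (algebraMap K L) := by
    intro M M' h1 h2
    have h3 : ∀ N N' : Mat m K,
        s⁻¹ • (((2 : L) • ZZ T l x e f - 1) * N.map (algebraMap K L))
          = N'.map (algebraMap K L) →
        ZZ T l x e f * N.map (algebraMap K L)
          = (2 : L)⁻¹ • (s • N'.map (algebraMap K L) + N.map (algebraMap K L)) := by
      intro N N' h
      rw [← h, smul_smul, mul_inv_cancel₀ hs, one_smul, sub_mul, one_mul, sub_add_cancel,
        smul_mul_assoc, smul_smul, inv_mul_cancel₀ (two_neL K), one_smul]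
    rw [mul_assoc, mul_assoc, h3 _ _ h1, ← map_mul', h3 _ _ h2, mul_smul_comm, mul_add,
      mul_smul_comm, map_mul', map_mul']
  have h : HH g ρ E ≤ eqSub (y.map (algebraMap K L) * ZZ T l x e f)
      (ZZ T l x e f * y.map (algebraMap K L)) := by
    refine HH_le (fun u => ?_) (fun χ φ hφ i α => ?_)
    · change _ *ᵥ ev L (E *ᵥ u) = _ *ᵥ ev L (E *ᵥ u)
      rw [← map_mulVec', Matrix.mulVec_mulVec, Matrix.mulVec_mulVec]
      congr 1
      refine hred E D hE.ratl ?_
      rw [hE.comm y hy, hE.commD y hy, map_mul', map_mul', ← hE.ratl, smul_mul_assoc, mul_assoc]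
    · change _ *ᵥ ev L (_ *ᵥ α) = _ *ᵥ ev L (_ *ᵥ α)
      rw [← map_mulVec', Matrix.mulVec_mulVec, Matrix.mulVec_mulVec]
      congr 1
      refine hred _ _ (C.M_Z h4 hE hφ i) ?_
      have h5 := F.equiv_lin (F.equiv_J (M_equiv hE hφ) C.alg)
        (F.equiv_mul (M_equiv hE hφ) (A := τ) (B := 1) hE.commτ (fun y _ => by
          rw [mul_one, one_mul])) (-a⁻¹) (2 * a⁻¹)
      simp only [Matrix.transpose_one, mul_one] at h5
      have h6 := F.equiv_trans (R := s⁻¹ • ((2 : L) • ZZ T l x e f - 1))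
        (fun i => by rw [smul_mul_assoc]; exact C.M_Z h4 hE hφ i) (M_equiv hE hφ) h5 hy i
      rw [smul_mul_assoc] at h6
      exact h6
  have h' := h hv
  change (y.map (algebraMap K L) * ZZ T l x e f) *ᵥ ev L v
    = (ZZ T l x e f * y.map (algebraMap K L)) *ᵥ ev L v at h'
  rw [← Matrix.mulVec_mulVec, ← Matrix.mulVec_mulVec] at h'
  exact h'

theorem HH_tens (C : UCtx d a J g ρ T l x s e f) (h4 : 4 ≤ n)
    (hE : ECtx d a J g T s (ZZ T l x e f) E D τ) (hφ : IsEquiv g ρ χ φ) (i : Fin n)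
    (v : Fin m → K) : φ i *ᵥ v ∈ HH g ρ E := by
  have h1 := C.phi_zero h4 hE hφ i
  have h2 : φ i = E * φ i + (1 - E) * φ i * E.transpose := by
    rw [Matrix.transpose_sub, Matrix.transpose_one, mul_sub, mul_one, sub_eq_zero] at h1
    rw [← h1, sub_mul, one_mul]
    abel
  rw [h2, Matrix.add_mulVec, ← Matrix.mulVec_mulVec]
  exact Submodule.add_mem _ (mem_HH1 _) (mem_HH2 hφ i v)

omit [CharZero K] in
theorem HH_ne (hE : ECtx d a J g T s (ZZ T l x e f) E D τ) : HH g ρ E ≠ ⊥ := by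
  intro h
  apply hE.ne
  apply Matrix.mulVec_injective
  funext u
  have h1 : E *ᵥ u ∈ HH g ρ E := mem_HH1 u
  rw [h, Submodule.mem_bot] at h1
  rw [h1, Matrix.zero_mulVec]

omit [CharZero K] in
theorem lowK (C : UCtx d a J g ρ T l x s e f) (hE : ECtx d a J g T s (ZZ T l x e f) E D τ)
    (w y : Fin n → K) : sK T w y * (1 - E)
      = (-(2 * a⁻¹ * bil d (J *ᵥ w) y)) • τ := by
  apply map_inj (A := L)
  have h := C.low_ext hE (ev L w) (ev L y)
  rw [sA_ev, map_mulVec', bil_ev, ← Matrix.map_mul] at h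
  rw [h, map_smul', map_neg, map_mul, map_mul, map_ofNat, map_inv₀]

omit [CharZero K] in
/-- the nontrivial part of the lifts acts faithfully on `H'` -/
theorem HH_F (C : UCtx d a J g ρ T l x s e f) (hE : ECtx d a J g T s (ZZ T l x e f) E D τ)
    {w v w' v' : Fin n → K} (h : bil d (J *ᵥ w) v + bil d (J *ᵥ w') v' = 0)
    (h2 : ∀ u ∈ HH g ρ E, (sK T w v + sK T w' v') *ᵥ u = 0) : sK T w v + sK T w' v' = 0 := by
  have h3 : (sK T w v + sK T w' v') * (1 - E) = 0 := by
    rw [add_mul, C.lowK hE, C.lowK hE, ← add_smul]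
    have h4 : -(2 * a⁻¹ * bil d (J *ᵥ w) v) + -(2 * a⁻¹ * bil d (J *ᵥ w') v') = 0 := by
      linear_combination (-(2 * a⁻¹)) * h
    rw [h4, zero_smul]
  have h5 : (sK T w v + sK T w' v') * E = 0 := by
    apply Matrix.mulVec_injective
    funext u
    rw [← Matrix.mulVec_mulVec, h2 _ (mem_HH1 u), Matrix.zero_mulVec]
  rw [mul_sub, mul_one, h5, sub_zero] at h3
  exact h3

end UCtx

end Pool.Agent.Helper36.UKS
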