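import Mathlib
import Pool.Agent.Helper36.UKS.Ctx

/-!
Module C1: Hermitian orthogonal bases.
-/

open scoped Matrix

namespace Pool.Agent.Helper36.UKS

open Pool.Agent.Helper9.KSM

variable {K : Type} [Field K] [CharZero K] {n : ℕ}

/-- `v₁, …, v_N` is an orthogonal basis of `V` over `K(J)`. -/
structure IsFrame {N : ℕ} (d : Fin n → K) (a : K) (J : Mat n K) (v : Fin N → Fin n → K) :
    Prop where
  orth : ∀ i j, i ≠ j → bil d (v i) (v j) = 0
  orthJ : ∀ i j, i ≠ j → bil d (J *ᵥ v i) (v j) = 0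
  ne : ∀ i, bil d (v i) (v i) ≠ 0
  span : ∀ y : Fin n → K, y = ∑ i, ((bil d (v i) y / bil d (v i) (v i)) • v i
    + (bil d (J *ᵥ v i) y / (a * bil d (v i) (v i))) • (J *ᵥ v i))

/-- a partial orthogonal system -/
structure Frame_Part {k : ℕ} (d : Fin n → K) (J : Mat n K) (v : Fin k → Fin n → K) : Prop where
  orth : ∀ i j, i ≠ j → bil d (v i) (v j) = 0
  orthJ : ∀ i j, i ≠ j → bil d (J *ᵥ v i) (v j) = 0
  ne : ∀ i, bil d (v i) (v i) ≠ 0

theorem Frame_bil_skew {d : Fin n → K} {J : Mat n K} (hs : IsSkew d J) (x y : Fin n → K) :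
    bil d (J *ᵥ x) y = - bil d x (J *ᵥ y) := by
  rw [bil_apply, bil_apply, ← Finset.sum_neg_distrib]
  have h1 : ∀ i, d i * (J *ᵥ x) i * y i = ∑ j, d i * J i j * x j * y i := by
    intro i
    rw [Matrix.mulVec, dotProduct, Finset.mul_sum, Finset.sum_mul]
    exact Finset.sum_congr rfl fun j _ => by ring
  have h2 : ∀ i, -(d i * x i * (J *ᵥ y) i) = ∑ j, -(d i * J i j) * x i * y j := by
    intro i
    rw [Matrix.mulVec, dotProduct, Finset.mul_sum, ← Finset.sum_neg_distrib]
    exact Finset.sum_congr rfl fun j _ => by ring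
  rw [Finset.sum_congr rfl fun i _ => h1 i, Finset.sum_congr rfl fun i _ => h2 i,
    Finset.sum_comm]
  refine Finset.sum_congr rfl fun i _ => Finset.sum_congr rfl fun j _ => ?_
  have := hs i j
  linear_combination (x i * y j) * this

section

variable {d : Fin n → K} {a : K} {J : Mat n K} (hJ : IsMult d a J)
include hJ

theorem Frame_JJ (x : Fin n → K) : J *ᵥ (J *ᵥ x) = -(a • x) := by
  rw [Matrix.mulVec_mulVec, hJ.sq, Matrix.neg_mulVec, Matrix.smul_mulVec, Matrix.one_mulVec]

theorem Frame_bil_JJ (x y : Fin n → K) : bil d (J *ᵥ x) (J *ᵥ y) = a * bil d x y := by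
  rw [Frame_bil_skew hJ.skew, Frame_JJ hJ, map_neg, map_smul, smul_eq_mul, neg_neg]

theorem Frame_bil_self (x : Fin n → K) : bil d (J *ᵥ x) x = 0 := by
  have h := Frame_bil_skew hJ.skew x x
  rw [bil_symm d x] at h
  have h2 : (2 : K) * bil d (J *ᵥ x) x = 0 := by linear_combination h
  exact (mul_eq_zero.mp h2).resolve_left two_ne_zero

theorem Frame_a_ne : a ≠ 0 := by
  rintro rfl
  exact hJ.nonsq ⟨0, by simp⟩

/-- the orthogonal projection onto the system -/
noncomputable def Frame_pr {k : ℕ} (d : Fin n → K) (a : K) (J : Mat n K) (v : Fin k → Fin n → K)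
    (y : Fin n → K) : Fin n → K :=
  ∑ i, ((bil d (v i) y / bil d (v i) (v i)) • v i
    + (bil d (J *ᵥ v i) y / (a * bil d (v i) (v i))) • (J *ᵥ v i))

omit hJ in
theorem Frame_orthJ_all {k : ℕ} {v : Fin k → Fin n → K} (hJ : IsMult d a J)
    (h : Frame_Part d J v) (i j : Fin k) : bil d (J *ᵥ v i) (v j) = 0 := by
  by_cases hij : i = j
  · rw [hij]; exact Frame_bil_self hJ _
  · exact h.orthJ i j hij

theorem Frame_pr_left {k : ℕ} {v : Fin k → Fin n → K} (h : Frame_Part d J v) (y : Fin n → K)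
    (j : Fin k) : bil d (v j) (Frame_pr d a J v y) = bil d (v j) y := by
  unfold Frame_pr
  rw [map_sum, Finset.sum_eq_single j]
  · rw [map_add, map_smul, map_smul, smul_eq_mul, smul_eq_mul, bil_symm d (v j) (J *ᵥ v j),
      Frame_bil_self hJ, mul_zero, add_zero, div_mul_cancel₀ _ (h.ne j)]
  · intro i _ hij
    rw [map_add, map_smul, map_smul, h.orth j i (Ne.symm hij), bil_symm d (v j) (J *ᵥ v i),
      h.orthJ i j hij, smul_zero, smul_zero, add_zero]
  · intro hj
    exact absurd (Finset.mem_univ j) hj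

theorem Frame_pr_leftJ {k : ℕ} {v : Fin k → Fin n → K} (h : Frame_Part d J v) (y : Fin n → K)
    (j : Fin k) : bil d (J *ᵥ v j) (Frame_pr d a J v y) = bil d (J *ᵥ v j) y := by
  unfold Frame_pr
  rw [map_sum, Finset.sum_eq_single j]
  · rw [map_add, map_smul, map_smul, smul_eq_mul, smul_eq_mul, Frame_bil_self hJ, mul_zero,
      zero_add, Frame_bil_JJ hJ, div_mul_cancel₀ _ (mul_ne_zero (Frame_a_ne hJ) (h.ne j))]
  · intro i _ hij
    rw [map_add, map_smul, map_smul, h.orthJ j i (Ne.symm hij), Frame_bil_JJ hJ,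
      h.orth j i (Ne.symm hij), mul_zero, smul_zero, smul_zero, add_zero]
  · intro hj
    exact absurd (Finset.mem_univ j) hj

/-- a vector orthogonal to the system is orthogonal to every projection -/
theorem Frame_orth_pr {k : ℕ} {v : Fin k → Fin n → K} {x : Fin n → K}
    (h1 : ∀ i, bil d (v i) x = 0) (h2 : ∀ i, bil d (J *ᵥ v i) x = 0) (y : Fin n → K) :
    bil d x (Frame_pr d a J v y) = 0 := by
  unfold Frame_pr
  rw [map_sum]
  apply Finset.sum_eq_zero
  intro i _
  rw [map_add, map_smul, map_smul, bil_symm d x, h1, bil_symm d x, h2, smul_zero, smul_zero,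
    add_zero]

theorem Frame_ext (hd : ∀ i, d i ≠ 0) {k : ℕ} {v : Fin k → Fin n → K} (h : Frame_Part d J v)
    (hn : ¬ ∀ y, y = Frame_pr d a J v y) :
    ∃ x, Frame_Part d J (Fin.cons x v : Fin (k + 1) → Fin n → K) := by
  push Not at hn
  obtain ⟨y, hy⟩ := hn
  have res1 : ∀ z j, bil d (v j) (z - Frame_pr d a J v z) = 0 := by
    intro z j
    rw [map_sub, Frame_pr_left hJ h, sub_self]
  have res2 : ∀ z j, bil d (J *ᵥ v j) (z - Frame_pr d a J v z) = 0 := by
    intro z j
    rw [map_sub, Frame_pr_leftJ hJ h, sub_self]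
  -- a vector of the complement of non zero length
  obtain ⟨x, hx1, hx2, hx3⟩ : ∃ x, (∀ i, bil d (v i) x = 0) ∧ (∀ i, bil d (J *ᵥ v i) x = 0) ∧
      bil d x x ≠ 0 := by
    set u := y - Frame_pr d a J v y with hu
    have hu0 : u ≠ 0 := sub_ne_zero.mpr hy
    obtain ⟨i, hi⟩ : ∃ i, u i ≠ 0 := by
      by_contra hc
      push Not at hc
      exact hu0 (funext hc)
    set w := bv K i - Frame_pr d a J v (bv K i) with hw
    have hw1 : bil d u w ≠ 0 := by
      rw [hw, map_sub, Frame_orth_pr hJ (res1 y) (res2 y), sub_zero, bil_bv]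
      exact mul_ne_zero (hd i) hi
    by_cases h1 : bil d u u = 0
    · by_cases h2 : bil d w w = 0
      · refine ⟨u + w, ?_, ?_, ?_⟩
        · intro j
          rw [map_add, res1 y j, res1 _ j, add_zero]
        · intro j
          rw [map_add, res2 y j, res2 _ j, add_zero]
        · have e1 : bil d (u + w) (u + w) = 2 * bil d u w := by
            rw [LinearMap.map_add₂, map_add, map_add, h1, h2, bil_symm d w u]
            ring
          rw [e1]
          exact mul_ne_zero two_ne_zero hw1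
      · exact ⟨w, res1 _, res2 _, h2⟩
    · exact ⟨u, res1 _, res2 _, h1⟩
  refine ⟨x, ⟨?_, ?_, ?_⟩⟩
  · intro i j
    refine Fin.cases ?_ (fun i => ?_) i <;> refine Fin.cases ?_ (fun j => ?_) j
    · intro hij; exact absurd rfl hij
    · intro _
      rw [Fin.cons_zero, Fin.cons_succ, bil_symm]
      exact hx1 j
    · intro _
      rw [Fin.cons_zero, Fin.cons_succ]
      exact hx1 i
    · intro hij
      rw [Fin.cons_succ, Fin.cons_succ]
      exact h.orth i j fun e => hij (by rw [e])
  · intro i j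
    refine Fin.cases ?_ (fun i => ?_) i <;> refine Fin.cases ?_ (fun j => ?_) j
    · intro hij; exact absurd rfl hij
    · intro _
      rw [Fin.cons_zero, Fin.cons_succ, Frame_bil_skew hJ.skew, bil_symm, hx2 j, neg_zero]
    · intro _
      rw [Fin.cons_zero, Fin.cons_succ]
      exact hx2 i
    · intro hij
      rw [Fin.cons_succ, Fin.cons_succ]
      exact h.orthJ i j fun e => hij (by rw [e])
  · intro i
    refine Fin.cases ?_ (fun i => ?_) i
    · rw [Fin.cons_zero]; exact hx3
    · rw [Fin.cons_succ]; exact h.ne i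

/-- the system as a family of `2k` vectors -/
def Frame_fam {k : ℕ} (J : Mat n K) (v : Fin k → Fin n → K) : Fin k ⊕ Fin k → Fin n → K :=
  Sum.elim v fun i => J *ᵥ v i

theorem Frame_li {k : ℕ} {v : Fin k → Fin n → K} (h : Frame_Part d J v) :
    LinearIndependent K (Frame_fam J v) := by
  rw [Fintype.linearIndependent_iff]
  intro g hg
  rw [Fintype.sum_sum_type] at hg
  simp only [Frame_fam, Sum.elim_inl, Sum.elim_inr] at hg
  rintro (j | j)
  · have h1 := congrArg (bil d (v j)) hg
    rw [map_add, map_sum, map_sum, map_zero, Finset.sum_eq_single j, Finset.sum_eq_zero, add_zero,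
      map_smul, smul_eq_mul] at h1
    · exact (mul_eq_zero.mp h1).resolve_right (h.ne j)
    · intro i _
      rw [map_smul, bil_symm d (v j), Frame_orthJ_all hJ h, smul_zero]
    · intro i _ hij
      rw [map_smul, h.orth j i (Ne.symm hij), smul_zero]
    · intro hj
      exact absurd (Finset.mem_univ j) hj
  · have h1 := congrArg (bil d (J *ᵥ v j)) hg
    rw [map_add, map_sum, map_sum, map_zero, Finset.sum_eq_zero, zero_add, Finset.sum_eq_single j,
      map_smul, smul_eq_mul, Frame_bil_JJ hJ] at h1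
    · exact (mul_eq_zero.mp h1).resolve_right (mul_ne_zero (Frame_a_ne hJ) (h.ne j))
    · intro i _ hij
      rw [map_smul, Frame_bil_JJ hJ, h.orth j i (Ne.symm hij), mul_zero, smul_zero]
    · intro hj
      exact absurd (Finset.mem_univ j) hj
    · intro i _
      rw [map_smul, Frame_orthJ_all hJ h, smul_zero]

theorem Frame_card {k : ℕ} {v : Fin k → Fin n → K} (h : Frame_Part d J v) : 2 * k ≤ n := by
  have h1 := (Frame_li hJ h).fintype_card_le_finrank
  rw [Fintype.card_sum, Fintype.card_fin, Module.finrank_fin_fun] at h1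
  omega

theorem Frame_span {k : ℕ} {v : Fin k → Fin n → K} 
    (hs : ∀ y, y = Frame_pr d a J v y) : n ≤ 2 * k := by
  have h1 : (⊤ : Submodule K (Fin n → K)) ≤ Submodule.span K (Set.range (Frame_fam J v)) := by
    intro y _
    rw [hs y]
    unfold Frame_pr
    refine Submodule.sum_mem _ fun i _ => Submodule.add_mem _ ?_ ?_
    · exact Submodule.smul_mem _ _ (Submodule.subset_span ⟨Sum.inl i, rfl⟩)
    · exact Submodule.smul_mem _ _ (Submodule.subset_span ⟨Sum.inr i, rfl⟩)
  have h2 : Module.finrank K (Submodule.span K (Set.range (Frame_fam J v))) ≤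
      Fintype.card (Fin k ⊕ Fin k) := finrank_range_le_card (Frame_fam J v)
  rw [top_le_iff.mp h1, finrank_top, Module.finrank_fin_fun, Fintype.card_sum,
    Fintype.card_fin] at h2
  omega

theorem Frame_go (hd : ∀ i, d i ≠ 0) (m : ℕ) : ∀ (k : ℕ) (v : Fin k → Fin n → K),
    Frame_Part d J v → n ≤ 2 * k + m →
      ∃ (N : ℕ) (v : Fin N → Fin n → K), n = 2 * N ∧ IsFrame d a J v := by
  induction m with
  | zero =>
    intro k v h hk
    by_cases hs : ∀ y, y = Frame_pr d a J v y
    · have := Frame_card hJ h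
      exact ⟨k, v, by omega, ⟨h.orth, h.orthJ, h.ne, hs⟩⟩
    · obtain ⟨x, hx⟩ := Frame_ext hJ hd h hs
      have := Frame_card hJ hx
      omega
  | succ m ih =>
    intro k v h hk
    by_cases hs : ∀ y, y = Frame_pr d a J v y
    · have h1 := Frame_card hJ h
      have h2 := Frame_span hJ hs
      exact ⟨k, v, by omega, ⟨h.orth, h.orthJ, h.ne, hs⟩⟩
    · obtain ⟨x, hx⟩ := Frame_ext hJ hd h hs
      exact ih (k + 1) _ hx (by omega)

end

theorem exists_frame {d : Fin n → K} (hd : ∀ i, d i ≠ 0) {a : K} {J : Mat n K}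
    (hJ : IsMult d a J) : ∃ (N : ℕ) (v : Fin N → Fin n → K), n = 2 * N ∧ IsFrame d a J v :=
  Frame_go hJ hd n 0 (fun i => i.elim0) ⟨fun i => i.elim0, fun i => i.elim0, fun i => i.elim0⟩
    (by omega)

end Pool.Agent.Helper36.UKS
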