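import Mathlib
import Pool.Agent.Helper36.UKS.Core
import Pool.Agent.Helper36.UKS.Frame

/-!
Module C: the projector `E` and the rationality of `s⁻¹ (2 Z - 1) E`.
-/

open scoped Matrix

namespace Pool.Agent.Helper36.UKS

open Pool.Agent.Helper9.KSM Pool.Agent.Helper9.KS

section Abstract

variable {K L : Type} [Field K] [Field L] [Algebra K L] {m N : ℕ}

/-- `X` commutes with everything that commutes with the family `t` -/
def Proj_Bic (t : Fin N → Mat m K) (X : Mat m K) : Prop :=
  ∀ Y : Mat m K, (∀ i, Y * t i = t i * Y) → Y * X = X * Y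

theorem Proj_Bic.mul {t : Fin N → Mat m K} {X Y : Mat m K} (hX : Proj_Bic t X)
    (hY : Proj_Bic t Y) : Proj_Bic t (X * Y) := by
  intro U hU
  rw [← mul_assoc, hX U hU, mul_assoc, hY U hU, mul_assoc]

theorem Proj_Bic.add {t : Fin N → Mat m K} {X Y : Mat m K} (hX : Proj_Bic t X)
    (hY : Proj_Bic t Y) : Proj_Bic t (X + Y) := by
  intro U hU
  rw [mul_add, add_mul, hX U hU, hY U hU]

theorem Proj_Bic.sub {t : Fin N → Mat m K} {X Y : Mat m K} (hX : Proj_Bic t X)
    (hY : Proj_Bic t Y) : Proj_Bic t (X - Y) := by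
  intro U hU
  rw [mul_sub, sub_mul, hX U hU, hY U hU]

theorem Proj_Bic.smul {t : Fin N → Mat m K} {X : Mat m K} (c : K) (hX : Proj_Bic t X) :
    Proj_Bic t (c • X) := by
  intro U hU
  rw [mul_smul_comm, smul_mul_assoc, hX U hU]

theorem Proj_Bic.one {t : Fin N → Mat m K} : Proj_Bic t (1 : Mat m K) := by
  intro U _
  rw [mul_one, one_mul]

theorem Proj_Bic.zero {t : Fin N → Mat m K} : Proj_Bic t (0 : Mat m K) := by
  intro U _
  rw [mul_zero, zero_mul]

theorem Proj_Bic.self {t : Fin N → Mat m K} (i : Fin N) : Proj_Bic t (t i) := fun _ h => h i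

theorem Proj_exists_Q (t : Fin N → Mat m K) (i0 : Fin N) (a : K) (s : L) (Z : Mat m L)
    (hcomm : ∀ i j, t i * t j = t j * t i)
    (hE : ∀ i, (-a⁻¹) • ((t i - t i0) * (t i - t i0)) * (t i - t i0) = t i - t i0)
    (hZ : ∀ i, s⁻¹ • (((2 : L) • Z - 1) *
      ((-a⁻¹) • ((t i - t i0) * (t i - t i0))).map (algebraMap K L))
      = ((-(a⁻¹ * a⁻¹)) • ((t i - t i0) * (t i * t i - t i0 * t i0))).map (algebraMap K L)) :
    ∃ Q D : Mat m K, Proj_Bic t Q ∧ Q * Q = Q ∧ (∀ i, Q * (t i - t i0) = 0) ∧ Proj_Bic t D ∧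
      s⁻¹ • (((2 : L) • Z - 1) * (1 - Q).map (algebraMap K L)) = D.map (algebraMap K L) := by
  classical
  have key : ∀ S : Finset (Fin N), ∃ Q D : Mat m K, Proj_Bic t Q ∧ Q * Q = Q ∧
      (∀ i ∈ S, Q * (t i - t i0) = 0) ∧ Proj_Bic t D ∧
      s⁻¹ • (((2 : L) • Z - 1) * (1 - Q).map (algebraMap K L)) = D.map (algebraMap K L) := by
    intro S
    induction S using Finset.induction_on with
    | empty =>
      refine ⟨1, 0, Proj_Bic.one, mul_one 1, fun i hi => absurd hi (Finset.notMem_empty i),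
        Proj_Bic.zero, ?_⟩
      rw [sub_self]
      simp
    | insert i S _ ih =>
      obtain ⟨Q, D, hQ, hQQ, hQS, hD, hDZ⟩ := ih
      set u : Mat m K := t i - t i0 with hu
      set P : Mat m K := (-a⁻¹) • (u * u) with hP
      have hub : Proj_Bic t u := (Proj_Bic.self i).sub (Proj_Bic.self i0)
      have hPb : Proj_Bic t P := (hub.mul hub).smul _
      have htc : ∀ X, Proj_Bic t X → ∀ j, t j * X = X * t j := fun X hX j =>
        hX (t j) (fun k => hcomm j k)
      have hbc : ∀ X, Proj_Bic t X → ∀ Y, Proj_Bic t Y → Y * X = X * Y := fun X hX Y hY =>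
        hX Y (fun k => (htc Y hY k).symm)
      have hPu : P * u = u := hE i
      have hPP : P * P = P := by
        rw [hP, mul_smul_comm, ← mul_assoc, ← hP, hPu]
      have hPQ : P * Q = Q * P := hbc Q hQ P hPb
      refine ⟨Q * (1 - P), D + ((-(a⁻¹ * a⁻¹)) • (u * (t i * t i - t i0 * t i0))) * Q,
        hQ.mul (Proj_Bic.one.sub hPb), ?_, ?_, ?_, ?_⟩
      · have h1 : (1 - P) * Q = Q * (1 - P) := by rw [sub_mul, mul_sub, one_mul, mul_one, hPQ]
        rw [mul_assoc, ← mul_assoc (1 - P) Q, h1, mul_assoc Q (1 - P) (1 - P), ← mul_assoc Q Q,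
          hQQ]
        congr 1
        rw [sub_mul, one_mul, mul_sub, mul_one, hPP, sub_self, sub_zero]
      · intro j hj
        rcases Finset.mem_insert.mp hj with rfl | hj
        · rw [mul_assoc, sub_mul, one_mul, hPu, sub_self, mul_zero]
        · have h1 : (1 - P) * Q = Q * (1 - P) := by rw [sub_mul, mul_sub, one_mul, mul_one, hPQ]
          rw [← h1, mul_assoc, hQS j hj, mul_zero]
      · exact hD.add ((((hub.mul (((Proj_Bic.self i).mul (Proj_Bic.self i)).sub
          ((Proj_Bic.self i0).mul (Proj_Bic.self i0)))).smul _)).mul hQ)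
      · have h1 : (1 - Q * (1 - P)) = (1 - Q) + P * Q := by
          rw [hPQ, mul_sub, mul_one]
          abel
        rw [h1, map_add', mul_add, smul_add, hDZ, map_add', map_mul', ← mul_assoc,
          ← smul_mul_assoc, hZ i, ← map_mul']
  obtain ⟨Q, D, h1, h2, h3, h4, h5⟩ := key Finset.univ
  exact ⟨Q, D, h1, h2, fun i => h3 i (Finset.mem_univ i), h4, h5⟩

end Abstract

variable {K L : Type} [Field K] [CharZero K] [Field L] [Algebra K L] {n m r : ℕ}
  {d : Fin n → K} {a : K} {J : Mat n K} {g : Submodule K (Mat m K)} {ρ : Mat m K →ₗ[K] Mat n K}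
  {T : Fin n → Fin n → Mat m K} {l : Fin r → L} {x : Fin r → Mat m K} {s : L} {e f : Fin n → L}

omit [CharZero K] in
theorem Proj_J_ev (J : Mat n K) (y : Fin n → K) :
    J.map (algebraMap K L) *ᵥ ev L y = ev L (J *ᵥ y) := by
  funext i
  rw [Matrix.mulVec, dotProduct]
  show _ = algebraMap K L (∑ j, J i j * y j)
  rw [map_sum]
  refine Finset.sum_congr rfl fun j _ => ?_
  rw [map_mul]
  rfl

namespace UCtx

theorem Proj_pl_J (C : UCtx d a J g ρ T l x s e f) (w : Fin n → L) :
    pl J s (J.map (algebraMap K L) *ᵥ w) = s • pl J s w := by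
  rw [← C.J_pl, pl_apply, pl_apply, Matrix.mulVec_smul, Matrix.mulVec_add, Matrix.mulVec_smul]

theorem Proj_mi_J (C : UCtx d a J g ρ T l x s e f) (w : Fin n → L) :
    mi J s (J.map (algebraMap K L) *ᵥ w) = -(s • mi J s w) := by
  rw [← C.J_mi, mi_apply, mi_apply, Matrix.mulVec_smul, Matrix.mulVec_sub, Matrix.mulVec_smul]

theorem Proj_SS_J (C : UCtx d a J g ρ T l x s e f) (w y : Fin n → L) :
    SS J T s (J.map (algebraMap K L) *ᵥ w) y = s • SS J T s w y := by
  rw [SS_apply, SS_apply, C.Proj_pl_J, map_smul, LinearMap.smul_apply, smul_comm]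

theorem Proj_SS_J' (C : UCtx d a J g ρ T l x s e f) (w y : Fin n → L) :
    SS J T s w (J.map (algebraMap K L) *ᵥ y) = (-s) • SS J T s w y := by
  rw [SS_apply, SS_apply, C.Proj_mi_J, ← neg_smul, map_smul, smul_comm]

theorem Proj_bb_J (C : UCtx d a J g ρ T l x s e f) (w y : Fin n → L) :
    bb d J s (J.map (algebraMap K L) *ᵥ w) y = s * bb d J s w y := by
  rw [bb_apply, bb_apply, C.Proj_pl_J, map_smul, LinearMap.smul_apply, smul_eq_mul]

theorem Proj_bb_J' (C : UCtx d a J g ρ T l x s e f) (w y : Fin n → L) :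
    bb d J s w (J.map (algebraMap K L) *ᵥ y) = (-s) * bb d J s w y := by
  rw [bb_apply, bb_apply, C.Proj_mi_J, ← neg_smul, map_smul, smul_eq_mul]

theorem Proj_bilJ (C : UCtx d a J g ρ T l x s e f) (w y : Fin n → L) :
    bil (fun i => algebraMap K L (d i)) (J.map (algebraMap K L) *ᵥ w) y
      = s * (bb d J s w y - bb d J s y w) := by
  rw [C.bil_eq, C.Proj_bb_J, C.Proj_bb_J']
  ring

theorem Proj_two_bb (C : UCtx d a J g ρ T l x s e f) (w y : Fin n → L) :
    2 * bb d J s w y = bil (fun i => algebraMap K L (d i)) w y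
      + s⁻¹ * bil (fun i => algebraMap K L (d i)) (J.map (algebraMap K L) *ᵥ w) y := by
  rw [C.Proj_bilJ, C.bil_eq, ← mul_assoc, inv_mul_cancel₀ C.s_ne]
  ring

/-- a sesquilinear map vanishing on a frame vanishes on rational vectors -/
theorem Proj_ext (_C : UCtx d a J g ρ T l x s e f) {N : ℕ} {v : Fin N → Fin n → K}
    (hv : IsFrame d a J v) (Φ : (Fin n → L) →ₗ[L] (Fin n → L) →ₗ[L] Mat m L)
    (h1 : ∀ w y, Φ (J.map (algebraMap K L) *ᵥ w) y = s • Φ w y)
    (h2 : ∀ w y, Φ w (J.map (algebraMap K L) *ᵥ y) = (-s) • Φ w y)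
    (h3 : ∀ i j, Φ (ev L (v i)) (ev L (v j)) = 0) (p q : Fin n → K) :
    Φ (ev L p) (ev L q) = 0 := by
  have hev : ∀ y : Fin n → K, ev L y = ∑ i,
      (algebraMap K L (bil d (v i) y / bil d (v i) (v i)) • ev L (v i)
      + algebraMap K L (bil d (J *ᵥ v i) y / (a * bil d (v i) (v i))) •
        (J.map (algebraMap K L) *ᵥ ev L (v i))) := by
    intro y
    funext j
    have h := congrFun (hv.span y) j
    have h' : ev L y j = algebraMap K L (y j) := rfl
    rw [h', h, Finset.sum_apply, Finset.sum_apply, map_sum]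
    refine Finset.sum_congr rfl fun i _ => ?_
    rw [Proj_J_ev]
    simp only [Pi.add_apply, Pi.smul_apply, smul_eq_mul, map_add, map_mul]
    rfl
  have hA : ∀ i, ∀ q : Fin n → K, Φ (ev L (v i)) (ev L q) = 0 := by
    intro i q
    rw [hev q, map_sum]
    refine Finset.sum_eq_zero fun j _ => ?_
    rw [map_add, map_smul, map_smul, h2, h3, smul_zero, smul_zero, smul_zero, add_zero]
  rw [hev p, map_sum, LinearMap.sum_apply]
  refine Finset.sum_eq_zero fun i _ => ?_
  rw [map_add, map_smul, map_smul, LinearMap.add_apply, LinearMap.smul_apply,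
    LinearMap.smul_apply, h1, hA, smul_zero, smul_zero, smul_zero, add_zero]

end UCtx

section Ring

variable {R : Type} [Ring R]

theorem Proj_cube {p q : R} (hp : p * p = p) (hq : q * q = q) (h : p * q = q * p) :
    (p - q) * (p - q) * (p - q) = p - q := by
  have h1 : (p - q) * (p - q) = p - p * q - p * q + q := by
    rw [sub_mul, mul_sub, mul_sub, hp, hq, ← h]; abel
  have h2 : p * q * p = p * q := by rw [h, mul_assoc, hp]
  have h3 : p * q * q = p * q := by rw [mul_assoc, hq]
  rw [h1]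
  simp only [add_mul, sub_mul, mul_sub, hp, hq, h2, h3, ← h]
  abel

theorem Proj_two {A B Z : R} (hA : (A + Z) * (A + Z) = A + Z) (hB : (B + Z) * (B + Z) = B + Z)
    (hAZ : A * Z = Z * A) (hBZ : B * Z = Z * B) (hAB : A * B = B * A) :
    (Z + Z - 1) * ((A - B) * (A - B)) = -((A - B) * (A * A - B * B)) := by
  have h1 : A * A + Z * A + Z * A + Z * Z = A + Z := by
    rw [← hA, add_mul, mul_add, mul_add, hAZ]; abel
  have h2 : B * B + Z * B + Z * B + Z * Z = B + Z := by
    rw [← hB, add_mul, mul_add, mul_add, hBZ]; abel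
  have h3 : (Z + Z - 1) * (A - B) = -(A * A - B * B) := by
    have h4 : A * A - B * B + (Z + Z) * (A - B) = A - B := by
      have h5 : A * A - B * B + (Z + Z) * (A - B)
          = (A * A + Z * A + Z * A + Z * Z) - (B * B + Z * B + Z * B + Z * Z) := by
        rw [add_mul, mul_sub]; abel
      rw [h5, h1, h2]; abel
    rw [sub_mul, one_mul, eq_sub_of_add_eq' h4]
    abel
  have h6 : (A * A - B * B) * (A - B) = (A - B) * (A * A - B * B) := by
    have h7 : A * A * B = B * (A * A) := by rw [mul_assoc, hAB, ← mul_assoc, hAB, mul_assoc]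
    have h8 : B * B * A = A * (B * B) := by
      rw [mul_assoc, ← hAB, ← mul_assoc, ← hAB, mul_assoc]
    rw [sub_mul, mul_sub, mul_sub, sub_mul, mul_sub, mul_sub, h7, h8, mul_assoc, mul_assoc]
    abel
  rw [← mul_assoc, h3, neg_mul, h6]

end Ring

namespace UCtx

/-- consequences of the relations with repeated arguments -/
theorem Proj_R1 (C : UCtx d a J g ρ T l x s e f) (w w' y' : Fin n → L) :
    be d J T s (ZZ T l x e f) w w' * be d J T s (ZZ T l x e f) w y'
      = bb d J s w w' • be d J T s (ZZ T l x e f) w y' := by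
  have h := C.quad' w w' w y'
  rw [← two_smul L, ← two_smul L (bb d J s w w' • _)] at h
  exact smul_right_injective _ (two_neL K) h

theorem Proj_R2 (C : UCtx d a J g ρ T l x s e f) (w w' y : Fin n → L) :
    be d J T s (ZZ T l x e f) w w' * be d J T s (ZZ T l x e f) y w'
      = bb d J s y w' • be d J T s (ZZ T l x e f) w w' := by
  have h := C.quad w w' y w'
  rw [← two_smul L, ← two_smul L (bb d J s y w' • _)] at h
  exact smul_right_injective _ (two_neL K) h

end UCtx

/-- `τ_i` -/
def Proj_t {N : ℕ} (d : Fin n → K) (J : Mat n K) (T : Fin n → Fin n → Mat m K)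
    (v : Fin N → Fin n → K) (i : Fin N) : Mat m K :=
  (-(2 * bil d (v i) (v i))⁻¹) • sK T (v i) (J *ᵥ v i)

namespace UCtx

variable {N : ℕ} {v : Fin N → Fin n → K}

theorem Proj_bb_off (C : UCtx d a J g ρ T l x s e f) (hv : IsFrame d a J v) {i j : Fin N}
    (hij : i ≠ j) : bb d J s (ev L (v i)) (ev L (v j)) = 0 := by
  have h := C.Proj_two_bb (ev L (v i)) (ev L (v j))
  rw [Proj_J_ev, bil_ev, bil_ev, hv.orth i j hij, hv.orthJ i j hij, map_zero, mul_zero,
    add_zero] at h
  exact (mul_eq_zero.mp h).resolve_left (two_neL K)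

theorem Proj_bb_self (C : UCtx d a J g ρ T l x s e f) (v : Fin N → Fin n → K) (i : Fin N) :
    2 * bb d J s (ev L (v i)) (ev L (v i)) = algebraMap K L (bil d (v i) (v i)) := by
  have h := C.Proj_two_bb (ev L (v i)) (ev L (v i))
  rw [Proj_J_ev, bil_ev, bil_ev, Frame_bil_self C.mult, map_zero, mul_zero, add_zero] at h
  exact h

theorem Proj_bb_ne (C : UCtx d a J g ρ T l x s e f) (hv : IsFrame d a J v) (i : Fin N) :
    bb d J s (ev L (v i)) (ev L (v i)) ≠ 0 := by
  intro h
  have h1 := C.Proj_bb_self v i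
  rw [h, mul_zero] at h1
  exact hv.ne i ((map_eq_zero _).mp h1.symm)

theorem Proj_t_map (C : UCtx d a J g ρ T l x s e f) (hv : IsFrame d a J v) (i : Fin N) :
    s⁻¹ • (Proj_t d J T v i).map (algebraMap K L)
      = (bb d J s (ev L (v i)) (ev L (v i)))⁻¹ • SS J T s (ev L (v i)) (ev L (v i)) := by
  have hc := C.Proj_bb_ne hv i
  have hc2 := C.Proj_bb_self v i
  have h2 := two_neL K (L := L)
  have hs := C.s_ne
  rw [Proj_t, map_smul', ← sA_ev, ← Proj_J_ev, C.T_eq, C.Proj_SS_J', C.Proj_SS_J, map_neg,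
    map_inv₀, map_mul, ← hc2, map_ofNat, ← sub_smul, smul_smul, smul_smul, smul_smul]
  congr 1
  field_simp
  ring

theorem Proj_N (C : UCtx d a J g ρ T l x s e f) (hv : IsFrame d a J v) (i : Fin N) :
    s⁻¹ • (Proj_t d J T v i).map (algebraMap K L) + ZZ T l x e f
      = (bb d J s (ev L (v i)) (ev L (v i)))⁻¹ •
        be d J T s (ZZ T l x e f) (ev L (v i)) (ev L (v i)) := by
  rw [C.Proj_t_map hv, be, smul_add, smul_smul, inv_mul_cancel₀ (C.Proj_bb_ne hv i), one_smul]

theorem Proj_N_idem (C : UCtx d a J g ρ T l x s e f) (hv : IsFrame d a J v) (i : Fin N) :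
    (s⁻¹ • (Proj_t d J T v i).map (algebraMap K L) + ZZ T l x e f) *
      (s⁻¹ • (Proj_t d J T v i).map (algebraMap K L) + ZZ T l x e f)
      = s⁻¹ • (Proj_t d J T v i).map (algebraMap K L) + ZZ T l x e f := by
  have hc := C.Proj_bb_ne hv i
  rw [C.Proj_N hv, smul_mul_assoc, mul_smul_comm, C.Proj_R1, smul_smul, smul_smul]
  congr 1
  field_simp

theorem Proj_t_comm (C : UCtx d a J g ρ T l x s e f) (hv : IsFrame d a J v) (i j : Fin N) :
    Proj_t d J T v i * Proj_t d J T v j = Proj_t d J T v j * Proj_t d J T v i := by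
  have hs := C.s_ne
  have h1 : ∀ i, (Proj_t d J T v i).map (algebraMap K L)
      = (s * (bb d J s (ev L (v i)) (ev L (v i)))⁻¹) • SS J T s (ev L (v i)) (ev L (v i)) := by
    intro i
    have h := C.Proj_t_map hv i
    rw [mul_smul, ← h, smul_smul, mul_inv_cancel₀ hs, one_smul]
  apply map_inj (A := L)
  rw [map_mul', map_mul', h1, h1, smul_mul_smul_comm, smul_mul_smul_comm, mul_comm
    (s * (bb d J s (ev L (v i)) (ev L (v i)))⁻¹)]
  congr 1
  by_cases hij : i = j
  · rw [hij]
  · have h2 := C.SScomm (ev L (v i)) (ev L (v i)) (ev L (v j)) (ev L (v j))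
    rw [C.Proj_bb_off hv hij, C.Proj_bb_off hv (Ne.symm hij), zero_smul, zero_smul, sub_zero] at h2
    exact sub_eq_zero.mp h2

theorem Proj_Z_t (C : UCtx d a J g ρ T l x s e f) (v : Fin N → Fin n → K) (i : Fin N) :
    (s⁻¹ • (Proj_t d J T v i).map (algebraMap K L)) * ZZ T l x e f
      = ZZ T l x e f * (s⁻¹ • (Proj_t d J T v i).map (algebraMap K L)) := by
  rw [Proj_t, map_smul', ← sA_ev, smul_mul_assoc, smul_mul_assoc, ← C.Zcomm, mul_smul_comm,
    mul_smul_comm]

theorem Proj_a_s (C : UCtx d a J g ρ T l x s e f) : algebraMap K L a = -(s * s) := by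
  rw [C.s2, neg_neg]

theorem Proj_hE (C : UCtx d a J g ρ T l x s e f) (hv : IsFrame d a J v) (i j : Fin N) :
    (-a⁻¹) • ((Proj_t d J T v i - Proj_t d J T v j) * (Proj_t d J T v i - Proj_t d J T v j)) *
      (Proj_t d J T v i - Proj_t d J T v j) = Proj_t d J T v i - Proj_t d J T v j := by
  have hs := C.s_ne
  have hcube := Proj_cube (C.Proj_N_idem hv i) (C.Proj_N_idem hv j) (by
    rw [add_mul, add_mul, mul_add, mul_add, mul_add, mul_add, C.Proj_Z_t, C.Proj_Z_t,
      smul_mul_smul_comm, smul_mul_smul_comm, ← map_mul', ← map_mul', C.Proj_t_comm hv i j]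
    abel)
  rw [add_sub_add_right_eq_sub, ← smul_sub, ← Helper9.KSM.map_sub'] at hcube
  apply map_inj (A := L)
  rw [map_mul', map_smul', map_mul', map_neg, map_inv₀, C.Proj_a_s]
  simp only [smul_mul_assoc, mul_smul_comm, smul_smul] at hcube ⊢
  have h1 := congrArg (fun X => s • X) hcube
  simp only [smul_smul] at h1
  rw [mul_inv_cancel₀ hs, one_smul] at h1
  refine Eq.trans ?_ h1
  congr 1
  field_simp

theorem Proj_hZ (C : UCtx d a J g ρ T l x s e f) (hv : IsFrame d a J v) (i j : Fin N) :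
    s⁻¹ • (((2 : L) • ZZ T l x e f - 1) *
      ((-a⁻¹) • ((Proj_t d J T v i - Proj_t d J T v j) *
        (Proj_t d J T v i - Proj_t d J T v j))).map (algebraMap K L))
      = ((-(a⁻¹ * a⁻¹)) • ((Proj_t d J T v i - Proj_t d J T v j) *
        (Proj_t d J T v i * Proj_t d J T v i - Proj_t d J T v j * Proj_t d J T v j))).map
          (algebraMap K L) := by
  have hs := C.s_ne
  have h := Proj_two (C.Proj_N_idem hv i) (C.Proj_N_idem hv j) (C.Proj_Z_t v i)
    (C.Proj_Z_t v j) (by
      rw [smul_mul_smul_comm, smul_mul_smul_comm, ← map_mul', ← map_mul', C.Proj_t_comm hv i j])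
  rw [← smul_sub, ← Helper9.KSM.map_sub', smul_mul_smul_comm, smul_mul_smul_comm,
    smul_mul_smul_comm, ← smul_sub, smul_mul_smul_comm, mul_smul_comm, ← neg_smul] at h
  rw [map_smul', map_smul', map_mul', map_mul', Helper9.KSM.map_sub' (Proj_t d J T v i * _),
    map_mul', map_mul', map_neg, map_inv₀, map_neg, map_mul, map_inv₀, C.Proj_a_s, two_smul,
    mul_smul_comm, smul_smul]
  have h2 : s⁻¹ * -(-(s * s))⁻¹ = s⁻¹ * (s⁻¹ * s⁻¹) := by
    field_simp
  rw [h2, mul_smul, h, smul_smul]
  congr 1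
  field_simp

theorem Proj_off (C : UCtx d a J g ρ T l x s e f) (hv : IsFrame d a J v) {i j : Fin N}
    (hij : i ≠ j) :
    (s⁻¹ • (Proj_t d J T v i - Proj_t d J T v j).map (algebraMap K L)) *
      SS J T s (ev L (v i)) (ev L (v j)) = SS J T s (ev L (v i)) (ev L (v j)) ∧
    SS J T s (ev L (v i)) (ev L (v j)) *
      (s⁻¹ • (Proj_t d J T v i - Proj_t d J T v j).map (algebraMap K L))
      = -SS J T s (ev L (v i)) (ev L (v j)) := by
  have hbe : be d J T s (ZZ T l x e f) (ev L (v i)) (ev L (v j))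
      = SS J T s (ev L (v i)) (ev L (v j)) := by
    rw [be, C.Proj_bb_off hv hij, zero_smul, add_zero]
  have hd : s⁻¹ • (Proj_t d J T v i - Proj_t d J T v j).map (algebraMap K L)
      = (s⁻¹ • (Proj_t d J T v i).map (algebraMap K L) + ZZ T l x e f)
        - (s⁻¹ • (Proj_t d J T v j).map (algebraMap K L) + ZZ T l x e f) := by
    rw [Helper9.KSM.map_sub', smul_sub]
    abel
  rw [hd, C.Proj_N hv, C.Proj_N hv, ← hbe]
  have hci := C.Proj_bb_ne hv i
  have hcj := C.Proj_bb_ne hv j
  constructor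
  · rw [sub_mul, smul_mul_assoc, smul_mul_assoc, C.Proj_R1, C.Proj_R2,
      C.Proj_bb_off hv hij, zero_smul, smul_zero, sub_zero, smul_smul, inv_mul_cancel₀ hci,
      one_smul]
  · rw [mul_sub, mul_smul_comm, mul_smul_comm, C.Proj_R1, C.Proj_R2,
      C.Proj_bb_off hv hij, zero_smul, smul_zero, zero_sub, smul_smul, inv_mul_cancel₀ hcj,
      one_smul]

theorem Proj_QSS (C : UCtx d a J g ρ T l x s e f) (hv : IsFrame d a J v) {Q : Mat m K}
    (hQt : ∀ i j, Q * (Proj_t d J T v i - Proj_t d J T v j) = 0)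
    (hQc : ∀ i, Proj_t d J T v i * Q = Q * Proj_t d J T v i) (i0 : Fin N) (p q : Fin n → K) :
    SS J T s (ev L p) (ev L q) * Q.map (algebraMap K L)
      = bb d J s (ev L p) (ev L q) • (s⁻¹ • (Proj_t d J T v i0 * Q).map (algebraMap K L)) ∧
    Q.map (algebraMap K L) * SS J T s (ev L p) (ev L q)
      = bb d J s (ev L p) (ev L q) • (s⁻¹ • (Proj_t d J T v i0 * Q).map (algebraMap K L)) := by
  have hQt' : ∀ i j, (Proj_t d J T v i - Proj_t d J T v j) * Q = 0 := by
    intro i j
    rw [sub_mul, hQc, hQc, ← mul_sub, hQt]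
  have hti : ∀ i, Proj_t d J T v i * Q = Proj_t d J T v i0 * Q := by
    intro i
    have h := hQt' i i0
    rw [sub_mul] at h
    exact sub_eq_zero.mp h
  have hdiag : ∀ i, SS J T s (ev L (v i)) (ev L (v i))
      = bb d J s (ev L (v i)) (ev L (v i)) • (s⁻¹ • (Proj_t d J T v i).map (algebraMap K L)) := by
    intro i
    rw [C.Proj_t_map hv, smul_smul, mul_inv_cancel₀ (C.Proj_bb_ne hv i), one_smul]
  set X : Mat m L := s⁻¹ • (Proj_t d J T v i0 * Q).map (algebraMap K L) with hX
  have hr : ∀ i j, SS J T s (ev L (v i)) (ev L (v j)) * Q.map (algebraMap K L)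
      = bb d J s (ev L (v i)) (ev L (v j)) • X := by
    intro i j
    by_cases hij : i = j
    · subst hij
      rw [hdiag, smul_mul_assoc, smul_mul_assoc, ← map_mul', hti]
    · have h := (C.Proj_off hv hij).2
      have h1 : SS J T s (ev L (v i)) (ev L (v j)) * Q.map (algebraMap K L) = 0 := by
        rw [← neg_neg (SS J T s (ev L (v i)) (ev L (v j))), ← h, neg_mul, mul_assoc,
          smul_mul_assoc, ← map_mul', hQt']
        simp
      rw [h1, C.Proj_bb_off hv hij, zero_smul]
  have hl : ∀ i j, Q.map (algebraMap K L) * SS J T s (ev L (v i)) (ev L (v j))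
      = bb d J s (ev L (v i)) (ev L (v j)) • X := by
    intro i j
    by_cases hij : i = j
    · subst hij
      rw [hdiag, mul_smul_comm, mul_smul_comm, ← map_mul', ← hQc, hti]
    · have h := (C.Proj_off hv hij).1
      have h1 : Q.map (algebraMap K L) * SS J T s (ev L (v i)) (ev L (v j)) = 0 := by
        rw [← h, ← mul_assoc, mul_smul_comm, ← map_mul', hQt]
        simp
      rw [h1, C.Proj_bb_off hv hij, zero_smul]
  constructor
  · have h := C.Proj_ext hv ((SS J T s).compr₂ (LinearMap.mulRight L (Q.map (algebraMap K L)))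
      - (bb d J s).compr₂ ((LinearMap.id : L →ₗ[L] L).smulRight X)) (by
        intro w y
        simp only [LinearMap.sub_apply, LinearMap.compr₂_apply, LinearMap.mulRight_apply,
          LinearMap.smulRight_apply, LinearMap.id_apply, C.Proj_SS_J, C.Proj_bb_J]
        rw [smul_mul_assoc, mul_smul, smul_sub]) (by
        intro w y
        simp only [LinearMap.sub_apply, LinearMap.compr₂_apply, LinearMap.mulRight_apply,
          LinearMap.smulRight_apply, LinearMap.id_apply, C.Proj_SS_J', C.Proj_bb_J']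
        rw [smul_mul_assoc, mul_smul, smul_sub]) (by
        intro i j
        simp only [LinearMap.sub_apply, LinearMap.compr₂_apply, LinearMap.mulRight_apply,
          LinearMap.smulRight_apply, LinearMap.id_apply]
        rw [hr, sub_self]) p q
    simp only [LinearMap.sub_apply, LinearMap.compr₂_apply, LinearMap.mulRight_apply,
          LinearMap.smulRight_apply, LinearMap.id_apply] at h
    exact sub_eq_zero.mp h
  · have h := C.Proj_ext hv ((SS J T s).compr₂ (LinearMap.mulLeft L (Q.map (algebraMap K L)))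
      - (bb d J s).compr₂ ((LinearMap.id : L →ₗ[L] L).smulRight X)) (by
        intro w y
        simp only [LinearMap.sub_apply, LinearMap.compr₂_apply, LinearMap.mulLeft_apply,
          LinearMap.smulRight_apply, LinearMap.id_apply, C.Proj_SS_J, C.Proj_bb_J]
        rw [mul_smul_comm, mul_smul, smul_sub]) (by
        intro w y
        simp only [LinearMap.sub_apply, LinearMap.compr₂_apply, LinearMap.mulLeft_apply,
          LinearMap.smulRight_apply, LinearMap.id_apply, C.Proj_SS_J', C.Proj_bb_J']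
        rw [mul_smul_comm, mul_smul, smul_sub]) (by
        intro i j
        simp only [LinearMap.sub_apply, LinearMap.compr₂_apply, LinearMap.mulLeft_apply,
          LinearMap.smulRight_apply, LinearMap.id_apply]
        rw [hl, sub_self]) p q
    simp only [LinearMap.sub_apply, LinearMap.compr₂_apply, LinearMap.mulLeft_apply,
          LinearMap.smulRight_apply, LinearMap.id_apply] at h
    exact sub_eq_zero.mp h

/-- the lifts on the image of `Q` -/
theorem Proj_low (C : UCtx d a J g ρ T l x s e f) (hv : IsFrame d a J v) {Q : Mat m K}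
    (hQt : ∀ i j, Q * (Proj_t d J T v i - Proj_t d J T v j) = 0)
    (hQc : ∀ i, Proj_t d J T v i * Q = Q * Proj_t d J T v i) (i0 : Fin N) (p q : Fin n → K) :
    sK T p q * Q = (-(2 * a⁻¹ * bil d (J *ᵥ p) q)) • (Proj_t d J T v i0 * Q) ∧
    Q * sK T p q = (-(2 * a⁻¹ * bil d (J *ᵥ p) q)) • (Proj_t d J T v i0 * Q) := by
  have hs := C.s_ne
  have h2 := two_neL K (L := L)
  have h1 := C.Proj_QSS hv hQt hQc i0 p q
  have h1' := C.Proj_QSS hv hQt hQc i0 q p
  have hco : (2 : L) * (bb d J s (ev L p) (ev L q) - bb d J s (ev L q) (ev L p)) * s⁻¹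
      = algebraMap K L (-(2 * a⁻¹ * bil d (J *ᵥ p) q)) := by
    have h3 := C.Proj_bilJ (ev L p) (ev L q)
    rw [Proj_J_ev, bil_ev] at h3
    rw [map_neg, map_mul, map_mul, map_inv₀, C.Proj_a_s, h3, map_ofNat]
    field_simp
  constructor
  · apply map_inj (A := L)
    rw [map_mul', map_smul', ← sA_ev, C.T_eq, smul_mul_assoc, sub_mul, h1.1, h1'.1, ← sub_smul,
      smul_smul, smul_smul, hco]
  · apply map_inj (A := L)
    rw [map_mul', map_smul', ← sA_ev, C.T_eq, mul_smul_comm, mul_sub, h1.2, h1'.2, ← sub_smul,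
      smul_smul, smul_smul, hco]

/-- commuting with `g` -/
theorem Proj_commg (C : UCtx d a J g ρ T l x s e f) {X : Mat m K}
    (hX : Proj_Bic (Proj_t d J T v) X) (hT : ∀ i j, T i j * X = X * T i j) :
    ∀ y ∈ g, y * X = X * y := by
  intro y hy
  obtain ⟨c, hc⟩ := C.split y hy
  set y' : Mat m K := ∑ k, ∑ l, c k l • T k l with hy'
  have h1 : y' * X = X * y' := by
    rw [hy', Finset.sum_mul, Finset.mul_sum]
    refine Finset.sum_congr rfl fun k _ => ?_
    rw [Finset.sum_mul, Finset.mul_sum]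
    refine Finset.sum_congr rfl fun k' _ => ?_
    rw [smul_mul_assoc, mul_smul_comm, hT]
  have h2 : (y - y') * X = X * (y - y') := by
    apply hX
    intro i
    have h3 : ∀ p q : Fin n → K, (y - y') * sK T p q = sK T p q * (y - y') := by
      intro p q
      rw [sK_apply, Finset.sum_mul, Finset.mul_sum]
      refine Finset.sum_congr rfl fun k _ => ?_
      rw [Finset.sum_mul, Finset.mul_sum]
      refine Finset.sum_congr rfl fun k' _ => ?_
      rw [smul_mul_assoc, mul_smul_comm, hc]
    rw [Proj_t, mul_smul_comm, smul_mul_assoc, h3]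
  have h3 : y = (y - y') + y' := by abel
  rw [h3, add_mul, mul_add, h1, h2]

theorem exists_E (C : UCtx d a J g ρ T l x s e f) (h4 : 4 ≤ n) :
    ∃ E D τ : Mat m K, ECtx d a J g T s (ZZ T l x e f) E D τ := by
  obtain ⟨N, v, hN, hv⟩ := exists_frame C.hd C.mult
  have h2N : 2 ≤ N := by omega
  have hs := C.s_ne
  let i0 : Fin N := ⟨0, by omega⟩
  let i1 : Fin N := ⟨1, by omega⟩
  have h01 : i0 ≠ i1 := by
    intro h
    exact Nat.zero_ne_one (congrArg Fin.val h)
  obtain ⟨Q, D, hQb, hQQ, hQu, hDb, hD⟩ := Proj_exists_Q (Proj_t d J T v) i0 a s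
    (ZZ T l x e f) (C.Proj_t_comm hv) (fun i => C.Proj_hE hv i i0) (fun i => C.Proj_hZ hv i i0)
  have hQc : ∀ i, Proj_t d J T v i * Q = Q * Proj_t d J T v i := fun i =>
    hQb _ (fun j => C.Proj_t_comm hv i j)
  have hQt : ∀ i j, Q * (Proj_t d J T v i - Proj_t d J T v j) = 0 := by
    intro i j
    have h := congrArg₂ (fun A B : Mat m K => A - B) (hQu i) (hQu j)
    simp only [← mul_sub, sub_self, sub_sub_sub_cancel_right] at h
    exact h
  have hlow := fun p q => C.Proj_low hv hQt hQc i0 p q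
  set t0 : Mat m K := Proj_t d J T v i0 with ht0
  have ht0b : Proj_Bic (Proj_t d J T v) t0 := Proj_Bic.self i0
  have hQT : ∀ i j, T i j * Q = Q * T i j := by
    intro i j
    have h := hlow (bv K i) (bv K j)
    rw [sK_bv] at h
    rw [h.1, h.2]
  have hET : ∀ i j, T i j * (1 - Q) = (1 - Q) * T i j := by
    intro i j
    rw [mul_sub, sub_mul, mul_one, one_mul, hQT]
  have hDT : ∀ i j, T i j * D = D * T i j := by
    intro i j
    apply map_inj (A := L)
    have h1 : (T i j).map (algebraMap K L) = sA L T (ev L (bv K i)) (ev L (bv K j)) := by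
      rw [sA_ev, sK_bv]
    have h2 := C.Zcomm (ev L (bv K i)) (ev L (bv K j))
    rw [← h1] at h2
    have h3 : ((2 : L) • ZZ T l x e f - 1) * (T i j).map (algebraMap K L)
        = (T i j).map (algebraMap K L) * ((2 : L) • ZZ T l x e f - 1) := by
      rw [sub_mul, mul_sub, smul_mul_assoc, mul_smul_comm, h2, one_mul, mul_one]
    rw [map_mul', map_mul', ← hD, mul_smul_comm, smul_mul_assoc, mul_assoc, ← map_mul',
      ← hET, map_mul', ← mul_assoc, ← mul_assoc, h3]
  have hτT : ∀ i j, T i j * (t0 * Q) = (t0 * Q) * T i j := by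
    intro i j
    have h := hlow (bv K i) (bv K j)
    rw [sK_bv] at h
    have h5 : t0 * Q = Q * t0 := hQc i0
    rw [mul_assoc, ← hQT, h.1, mul_smul_comm, h5, ← mul_assoc, h.1, smul_mul_assoc, h5]
    congr 1
    rw [mul_assoc, ← mul_assoc t0 Q t0, h5, mul_assoc]
  refine ⟨1 - Q, D, t0 * Q, ?_⟩
  have hEQ : (1 - Q) * (1 - Q) = 1 - Q := by
    rw [sub_mul, one_mul, mul_sub, mul_one, hQQ, sub_self, sub_zero]
  have hDE : D * (1 - Q) = D := by
    apply map_inj (A := L)
    rw [map_mul', ← hD, smul_mul_assoc, mul_assoc, ← map_mul', hEQ]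
  have hQD : Q * D = D * Q := hDb Q (fun i => (hQc i).symm)
  exact
    { idem := hEQ
      comm := C.Proj_commg (Proj_Bic.one.sub hQb) hET
      ne := by
        intro h
        have hQ1 : Q = 1 := (sub_eq_zero.mp h).symm
        have h1 := (hlow (v i0) (v i1)).1
        rw [hQ1, mul_one, hv.orthJ i0 i1 h01, mul_zero, neg_zero, zero_smul] at h1
        have h2 := C.rhoT_ext (ev L (v i0)) (ev L (v i1))
        have h3 : ∑ q : Fin n × Fin n, (ev L (v i0) q.1 * ev L (v i1) q.2) •
            (ρ (T q.1 q.2)).map (algebraMap K L) = (ρ (sK T (v i0) (v i1))).map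
              (algebraMap K L) := by
          rw [sK_apply, map_sum, map_sum', Fintype.sum_prod_type]
          refine Finset.sum_congr rfl fun k _ => ?_
          rw [map_sum, map_sum']
          refine Finset.sum_congr rfl fun k' _ => ?_
          rw [map_smul, map_smul', map_mul]
          rfl
        rw [h3, h1, map_zero] at h2
        have h4 := congrArg (fun M : Mat n L => M *ᵥ ev L (v i1)) h2
        beta_reduce at h4
        rw [Matrix.add_mulVec, Matrix.smul_mulVec, rot_mulVec, rot_mulVec, rotV, rotV,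
          Proj_J_ev (0 : Mat n K), Proj_J_ev J (v i0), Proj_J_ev J (v i1), bil_ev, bil_ev, bil_ev,
          bil_ev, hv.orth i0 i1 h01,
          hv.orthJ i0 i1 h01, Frame_bil_self C.mult, map_zero, zero_smul, zero_smul, zero_smul,
          sub_zero, sub_zero, smul_zero, add_zero] at h4
        have h5 : ev L ((0 : Mat n K) *ᵥ v i1) = 0 := by
          rw [Matrix.zero_mulVec]
          funext k
          exact map_zero (algebraMap K L)
        rw [h5] at h4
        have h6 : algebraMap K L (bil d (v i1) (v i1)) ≠ 0 := by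
          rw [Ne, map_eq_zero]
          exact hv.ne i1
        have h7 : ev L (v i0) = 0 := (smul_eq_zero_iff_right h6).mp h4.symm
        apply hv.ne i0
        have h8 : v i0 = 0 := by
          funext k
          have := congrFun h7 k
          exact (map_eq_zero (algebraMap K L)).mp this
        rw [h8, map_zero]
      commD := C.Proj_commg hDb hDT
      DE := hDE
      ED := by
        rw [sub_mul, one_mul, hQD]
        rw [mul_sub, mul_one] at hDE
        exact hDE
      ratl := hD
      commτ := C.Proj_commg (ht0b.mul hQb) hτT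
      Eτ := by
        rw [sub_mul, one_mul, hQc i0, ← mul_assoc, hQQ, sub_self]
      τE := by
        rw [mul_sub, mul_one, mul_assoc, hQQ, sub_self]
      low := by
        intro i j
        have h := (hlow (bv K i) (bv K j)).1
        rw [sK_bv] at h
        rw [sub_sub_cancel, h] }

end UCtx

end Pool.Agent.Helper36.UKS
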