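import Mathlib
import Pool.Agent.Helper36.UKS.Alg
import Pool.Agent.Helper36.UKS.Proj
import Pool.Agent.Helper36.UKS.MainC

/-!
Module F (helper36): assembly.
-/

open scoped Matrix

namespace Pool.Agent.Helper36.UKS

open Pool.Agent.Helper9.KSM

theorem main {K L : Type} [Field K] [CharZero K] [Field L] [Algebra K L] {n m r : ℕ}
    (h4 : 4 ≤ n) {d : Fin n → K} (hd : ∀ i, d i ≠ 0) {a : K} {J : Mat n K} (hJ : IsMult d a J)
    {g : Submodule K (Mat m K)} {ρ : Mat m K →ₗ[K] Mat n K} {l : Fin r → L}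
    {x : Fin r → Mat m K} (hg : IsUnitRep d J g ρ) (hP : IsHodgeProj d g ρ l x)
    (hJP : IsHodgeEnd J ρ l x) (hE : EndCond g l x) :
    (∀ y ∈ g, ρ y * J = J * ρ y) ∧
      ∃ (p : ℕ) (ι : Matrix (Fin m) (Fin p) K) (ι' : Matrix (Fin p) (Fin m) K)
        (κ : Fin n → Fin n → Mat p K), IsUnitKS d a J g ρ l x ι ι' κ := by
  have halg := algebraic (by omega) hd hJ hg hP hJP hE
  refine ⟨halg, ?_⟩
  obtain ⟨T, memT, rhoT, anti, jj, equi, split⟩ := exists_T hd hJ hg halg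
  obtain ⟨e, f, hh, hty⟩ := hP.type
  obtain ⟨s, s2, Je, Jf⟩ := hodge_type hJ hh hty hJP
  have C : UCtx d a J g ρ T l x s e f :=
    { hd := hd, mult := hJ, s2 := s2, lie := hg.lie, hom := hg.hom, skew := hg.skew, alg := halg,
      memT := memT, rhoT := rhoT, anti := anti, jj := jj, equi := equi, split := split,
      memx := hP.mem, idem := hP.idem, hyp := hh, type := hty, Je := Je, Jf := Jf }
  obtain ⟨E, D, τ, hE'⟩ := C.exists_E h4
  exact C.build (HH g ρ E) (UCtx.HH_ne hE') (fun y hy v hv => UCtx.HH_g hE' hy hv)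
    (fun v hv => C.HH_Z h4 hE' hv) (fun y hy v hv => C.HH_Zg h4 hE' hy hv)
    (fun χ φ hφ i v => C.HH_tens h4 hE' hφ i v) h4 (fun w v w' v' h h2 => C.HH_F hE' h h2)

end Pool.Agent.Helper36.UKS
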